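import Pool.Agent.Lib.MP_5e7226_co.C8.T7State

/-!
# Bodies symmetric about the origin

`symCls N` is the class of the convex bodies symmetric about the origin in which the octahedron with
the vertices `± 2 N • e i` has the maximal volume.
-/

set_option autoImplicit false

open Set Filter Topology
open scoped Pointwise

namespace Pool.Agent.Lib.MP_5e7226_co.C8

open GB

namespace SY

/-- symmetric about the origin -/
def Sy (L : Set E) : Prop := ∀ x ∈ L, -x ∈ L

/-- symmetric bodies in which the standard octahedron has the maximal volume -/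
structure SyMax (L : Set E) : Prop where
  oct : OctMax L
  sym : Sy L

/-- the scaled class -/
def symCls (N : ℕ) : Set (Set E) := {L | ∃ M, SyMax M ∧ L = (2 * N : ℝ) • M}

lemma Sy.image {L : Set E} (h : Sy L) (T : E ≃L[ℝ] E) : Sy (T '' L) := by
  rintro _ ⟨x, hx, rfl⟩
  exact ⟨-x, h x hx, by simp⟩

lemma SyMax.image {L : Set E} (h : SyMax L) {T : E ≃L[ℝ] E} (hT : T ∈ G48s) : SyMax (T '' L) :=
  ⟨h.oct.image hT, h.sym.image T⟩

theorem symCls_sym {N : ℕ} {T : E ≃L[ℝ] E} (hT : T ∈ G24) : ∀ L ∈ symCls N, T '' L ∈ symCls N := by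
  rintro L ⟨M, hM, rfl⟩
  have h : T ∈ G48s := by
    obtain ⟨g, _, h⟩ := hT
    exact ⟨g, h⟩
  exact ⟨T '' M, hM.image h, image_smul_set T _ M⟩

/-- elementary facts about the class -/
theorem facts {N : ℕ} {L : Set E} (h : L ∈ symCls N) :
    IsCompact L ∧ Convex ℝ L ∧ Sy L ∧ (∀ i : Fin 3, (2 * N : ℝ) • (Pi.single i 1 : E) ∈ L) ∧
      ∀ x : Fin 3 → E, (∀ j, x j ∈ L) → |(Matrix.of x).det| ≤ 8 * (N : ℝ) ^ 3 := by
  obtain ⟨M, hM, rfl⟩ := h
  refine ⟨hM.oct.cpt.smul _, hM.oct.conv.smul _, ?_, fun i => ⟨_, (hM.oct.pts i).1, rfl⟩,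
    fun x hx => ?_⟩
  · rintro _ ⟨y, hy, rfl⟩
    exact ⟨-y, hM.sym y hy, by simp⟩
  · choose y hy hyx using hx
    have h1 : (Matrix.of x) = (2 * N : ℝ) • (Matrix.of y) := by
      ext i k
      simp only [Matrix.of_apply, Matrix.smul_apply, ← hyx, Pi.smul_apply, smul_eq_mul]
    have h2 : |(Matrix.of y).det| ≤ 1 := by
      refine hM.oct.max 0 y fun i => ?_
      simp only [zero_add, zero_sub]
      exact ⟨hy i, hM.sym _ (hy i)⟩
    rw [h1, Matrix.det_smul, Fintype.card_fin, abs_mul, abs_of_nonneg (by positivity)]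
    calc (2 * (N : ℝ)) ^ 3 * |(Matrix.of y).det| ≤ (2 * (N : ℝ)) ^ 3 * 1 :=
          mul_le_mul_of_nonneg_left h2 (by positivity)
      _ = 8 * (N : ℝ) ^ 3 := by ring

/-! ### the normal position -/

/-- the standard octahedron has the maximal volume in a linear image of the body -/
theorem exists_norm {S : Set E} (hc : Convex ℝ S) (hk : IsCompact S) (hi : (interior S).Nonempty)
    (hs : Sy S) : ∃ T : E ≃L[ℝ] E, SyMax (T '' S) := by
  obtain ⟨p0, hp0, hdt, hmax⟩ := design_oct.exists_max hk hi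
  have hpm : ∀ i, p0.1 + p0.2 i ∈ S ∧ p0.1 - p0.2 i ∈ S := by
    intro i
    have h1 := hp0 (i, true)
    have h2 := hp0 (i, false)
    rw [(img_octV _ _ i).1] at h1
    rw [(img_octV _ _ i).2] at h2
    exact ⟨h1, h2⟩
  have hG : ∀ i, p0.2 i ∈ S := by
    intro i
    have h1 := (hpm i).1
    have h2 := hs _ (hpm i).2
    have h3 := hc h1 h2 (by norm_num : (0 : ℝ) ≤ 1 / 2) (by norm_num : (0 : ℝ) ≤ 1 / 2)
      (by norm_num)
    have e : (1 / 2 : ℝ) • (p0.1 + p0.2 i) + (1 / 2 : ℝ) • (-(p0.1 - p0.2 i)) = p0.2 i := by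
      module
    rwa [e] at h3
  have hA : IsUnit (Matrix.of p0.2).det := isUnit_iff_ne_zero.2 hdt
  set A := Matrix.of p0.2 with hAdef
  set T := nrm A hA with hT
  refine ⟨T, ⟨hk.image T.continuous, hc.linear_image T.toLinearEquiv.toLinearMap, ?_, ?_⟩,
    hs.image T⟩
  · intro i
    have e : T (p0.2 i) = Pi.single i 1 := by
      have h0 : p0.2 i = Matrix.vecMul (Pi.single i 1) A := by
        rw [Matrix.single_one_vecMul]
        rfl
      rw [h0, hT, nrm_apply, Matrix.vecMul_vecMul, Matrix.mul_nonsing_inv A hA, Matrix.vecMul_one]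
    refine ⟨⟨p0.2 i, hG i, e⟩, ⟨-p0.2 i, hs _ (hG i), by rw [map_neg, e]⟩⟩
  · intro c G hGc
    have hG' : (T.symm c, fun i => T.symm (G i)) ∈ Fam octV S := by
      rintro ⟨i, b⟩
      obtain ⟨h1, h2⟩ := hGc i
      obtain ⟨x, hx, hxe⟩ := h1
      obtain ⟨y, hy, hye⟩ := h2
      have ex : x = T.symm c + T.symm (G i) := by rw [← map_add, ← hxe, T.symm_apply_apply]
      have ey : y = T.symm c - T.symm (G i) := by rw [← map_sub, ← hye, T.symm_apply_apply]
      cases b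
      · rw [(img_octV _ _ i).2, ← ey]
        exact hy
      · rw [(img_octV _ _ i).1, ← ex]
        exact hx
    have h1 := hmax _ hG'
    have h2 : dt (fun i => T.symm (G i)) = dt G * A.det := by
      rw [dt, dt, ← Matrix.det_mul]
      rfl
    simp only at h1
    rw [h2, abs_mul] at h1
    have h3 : 0 < |A.det| := abs_pos.2 hdt
    have h4 : |dt G| * |A.det| ≤ 1 * |A.det| := by rw [one_mul]; exact h1
    exact le_of_mul_le_mul_right h4 h3

/-! ### the root -/

open T7 (GoodQ Tgt)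

/-- the opposite triple -/
def ngZ (t : ℤ × ℤ × ℤ) : ℤ × ℤ × ℤ := (-t.1, -t.2.1, -t.2.2)

lemma ptZ_ng (t : ℤ × ℤ × ℤ) : ptZ (ngZ t) = -ptZ t := by
  funext i
  fin_cases i <;> simp [ptZ, rl, ngZ]

/-- the vertices of the octahedron -/
def octR (N : ℤ) : List (ℤ × ℤ × ℤ) := orbZ (2 * N, 0, 0)

variable {Q : Set E → Prop} {n M : ℕ}

/-- one query at the root -/
theorem root_step (hQ : Tgt n Q) {F : List (ℤ × ℤ × ℤ)} (hF : Inv24 (ptsZ F)) (y : ℤ × ℤ × ℤ)
    (h1 : GoodQ Q (symCls M) ⟨ptsZ (y :: ngZ y :: octR M), ptsZ F, ∅⟩)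
    (h2 : GoodQ Q (symCls M) ⟨ptsZ (octR M), ptsZ (orbZ y ++ (orbZ (ngZ y) ++ F)), ∅⟩) :
    GoodQ Q (symCls M) ⟨ptsZ (octR M), ptsZ F, ∅⟩ := by
  refine T7.query_sym hQ G24 (fun g hg => ?_) (inv24_orb _) hF (ptZ y) (ptsZ (orbZ y)) ?_ ?_ ?_
  · exact symCls_sym (G24.symm hg)
  · rintro _ ⟨t, ht, rfl⟩
    exact orb24_exists ht
  · intro L hL hs
    refine h1 L hL ⟨?_, hs.out, hs.unlit⟩
    intro x hx
    rw [ptsZ_cons, ptsZ_cons] at hx
    rcases hx with rfl | rfl | hx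
    · exact hs.pts (mem_insert _ _)
    · rw [ptZ_ng]
      exact (facts hL).2.2.1 _ (hs.pts (mem_insert _ _))
    · exact hs.pts (mem_insert_of_mem _ hx)
  · intro L hL hs
    refine h2 L hL ⟨hs.pts, ?_, hs.unlit⟩
    intro x hx
    rw [ptsZ_append, ptsZ_append] at hx
    rcases hx with hx | hx | hx
    · exact hs.out x (Or.inr hx)
    · obtain ⟨t, ht, rfl⟩ := hx
      obtain ⟨T, hT, hTt⟩ := orb24_exists ht
      obtain ⟨r, hr, hrx⟩ := orb24_mem hT y.1 y.2.1 y.2.2
      intro hxL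
      have e : ptZ t = -(ptZ r) := by
        have e1 : ptZ t = T (ptZ (ngZ y)) := hTt
        have e2 : T (ptZ y) = ptZ r := hrx
        rw [e1, ptZ_ng, map_neg, e2]
      have h3 := (facts hL).2.2.1 _ hxL
      rw [e, neg_neg] at h3
      exact hs.out (ptZ r) (Or.inr ⟨r, hr, rfl⟩) h3
    · exact hs.out x (Or.inl hx)

/-- the states of the chain of root queries are good -/
def RootS (Q : Set E → Prop) (M : ℕ) : List (ℤ × ℤ × ℤ) → List (ℤ × ℤ × ℤ) → Prop
  | F, [] => GoodQ Q (symCls M) ⟨ptsZ (octR M), ptsZ F, ∅⟩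
  | F, y :: ys => GoodQ Q (symCls M) ⟨ptsZ (y :: ngZ y :: octR M), ptsZ F, ∅⟩ ∧
    RootS Q M (orbZ y ++ (orbZ (ngZ y) ++ F)) ys

theorem RootS.good (hQ : Tgt n Q) (ys : List (ℤ × ℤ × ℤ)) :
    ∀ F : List (ℤ × ℤ × ℤ), Inv24 (ptsZ F) →
    RootS Q M F ys → GoodQ Q (symCls M) ⟨ptsZ (octR M), ptsZ F, ∅⟩ := by
  induction ys with
  | nil => intro F _ h; exact h
  | cons y ys ih =>
    intro F hF h
    exact root_step hQ hF y h.1
      (ih _ (inv24_append (inv24_orb y) (inv24_append (inv24_orb _) hF)) h.2)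

/-- all bodies of the class have the property -/
theorem root_good (h : GoodQ Q (symCls M) ⟨ptsZ (octR M), ptsZ [], ∅⟩) :
    ∀ L ∈ symCls M, Q L := by
  intro L hL
  refine h L hL ⟨?_, ?_, ?_⟩
  · rintro x ⟨t, ht, rfl⟩
    obtain ⟨T, hT, hTt⟩ := orb24_exists ht
    have h1 := symCls_sym (G24.symm hT) L hL
    have h2 := (facts h1).2.2.2.1 0
    obtain ⟨z, hz, hze⟩ := h2
    have e : ptZ t = z := by
      have e1 : ptZ t = T (rl (2 * (M : ℤ)) 0 0) := hTt
      have e2 : rl (2 * (M : ℤ)) 0 0 = (2 * M : ℝ) • (Pi.single 0 1 : E) := by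
        funext i
        fin_cases i <;> simp [rl]
      rw [e1, e2, ← hze, T.apply_symm_apply]
    rw [e]
    exact hz
  · intro m hm
    have hm' : m ∈ ptsZ [] := hm
    rw [ptsZ_nil] at hm'
    exact absurd hm' (by simp)
  · intro f hf
    simp at hf

/-- every convex body symmetric about the origin has the property, from the chain of root
queries -/
theorem body_of_root (hQ : Tgt n Q) (hM : 0 < M) {ys : List (ℤ × ℤ × ℤ)}
    (h : RootS Q M [] ys) (S : Set E) (hc : Convex ℝ S) (hk : IsCompact S)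
    (hi : (interior S).Nonempty) (hs : Sy S) : Q S := by
  obtain ⟨T, hT⟩ := exists_norm hc hk hi hs
  have h1 := root_good (h.good hQ ys [] inv24_nil) _ ⟨T '' S, hT, rfl⟩
  have h2 : ((2 * M : ℕ) : ℝ) • (T '' S) = (2 * M : ℝ) • (T '' S) := by push_cast; rfl
  rw [← h2] at h1
  exact hQ.img T S (T7.of_smul hQ (by omega) h1)

end SY

end Pool.Agent.Lib.MP_5e7226_co.C8
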