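import Pool.Agent.Lib.MP_5e7226_co.C8.TXS
import Pool.Agent.Lib.MP_5e7226_co.C8.SY.Cls

/-!
# Leaves for symmetric bodies

The leaves are those of the general format; the triples are `(p, q, -p)`, which stand for the
pairs: the determinant of three points of the body is at most `8 * 1024 ^ 3`.
-/

set_option autoImplicit false

open Set

namespace Pool.Agent.Lib.MP_5e7226_co.C8

open GB TF TP TM

namespace SY

/-- the packed points are opposite -/
noncomputable def ng (p r : ℕ) : Bool :=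
  @Bool.rec (fun _ => Bool) false (@Bool.rec (fun _ => Bool) false
    (Nat.beq (Nat.add (ox p) (ox r)) (nat_lit 65536))
    (Nat.beq (Nat.add (oy p) (oy r)) (nat_lit 65536)))
    (Nat.beq (Nat.add (oz p) (oz r)) (nat_lit 65536))

/-- the triples of the certificate are pairs -/
noncomputable def sc (TK n : ℕ) : ℕ → Bool :=
  @Nat.rec (fun _ => ℕ → Bool) (fun _ => true)
    (fun _ ih S => @Bool.rec (fun _ => Bool) false (ih (Nat.shiftRight S (nat_lit 21)))
      (ng (pt TK (i7 S (nat_lit 0))) (pt TK (i7 S (nat_lit 14))))) n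

/-- the check of the triples of a leaf -/
noncomputable def sl (K : List ℕ) (H : ℕ) : Bool :=
  sc (tk K) (Nat.land (Nat.shiftRight H (nat_lit 3)) (nat_lit 63))
    (Nat.shiftRight (Nat.shiftRight H (Nat.add (nat_lit 32) (Nat.mul (nat_lit 2)
      (Nat.land (Nat.shiftRight H (nat_lit 23)) (nat_lit 511)))))
      (Nat.mul (nat_lit 7) (Nat.land (Nat.shiftRight H (nat_lit 15)) (nat_lit 255))))

/-- a leaf -/
noncomputable def lm (n : ℕ) (K F : List ℕ) (H W V S : ℕ) : Bool :=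
  @Bool.rec (fun _ => Bool) false (TX.lm n K F H W V S) (sl K H)

lemma ng_sound {p r : ℕ} (h : ng p r = true) : ix r = -ix p ∧ iy r = -iy p ∧ iz r = -iz p := by
  obtain ⟨h, h3⟩ := br h
  obtain ⟨h1, h2⟩ := br h
  have e1 : ox p + ox r = 65536 := Nat.eq_of_beq_eq_true h1
  have e2 : oy p + oy r = 65536 := Nat.eq_of_beq_eq_true h2
  have e3 : oz p + oz r = 65536 := Nat.eq_of_beq_eq_true h3
  unfold ix iy iz
  refine ⟨?_, ?_, ?_⟩ <;> omega

lemma ng_rp {p r : ℕ} (h : ng p r = true) : rp r = -rp p := by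
  obtain ⟨h1, h2, h3⟩ := ng_sound h
  unfold rp
  rw [h1, h2, h3]
  funext i
  fin_cases i <;> simp [rv]

/-- the region behind a pair is dead -/
lemma dead_ng {L : Set E} (hL : L ∈ symCls 1024) {p q r : ℕ} (hp : rp p ∈ L) (hq : rp q ∈ L)
    (hn : ng p r = true) (hc : 0 < (mkFD 17179869184 p q r).c) :
    Dead L {z | ((mkFD 17179869184 p q r).c : ℝ) ≤ nr (mkFD 17179869184 p q r) ⬝ᵥ z} := by
  have hmax := (facts hL).2.2.2.2
  obtain ⟨e1, e2, e3⟩ := ng_sound hn
  set h := mkFD 17179869184 p q r with hh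
  have hcz := mkFD_c_eq 17179869184 p q r hc
  rw [← hh] at hcz
  have hz0 : dz h (ix p) (iy p) (iz p) = 0 := by
    rw [hh, mkFD_n, e1, e2, e3]
    ring
  rw [hz0, add_zero] at hcz
  have hcr : (h.c : ℝ) = 17179869184 := by
    have h1 : h.c = 17179869184 := by exact_mod_cast hcz
    rw [h1]
    norm_num
  have key : ∀ z ∈ L, nr h ⬝ᵥ z ≤ (h.c : ℝ) := by
    intro z hz
    have h1 := hmax ![rp p, rp q, z] (by
      intro j
      fin_cases j
      · exact hp
      · exact hq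
      · exact hz)
    have h2 : nr h ⬝ᵥ z = 2 * (Matrix.of ![rp p, rp q, z]).det := by
      have n1 : ((h.A1 : ℤ) : ℝ) - ((h.B1 : ℤ) : ℝ) = ((((iy q * iz r - iz q * iy r) +
          (iy r * iz p - iz r * iy p) + (iy p * iz q - iz p * iy q)) : ℤ) : ℝ) := by
        have := mkFD_n 17179869184 p q r 1 0 0
        simp only [dz, mul_one, mul_zero, add_zero] at this
        rw [← hh] at this
        exact_mod_cast this
      have n2 : ((h.A2 : ℤ) : ℝ) - ((h.B2 : ℤ) : ℝ) = ((((iz q * ix r - ix q * iz r) +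
          (iz r * ix p - ix r * iz p) + (iz p * ix q - ix p * iz q)) : ℤ) : ℝ) := by
        have := mkFD_n 17179869184 p q r 0 1 0
        simp only [dz, mul_one, mul_zero, add_zero, zero_add] at this
        rw [← hh] at this
        exact_mod_cast this
      have n3 : ((h.A3 : ℤ) : ℝ) - ((h.B3 : ℤ) : ℝ) = ((((ix q * iy r - iy q * ix r) +
          (ix r * iy p - iy r * ix p) + (ix p * iy q - iy p * ix q)) : ℤ) : ℝ) := by
        have := mkFD_n 17179869184 p q r 0 0 1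
        simp only [dz, mul_one, mul_zero, zero_add] at this
        rw [← hh] at this
        exact_mod_cast this
      have hn' : nr h = ![((h.A1 : ℤ) : ℝ) - ((h.B1 : ℤ) : ℝ), ((h.A2 : ℤ) : ℝ) -
          ((h.B2 : ℤ) : ℝ), ((h.A3 : ℤ) : ℝ) - ((h.B3 : ℤ) : ℝ)] := by
        simp [nr, rv]
      rw [hn', n1, n2, n3, e1, e2, e3, Matrix.det_fin_three]
      simp only [rp, rv, Matrix.of_apply, Matrix.cons_val_zero, Matrix.cons_val_one,
        Matrix.cons_val, dotProduct, Fin.sum_univ_three]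
      push_cast
      ring
    rw [h2, hcr]
    have h3 := (abs_le.1 h1).2
    norm_num at h3
    linarith
  refine ⟨?_, ?_⟩
  · exact convex_halfSpace_ge (f := fun z : E => nr h ⬝ᵥ z)
      ⟨fun x y => by rw [dotProduct_add], fun c x => by rw [dotProduct_smul]⟩ _
  · intro z hz s hs hsz
    have h1 := key _ hsz
    rw [dotProduct_smul, smul_eq_mul] at h1
    have h2 : (h.c : ℝ) ≤ nr h ⬝ᵥ z := hz
    have h3 : (0 : ℝ) < h.c := by exact_mod_cast hc
    nlinarith

/-- the triples -/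
theorem dl_sound {K : List ℕ} : ∀ (n S : ℕ) (u : Ac) (k : Ac → Bool),
    dl (tk K) n S u k = true → sc (tk K) n S = true →
      ∃ (ds : List FD) (v : Ac), k v = true ∧ ds.length = n ∧
      (∀ hs, Rs hs u → Rs (ds ++ hs) v) ∧ ∀ h ∈ ds, 0 < h.c ∧ FB h ∧
        ∃ p ∈ md K, ∃ q ∈ md K, ∃ r ∈ md K, h = mkFD 17179869184 p q r ∧ ng p r = true := by
  intro n
  induction n with
  | zero =>
    intro S u k h _
    exact ⟨[], u, h, rfl, fun hs h => h, by simp⟩
  | succ n ih =>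
    intro S u k h hs
    obtain ⟨hs, hng⟩ := br hs
    obtain ⟨p, hp⟩ : ∃ p, p = pt (tk K) (i7 S 0) := ⟨_, rfl⟩
    obtain ⟨q, hq⟩ : ∃ q, q = pt (tk K) (i7 S 7) := ⟨_, rfl⟩
    obtain ⟨r, hr⟩ : ∃ r, r = pt (tk K) (i7 S 14) := ⟨_, rfl⟩
    have hng' : ng p r = true := by
      rw [hp, hr]
      exact hng
    obtain ⟨m, hm⟩ : ∃ m, m = Nat.mul (Nat.mul p q) r := ⟨_, rfl⟩
    have h1 : @Nat.rec (fun _ => Bool) false
        (fun _ _ => fn 17179869184 (fA p) (fB p) (fD p) (fA q) (fB r) u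
          (fun u => dl (tk K) n (Nat.shiftRight S 21) u k)) m = true := by
      rw [hm, hp, hq, hr]
      exact h
    cases m with
    | zero => exact absurd h1 Bool.false_ne_true
    | succ m =>
      have hne : p * q * r ≠ 0 := by
        have : p * q * r = m + 1 := hm.symm
        omega
      have hr0 : r ≠ 0 := fun h => hne (by rw [h, Nat.mul_zero])
      have hq0 : q ≠ 0 := fun h => hne (by rw [h, Nat.mul_zero, Nat.zero_mul])
      have hp0 : p ≠ 0 := fun h => hne (by rw [h, Nat.zero_mul, Nat.zero_mul])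
      have hp2 := fun h => (pt_ne (K := K) (i := i7 S 0) h).1
      have hq2 := fun h => (pt_ne (K := K) (i := i7 S 7) h).1
      have hr2 := fun h => (pt_ne (K := K) (i := i7 S 14) h).1
      rw [← hp] at hp2
      rw [← hq] at hq2
      rw [← hr] at hr2
      obtain ⟨hc, w, h2, h3⟩ := fn_sound h1
      obtain ⟨ds, v, h4, h5, h6, h7⟩ := ih _ _ _ h2 hs
      refine ⟨ds ++ [mkFD 17179869184 p q r], v, h4, by rw [List.length_append, h5]; rfl,
        fun hs hh => ?_, fun f hf => ?_⟩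
      · rw [List.append_assoc]
        exact h6 _ (h3 _ hh)
      · rcases List.mem_append.1 hf with hf | hf
        · exact h7 f hf
        · rw [List.mem_singleton] at hf
          subst hf
          exact ⟨hc, mkFD_bd (by norm_num), p, hp2 hp0, q, hq2 hq0, r, hr2 hr0, rfl, hng'⟩

/-- soundness of a leaf -/
theorem lm_sound {n : ℕ} (hn : 0 < n) {K F : List ℕ}
    {H W V S : ℕ} (h : SY.lm n K F H W V S = true) :
    ∀ L ∈ symCls 1024, KS K ⊆ L → (∀ x ∈ KS F, x ∉ L) →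
      ∀ x ∈ L, Phi (Wf n (Wl n W)) (JQ []) L x := by
  intro L hL hKL hFL
  obtain ⟨h, hsc⟩ := br h
  obtain ⟨nd, hnd⟩ : ∃ nd, nd = Nat.land (Nat.shiftRight H 3) 63 := ⟨_, rfl⟩
  obtain ⟨nh, hnh⟩ : ∃ nh, nh = Nat.land (Nat.shiftRight H 15) 255 := ⟨_, rfl⟩
  obtain ⟨no, hno⟩ : ∃ no, no = Nat.land (Nat.shiftRight H 23) 511 := ⟨_, rfl⟩
  obtain ⟨e, he⟩ : ∃ e, e = Nat.land H 7 := ⟨_, rfl⟩
  obtain ⟨nu, hnu⟩ : ∃ nu, nu = Nat.land (Nat.shiftRight H 9) 63 := ⟨_, rfl⟩
  obtain ⟨SO, hSO⟩ : ∃ SO, SO = Nat.shiftRight H 32 := ⟨_, rfl⟩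
  obtain ⟨SH, hSH⟩ : ∃ SH, SH = Nat.shiftRight H (Nat.add 32 (Nat.mul 2 no)) := ⟨_, rfl⟩
  obtain ⟨SD, hSD⟩ : ∃ SD, SD = Nat.shiftRight SH (Nat.mul 7 nh) := ⟨_, rfl⟩
  obtain ⟨SU, hSU⟩ : ∃ SU, SU = Nat.shiftRight SD (Nat.mul 21 nd) := ⟨_, rfl⟩
  have h1 : TX.m1 n e nd nu nh no (tk K) (tk F) SO SH SD SU W V S = true := by
    rw [hSU, hSD, hSH, hSO, hnu, he, hno, hnh, hnd]
    exact h
  have hsc' : sc (tk K) nd SD = true := by
    rw [hSD, hSH, hno, hnh, hnd]
    exact hsc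
  have he7 : e ≤ 7 := by
    rw [he]
    exact land_le _ _
  clear h hsc hnd hnh hno hnu hSO hSH hSD hSU he
  obtain ⟨ds, u1, h2, hdl, hd1, hd2⟩ := SY.dl_sound nd SD _ _ h1 hsc'
  obtain ⟨Q', h3, hq⟩ := hv_sound nh SH Fr.e _ h2
  obtain ⟨l, hl⟩ := hq ⟨[], AV_e _⟩
  obtain ⟨fs, u2, h4, hfne, hf1, hf2, hmem, hint, hzero⟩ := hull_sound hl h3
  have hr : Rs (fs ++ (ds ++ [])) u2 := hf1 _ (hd1 [] rfl)
  rw [List.append_nil] at hr
  have hbd : ∀ h ∈ fs ++ ds, FB h := by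
    intro h hh
    rcases List.mem_append.1 hh with hh | hh
    · exact (hf2 h hh).2
    · exact (hd2 h hh).2.1
  have hsub : KS (md K) ⊆ L := by rw [KS_md]; exact hKL
  have hfa : Fa (md K) fs := ⟨fun h hh => (hf2 h hh).2, hmem, hint, hzero⟩
  have hdead : ∀ h ∈ ds, Dead L {z | (h.c : ℝ) ≤ nr h ⬝ᵥ z} := by
    intro h hh
    obtain ⟨hp, _, p, h1, q, h2, r, h4, rfl, h5⟩ := hd2 h hh
    exact dead_ng hL (hsub ⟨p, h1, rfl⟩) (hsub ⟨q, h2, rfl⟩) h5 hp
  have hout : ∀ f < F.length, rp (pt (tk F) f) ∉ L := by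
    intro f hf
    rw [pt_tk F f hf, rp_mod]
    exact hFL _ ⟨_, List.getElem_mem hf, rfl⟩
  have hP1 : 0 < Nat.shiftLeft 1 e := by rw [nshl]; positivity
  have hP2 : Nat.shiftLeft 1 e ≤ 128 := by
    rw [nshl, one_mul]
    calc 2 ^ e ≤ 2 ^ 7 := Nat.pow_le_pow_right (by norm_num) he7
      _ = 128 := by norm_num
  have hnl : Nat.sub (fs ++ ds).length nd = fs.length := by
    rw [List.length_append, hdl, nsub, Nat.add_sub_cancel]
  have hMM : Nat.shiftLeft 1 (Nat.mul 96 (fs ++ ds).length) = 2 ^ (96 * (fs ++ ds).length) := by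
    rw [nshl, nmul, one_mul]
  rw [hr] at h4
  have h5 : TX.m3 n (Nat.shiftLeft 1 e) e (Nat.sub (fs ++ ds).length nd) nd nu SU (tk F) W V S
      (Nat.mul 39614081257132168796771975168 (on (Nat.sub (fs ++ ds).length nd)))
      (Nat.mul 39614081257132168796771975168 (on (fs ++ ds).length))
      (Nat.shiftLeft 1 (Nat.mul 96 (fs ++ ds).length)) (pk FD.c (fs ++ ds))
      (Nat.add (pk (fun h => h.A1 + 2 ^ 63 - h.B1) (fs ++ ds)) (Nat.sub
        (Nat.shiftLeft 1 (Nat.mul 96 (fs ++ ds).length))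
        (Nat.mul 9223372036854775808 (on (fs ++ ds).length))))
      (Nat.add (pk (fun h => h.A2 + 2 ^ 63 - h.B2) (fs ++ ds)) (Nat.sub
        (Nat.shiftLeft 1 (Nat.mul 96 (fs ++ ds).length))
        (Nat.mul 9223372036854775808 (on (fs ++ ds).length))))
      (Nat.add (pk (fun h => h.A3 + 2 ^ 63 - h.B3) (fs ++ ds)) (Nat.sub
        (Nat.shiftLeft 1 (Nat.mul 96 (fs ++ ds).length))
        (Nat.mul 9223372036854775808 (on (fs ++ ds).length))))
      (Nat.add (Nat.mul 9223372036854775808 (on (fs ++ ds).length)) (Nat.sub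
        (Nat.shiftLeft 1 (Nat.mul 96 (fs ++ ds).length))
        (pk (fun h => h.A1 + 2 ^ 63 - h.B1) (fs ++ ds))))
      (Nat.add (Nat.mul 9223372036854775808 (on (fs ++ ds).length)) (Nat.sub
        (Nat.shiftLeft 1 (Nat.mul 96 (fs ++ ds).length))
        (pk (fun h => h.A2 + 2 ^ 63 - h.B2) (fs ++ ds))))
      (Nat.add (Nat.mul 9223372036854775808 (on (fs ++ ds).length)) (Nat.sub
        (Nat.shiftLeft 1 (Nat.mul 96 (fs ++ ds).length))
        (pk (fun h => h.A3 + 2 ^ 63 - h.B3) (fs ++ ds)))) = true := h4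
  rw [hnl, hMM] at h5
  exact TX.m3_sound hn hP1 hP2 rfl hdl.symm rfl hfa hbd (facts hL).2.1 hsub hdead (nu_rs hbd) hout h5

end SY

end Pool.Agent.Lib.MP_5e7226_co.C8
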