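import Pool.Agent.Lib.MP_5e7226_co.C8.SY.Loc3
import Pool.Agent.Lib.MP_5e7226_co.C8.SY.Leaf
import Pool.Agent.Lib.MP_5e7226_co.C8.TFNS

/-!
# The local theorem for symmetric bodies in the form of the checker
-/

set_option autoImplicit false

open Set Filter Topology

namespace Pool.Agent.Lib.MP_5e7226_co.C8

open GB T7

namespace SY

/-- the target: illuminated by six directions, or a parallelepiped -/
def Q6 (L : Set E) : Prop := Illum L 6 ∨ L7.IsPar L

lemma tgt6 : Tgt 6 Q6 where
  ill _ h := Or.inl h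
  img T L h := by
    rcases h with h | h
    · exact Or.inl (h.of_image T)
    · exact Or.inr (isPar_img T h)
  tr a L h := by
    rcases h with h | h
    · exact Or.inl (illum_tr a h)
    · exact Or.inr (isPar_tr a h)

/-- The local theorem for symmetric bodies: `L` lies between a parallelepiped with the centre `0`
and its homothetic copy with the ratio `5/4`. -/
theorem near_par {L : Set E} (hc : Convex ℝ L) (hk : IsCompact L) (hs : Sy L) (e : Fin 3 → E)
    (he : LinearIndependent ℝ e)
    (hin : ∀ t : Fin 3 → ℝ, (∀ i, |t i| ≤ 1) → ∑ i, t i • e i ∈ L)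
    (hout : ∀ y ∈ L, ∃ t : Fin 3 → ℝ, (∀ i, |t i| ≤ 5/4) ∧ y = ∑ i, t i • e i) : Q6 L := by
  let b : Module.Basis (Fin 3) ℝ E :=
    basisOfLinearIndependentOfCardEqFinrank he (by simp)
  have hb : ∀ i, b i = e i := by
    intro i
    simp [b]
  let T : E ≃L[ℝ] E := (b.equivFun.symm).toContinuousLinearEquiv
  have hT : ∀ t : E, T t = ∑ i, t i • e i := by
    intro t
    have h1 : T t = b.equivFun.symm t := rfl
    rw [h1, Module.Basis.equivFun_symm_apply]
    exact Finset.sum_congr rfl fun i _ => by rw [hb]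
  let L' : Set E := {t | T t ∈ L}
  have hL : L = T '' L' := by
    ext y
    constructor
    · intro hy
      refine ⟨T.symm y, ?_, T.apply_symm_apply y⟩
      show T (T.symm y) ∈ L
      rw [T.apply_symm_apply]; exact hy
    · rintro ⟨t, ht, rfl⟩
      exact ht
  have hL' : L' = T.symm '' L := by
    ext t
    constructor
    · intro ht
      exact ⟨T t, ht, T.symm_apply_apply t⟩
    · rintro ⟨y, hy, rfl⟩
      show T (T.symm y) ∈ L
      rw [T.apply_symm_apply]; exact hy
  have hS : Sd L' := by
    refine ⟨?_, ?_, ?_, ?_, ?_⟩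
    · rw [hL']
      exact hc.linear_image T.symm.toLinearEquiv.toLinearMap
    · rw [hL']
      exact hk.image T.symm.continuous
    · intro t ht
      show T t ∈ L
      rw [hT]
      exact hin t ht
    · intro t ht i
      obtain ⟨s, hs, hst⟩ := hout _ ht
      have h1 : T t = T s := by
        rw [hT s]
        exact hst
      have h2 : t = s := T.injective h1
      rw [h2]
      exact hs i
    · intro t ht
      show T (-t) ∈ L
      rw [map_neg]
      exact hs _ ht
  refine tgt6.img T.symm L ?_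
  have h1 : T.symm '' L = L' := hL'.symm
  rw [h1]
  exact local6 hS

/-- the homothetic copy -/
def Bx (a b c : E) : Set E :=
  {x | 20 * |D3 x b c| ≤ 25 * |D3 a b c| ∧
    20 * |D3 x c a| ≤ 25 * |D3 a b c| ∧ 20 * |D3 x a b| ≤ 25 * |D3 a b c|}

lemma convex_slab (b c : E) (T : ℝ) : Convex ℝ {x : E | 20 * |D3 x b c| ≤ T} := by
  intro x hx z hz s t hs ht hst
  have e : D3 (s • x + t • z) b c = s * D3 x b c + t * D3 z b c := by
    rw [D3_add, D3_smul, D3_smul]
  show 20 * |D3 (s • x + t • z) b c| ≤ T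
  rw [e]
  have h1 : 20 * |D3 x b c| ≤ T := hx
  have h2 : 20 * |D3 z b c| ≤ T := hz
  have h3 := abs_add_le (s * D3 x b c) (t * D3 z b c)
  rw [abs_mul, abs_mul, abs_of_nonneg hs, abs_of_nonneg ht] at h3
  have h4 : s * (20 * |D3 x b c|) ≤ s * T := mul_le_mul_of_nonneg_left h1 hs
  have h5 : t * (20 * |D3 z b c|) ≤ t * T := mul_le_mul_of_nonneg_left h2 ht
  have h6 : s * T + t * T = T := by rw [← add_mul, hst, one_mul]
  linarith

lemma convex_Bx (a b c : E) : Convex ℝ (Bx a b c) :=
  (convex_slab b c _).inter ((convex_slab c a _).inter (convex_slab a b _))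

/-- **the local theorem in the form of the checker** -/
theorem near_box {L : Set E} (hc : Convex ℝ L) (hk : IsCompact L) (hs : Sy L) {a b c : E}
    (hd : D3 a b c ≠ 0)
    (h : ∀ s t r : ℝ, (s = 1 ∨ s = -1) → (t = 1 ∨ t = -1) → (r = 1 ∨ r = -1) →
      (0 : E) + s • a + t • b + r • c ∈ L) (hL : ∀ x ∈ L, x ∈ Bx a b c) : Q6 L := by
  have hexp : ∀ x : E, x = (D3 x b c / D3 a b c) • a + (D3 x c a / D3 a b c) • b +
      (D3 x a b / D3 a b c) • c := by
    intro x
    have key : ∀ i : Fin 3, D3 a b c * x i = D3 x b c * a i + D3 x c a * b i +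
        D3 x a b * c i := by
      intro i
      simp only [D3]
      fin_cases i <;> simp <;> ring
    funext i
    have := key i
    simp only [Pi.add_apply, Pi.smul_apply, smul_eq_mul]
    field_simp
    linarith
  have hli : LinearIndependent ℝ ![a, b, c] := by
    rw [Fintype.linearIndependent_iff]
    intro g hg
    rw [Fin.sum_univ_three] at hg
    simp only [Matrix.cons_val_zero, Matrix.cons_val_one, Matrix.cons_val] at hg
    have h0 : g 0 * D3 a b c = 0 := by
      have := congrArg (fun v => D3 v b c) hg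
      simp only [D3_add, D3_smul, D3_zero] at this
      have e1 : D3 b b c = 0 := by simp only [D3]; ring
      have e2 : D3 c b c = 0 := by simp only [D3]; ring
      rw [e1, e2] at this
      linarith
    have h1 : g 1 * D3 a b c = 0 := by
      have := congrArg (fun v => D3 v c a) hg
      simp only [D3_add, D3_smul, D3_zero] at this
      have e1 : D3 a c a = 0 := by simp only [D3]; ring
      have e2 : D3 c c a = 0 := by simp only [D3]; ring
      have e3 : D3 b c a = D3 a b c := by simp only [D3]; ring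
      rw [e1, e2, e3] at this
      linarith
    have h2 : g 2 * D3 a b c = 0 := by
      have := congrArg (fun v => D3 v a b) hg
      simp only [D3_add, D3_smul, D3_zero] at this
      have e1 : D3 a a b = 0 := by simp only [D3]; ring
      have e2 : D3 b a b = 0 := by simp only [D3]; ring
      have e3 : D3 c a b = D3 a b c := by simp only [D3]; ring
      rw [e1, e2, e3] at this
      linarith
    intro i
    fin_cases i
    · exact (mul_eq_zero.1 h0).resolve_right hd
    · exact (mul_eq_zero.1 h1).resolve_right hd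
    · exact (mul_eq_zero.1 h2).resolve_right hd
  have hpos : 0 < |D3 a b c| := abs_pos.2 hd
  refine near_par hc hk hs ![a, b, c] hli ?_ ?_
  · intro t ht
    rw [Fin.sum_univ_three]
    simp only [Matrix.cons_val_zero, Matrix.cons_val_one, Matrix.cons_val]
    have := box_mem hc h (ht 0) (ht 1) (ht 2)
    rwa [zero_add] at this
  · intro x hx
    obtain ⟨h1, h2, h3⟩ := hL x hx
    refine ⟨![D3 x b c / D3 a b c, D3 x c a / D3 a b c, D3 x a b / D3 a b c], ?_, ?_⟩
    · have key : ∀ q : ℝ, 20 * |q| ≤ 25 * |D3 a b c| → |q / D3 a b c| ≤ 5 / 4 := by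
        intro q hq
        rw [abs_div, div_le_iff₀ hpos]
        linarith
      intro i
      fin_cases i
      · exact key _ h1
      · exact key _ h2
      · exact key _ h3
    · rw [Fin.sum_univ_three]
      simp only [Matrix.cons_val_zero, Matrix.cons_val_one, Matrix.cons_val]
      exact hexp x

/-! ### the functionals of the box -/

/-- a functional of the box with the normal `q × r` and the value `(25 T) / 20` -/
def bxf (T q r : ℕ) : FD :=
  (fun f => ⟨f.p, f.q, f.r, f.A1, f.A2, f.A3, f.B1, f.B2, f.B3,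
    Nat.div (Nat.mul (nat_lit 25) T) (nat_lit 20)⟩) (mkFD (nat_lit 0) org q r)

/-- the functionals of the box -/
def boxL (T e1 e2 e3 : ℕ) : List FD :=
  [bxf T e2 e3, bxf T e3 e2, bxf T e3 e1, bxf T e1 e3, bxf T e1 e2, bxf T e2 e1]

lemma bxf_nr (T q r : ℕ) (x : E) : nr (bxf T q r) ⬝ᵥ x = D3 x (rp q) (rp r) := mk_nr 0 q r x

lemma bxf_c (T q r : ℕ) : 20 * ((bxf T q r).c : ℝ) ≤ 25 * (T : ℝ) := by
  have e : (bxf T q r).c = (25 * T) / 20 := rfl
  have h3 : 20 * (bxf T q r).c ≤ 25 * T := by
    rw [e]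
    exact Nat.mul_div_le _ _
  exact_mod_cast h3

lemma boxL_fb {T e1 e2 e3 : ℕ} (h : okB (boxL T e1 e2 e3) = true) :
    ∀ f ∈ boxL T e1 e2 e3, FB f := by
  intro f hf
  have hc := (okB_sound h f hf).2
  have key : ∀ q r, f = bxf T q r → FB f := by
    rintro q r rfl
    have hb := mkFD_bd (k := 0) (p := org) (q := q) (r := r) (by norm_num)
    exact ⟨hb.a1, hb.a2, hb.a3, hb.b1, hb.b2, hb.b3, hc⟩
  simp only [boxL, List.mem_cons, List.not_mem_nil, or_false] at hf
  rcases hf with h | h | h | h | h | h <;> exact key _ _ h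

/-- a point satisfying the inequalities of the box -/
lemma mem_Bx {e1 e2 e3 : ℕ} {x : E}
    (h : ∀ f ∈ boxL (dtm e1 e2 e3) e1 e2 e3, nr f ⬝ᵥ x ≤ (f.c : ℝ)) :
    x ∈ Bx (rp e1) (rp e2) (rp e3) := by
  have hT := dtm_eq e1 e2 e3
  have key : ∀ q r, bxf (dtm e1 e2 e3) q r ∈ boxL (dtm e1 e2 e3) e1 e2 e3 →
      20 * D3 x (rp q) (rp r) ≤ 25 * |D3 (rp e1) (rp e2) (rp e3)| := by
    intro q r hm
    have h1 := h _ hm
    have h2 := bxf_c (dtm e1 e2 e3) q r
    rw [bxf_nr] at h1
    rw [hT] at h2
    linarith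
  have sw : ∀ u a b : E, D3 u a b = -D3 u b a := by
    intro u a b
    simp only [D3]
    ring
  have k1 := key e2 e3 (by simp [boxL])
  have k2 := key e3 e2 (by simp [boxL])
  have k3 := key e3 e1 (by simp [boxL])
  have k4 := key e1 e3 (by simp [boxL])
  have k5 := key e1 e2 (by simp [boxL])
  have k6 := key e2 e1 (by simp [boxL])
  rw [sw x (rp e3) (rp e2)] at k2
  rw [sw x (rp e1) (rp e3)] at k4
  rw [sw x (rp e2) (rp e1)] at k6
  have fin : ∀ a m : ℝ, 20 * a ≤ m → 20 * -a ≤ m → 20 * |a| ≤ m := by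
    intro a m h1 h2
    have : |a| ≤ m / 20 := by
      rw [abs_le]
      constructor <;> linarith
    linarith
  exact ⟨fin _ _ k1 k2, fin _ _ k3 k4, fin _ _ k5 k6⟩

end SY

end Pool.Agent.Lib.MP_5e7226_co.C8
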