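import Pool.Agent.Lib.MP_5e7226_co.C8.SY.Zl
import Pool.Agent.Lib.MP_5e7226_co.C8.TRS4

/-!
# Leaves with cones, general format, for symmetric bodies

As `TR.cu`; the triples are pairs.
-/

set_option autoImplicit false

open Set

namespace Pool.Agent.Lib.MP_5e7226_co.C8.TR

open GB C8.TF

/-- a cover with cones, the triples are pairs -/
noncomputable def cuS (n : ℕ) (K F : List ℕ) (G : List UG) (J : List KG)
    (H W S0 S1 S2 S3 S4 S5 S6 S7 : ℕ) : Bool :=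
  @Bool.rec (fun _ => Bool) false (cu n K F G J H W S0 S1 S2 S3 S4 S5 S6 S7)
    (SY.sc (tk K) (Nat.land (Nat.shiftRight H (nat_lit 8)) (nat_lit 127))
      (Nat.shiftRight H (Nat.add (nat_lit 18) (Nat.mul (nat_lit 45) (Nat.land H (nat_lit 255))))))

/-- soundness of a cover -/
theorem cuS_sound {n : ℕ} {K F : List ℕ} {G : List UG} {J : List KG}
    (h0 : (0 : E) ∈ convexHull ℝ (KS K))
    {H W S0 S1 S2 S3 S4 S5 S6 S7 : ℕ} (h : cuS n K F G J H W S0 S1 S2 S3 S4 S5 S6 S7 = true) :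
    ∀ L ∈ SY.symCls 1024, (tsG n K F G).Holds L → ∀ x ∈ L,
      Phi (Wf n (Wl n W)) (JQ J) L x := by
  intro L hL hst
  obtain ⟨h, hsc⟩ := br h
  obtain ⟨nf, hnf⟩ : ∃ nf, nf = Nat.land H 255 := ⟨_, rfl⟩
  obtain ⟨nd, hnd⟩ : ∃ nd, nd = Nat.land (Nat.shiftRight H 8) 127 := ⟨_, rfl⟩
  obtain ⟨FC, hFC⟩ : ∃ FC, FC = Nat.shiftRight H 18 := ⟨_, rfl⟩
  obtain ⟨DC, hDC⟩ : ∃ DC, DC = Nat.shiftRight H (Nat.add 18 (Nat.mul 45 nf)) := ⟨_, rfl⟩
  obtain ⟨P, hPP⟩ : ∃ P, P = pw H := ⟨_, rfl⟩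
  have hsc' : SY.sc (tk K) nd DC = true := by
    rw [hDC, hnf, hnd]
    exact hsc
  have h' : k2 n P (ln K) (ln F) nf nd FC DC (tk K) (tk F) W G J
      (ap (fl (tk K) 0 45 nf FC) (fl (tk K) 17179869184 21 nd DC)) S0 S1 S2 S3 S4 S5 S6 S7 =
      true := by
    rw [hDC, hFC, hnf, hnd, hPP]
    exact h
  rw [ap_eq] at h'
  have hP1 : 0 < P := hPP ▸ pw_pos H
  have hP2 : P ≤ 128 := hPP ▸ pw_le H
  clear h hsc hDC hFC hnf hnd hPP
  set fs := fl (tk K) 0 45 nf FC with hfs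
  set ds := fl (tk K) 17179869184 21 nd DC with hds
  have lenf : fs.length = nf := fl_len _ _ _ _ _
  have lend : ds.length = nd := fl_len _ _ _ _ _
  have hlen : Nat.add nf nd = (fs ++ ds).length := by rw [List.length_append, lenf, lend]; rfl
  have hbd : ∀ h ∈ fs ++ ds, FB h := by
    intro h hh
    rcases List.mem_append.1 hh with hh | hh
    · obtain ⟨j, _, rfl⟩ := fl_mem hh
      exact mkFD_bd (by norm_num)
    · obtain ⟨j, _, rfl⟩ := fl_mem hh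
      exact mkFD_bd (by norm_num)
  have hn := nu_of hbd hlen
  obtain ⟨BI, hBI⟩ : ∃ X, X = Nat.mul 39614081257132168796771975168 (on (Nat.add nf nd)) :=
    ⟨_, rfl⟩
  obtain ⟨C0, hC0⟩ : ∃ X, X = pf FD.c (fs ++ ds) := ⟨_, rfl⟩
  obtain ⟨C1, hC1⟩ : ∃ X, X = Nat.add (pf FD.A1 (fs ++ ds)) (Nat.sub
    (Nat.shiftLeft 1 (Nat.mul 96 (Nat.add nf nd))) (pf FD.B1 (fs ++ ds))) := ⟨_, rfl⟩
  obtain ⟨C2, hC2⟩ : ∃ X, X = Nat.add (pf FD.A2 (fs ++ ds)) (Nat.sub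
    (Nat.shiftLeft 1 (Nat.mul 96 (Nat.add nf nd))) (pf FD.B2 (fs ++ ds))) := ⟨_, rfl⟩
  obtain ⟨C3, hC3⟩ : ∃ X, X = Nat.add (pf FD.A3 (fs ++ ds)) (Nat.sub
    (Nat.shiftLeft 1 (Nat.mul 96 (Nat.add nf nd))) (pf FD.B3 (fs ++ ds))) := ⟨_, rfl⟩
  obtain ⟨D1, hD1⟩ : ∃ X, X = Nat.add (pf FD.B1 (fs ++ ds)) (Nat.sub
    (Nat.shiftLeft 1 (Nat.mul 96 (Nat.add nf nd))) (pf FD.A1 (fs ++ ds))) := ⟨_, rfl⟩
  obtain ⟨D2, hD2⟩ : ∃ X, X = Nat.add (pf FD.B2 (fs ++ ds)) (Nat.sub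
    (Nat.shiftLeft 1 (Nat.mul 96 (Nat.add nf nd))) (pf FD.A2 (fs ++ ds))) := ⟨_, rfl⟩
  obtain ⟨D3, hD3⟩ : ∃ X, X = Nat.add (pf FD.B3 (fs ++ ds)) (Nat.sub
    (Nat.shiftLeft 1 (Nat.mul 96 (Nat.add nf nd))) (pf FD.A3 (fs ++ ds))) := ⟨_, rfl⟩
  rw [← hBI, ← hC0, ← hC1, ← hC2, ← hC3, ← hD1, ← hD2, ← hD3] at hn
  have h3 : k3 n P (ln K) (ln F) nf nd FC DC (tk K) (tk F) W G J
      (Nat.mul 39614081257132168796771975168 (on nf)) BI C0 C1 C2 C3 D1 D2 D3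
      S0 S1 S2 S3 S4 S5 S6 S7 = true := by
    rw [hBI, hC0, hC1, hC2, hC3, hD1, hD2, hD3]
    exact h'
  clear h' hC0 hC1 hC2 hC3 hD1 hD2 hD3
  obtain ⟨h3, k1⟩ := br h3
  obtain ⟨h3, k2⟩ := br h3
  obtain ⟨h3, k3⟩ := br h3
  obtain ⟨h3, k4⟩ := br h3
  obtain ⟨h3, k5⟩ := br h3
  have k2' : 1 ≤ nf := Nat.le_of_ble_eq_true k2
  -- the offsets are positive
  have hCC := hn.CC hlen
  have hpos : ∀ h ∈ fs ++ ds, 0 < h.c := by
    have e1 : BI = pk (fun _ => 39614081257132168796771975168) (fs ++ ds) := by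
      rw [pk_const, hBI, hlen]; rfl
    rw [e1] at k5
    have k5' := set_of_mask ((beq_iff _ _).1 k5)
    have hs1 := sign_set hCC (fun f hf => by
      have a2 : (f.c : ℤ) < 2 ^ 56 := by exact_mod_cast (hbd f hf).c
      have a3 : (0 : ℤ) ≤ f.c := Nat.cast_nonneg _
      constructor
      · norm_num; linarith
      · norm_num at a2 ⊢; linarith) k5'
    intro f hf
    have := hs1 f hf
    omega
  -- the facets
  have hfc := fc_true k4
  have hdc := dc_true k3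
  have hV : ∀ k, Rp (fs ++ ds) (Nat.add (Nat.add C0 (Nat.mul 39614081257132168796771975167
      (on (Nat.add nf nd)))) (vn D1 D2 D3 (Nat.mul 32768 (Nat.add (Nat.add C1 C2) C3))
      (pt (tk K) k))) (fun h => 2 ^ 95 + ((h.c : ℤ) - 1 -
      dz h (ix (pt (tk K) k)) (iy (pt (tk K) k)) (iz (pt (tk K) k)))) := by
    intro k
    refine (hCC.add (hn.K0 (pt (tk K) k))).congr (fun f _ => ?_)
    ring
  have hgood : ∀ h ∈ fs, FGood fs h := by
    intro h hh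
    have hp := hpos h (List.mem_append_left _ hh)
    obtain ⟨j, hj, rfl⟩ := fl_mem hh
    obtain ⟨_, n1, n2, n3⟩ := hfc j hj
    exact ⟨hp, nb_facet hfs hbd hV n1, nb_facet hfs hbd hV n2, nb_facet hfs hbd hV n3⟩
  have hok : FctOk (fs.map toF) := by
    refine fctOk_of ?_ hgood ?_
    · intro he
      rw [he] at lenf
      simp at lenf
      omega
    · intro h hh
      obtain ⟨j, _, rfl⟩ := fl_mem hh
      exact ⟨_, _, _, rfl⟩
  have h0' : (0 : E) ∈ convexHull ℝ (KS (md K)) := by rw [KS_md]; exact h0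
  have hfac : Fac (md K) fs := by
    refine ⟨hok, fun h hh => hbd h (List.mem_append_left _ hh), fun h hh => ?_, h0'⟩
    obtain ⟨p, hp, q, hq, r, hr, rfl⟩ := fl_in hh (fun j hj => (hfc j hj).1)
    exact ⟨hp, hq, hr⟩
  have hsub : KS (md K) ⊆ L := by rw [KS_md]; exact hst.pts
  have hout : ∀ f < ln F, rp (pt (tk F) f) ∉ L := by
    intro f hf
    rw [ln_eq] at hf
    rw [pt_tk F f hf, rp_mod]
    exact hst.out _ ⟨_, List.getElem_mem hf, rfl⟩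
  have hdead : ∀ h ∈ ds, Dead L {z | (h.c : ℝ) ≤ nr h ⬝ᵥ z} := by
    intro h hh
    have hp := hpos h (List.mem_append_right _ hh)
    obtain ⟨p, h1, q, h2, r, h4, rfl, hng⟩ := SY.fl_in2 hh hdc hsc'
    exact SY.dead_ng hL (hsub ⟨p, h1, rfl⟩) (hsub ⟨q, h2, rfl⟩) hng hp
  obtain ⟨R, hR⟩ : ∃ R, R = Nat.mul 4096 P := ⟨_, rfl⟩
  have hcd : Cu n R P nf nd (ln F) (Nat.mul 39614081257132168796771975168 (on nf))
      (Nat.add BI (Nat.mul R
        (Nat.sub (Nat.shiftLeft 1 (Nat.mul 96 (Nat.add nf nd))) C0)))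
      (Nat.add BI (Nat.mul (Nat.mul 4096 R) C0))
      (fun a => Nat.mul P (vn D1 D2 D3 (Nat.mul 32768 (Nat.add (Nat.add C1 C2) C3)) (pt W a)))
      (fun f => Nat.mul R (vn D1 D2 D3 (Nat.mul 32768 (Nat.add (Nat.add C1 C2) C3))
        (pt (tk F) f))) W (tk F) (md K) fs ds L
      (Nat.mul 39614081257132168796771975167 (on (Nat.add nf nd))) C0
      (fun p => vn D1 D2 D3 (Nat.mul 32768 (Nat.add (Nat.add C1 C2) C3)) p)
      (fun p => vc D1 D2 D3 (Nat.mul 33554432 (Nat.add (Nat.add C1 C2) C3)) p)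
      (fun p => vn C1 C2 C3 (Nat.mul 32768 (Nat.add (Nat.add D1 D2) D3)) p) G := by
    refine ⟨⟨hfac, hbd, (SY.facts hL).2.1, hsub, lenf, lend, hR, hP1, hP2, ?_, cl_rp hn hlen R, ?_,
      fun a => ?_, fun f => ?_, hout, hdead⟩, hn.hC0, ?_, fun p => hn.K0 p,
      fun p => vc_rp hn p, fun p => vp_rp hn p, fun g hg a ha => ?_⟩
    · rw [pk_const, lenf, nmul]
    · refine (hn.hBI.add (hn.hC0.mul (4096 * R))).congr (fun f _ => ?_)
      push_cast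
      ring
    · refine ((hn.K0 (pt W a)).mul P).congr (fun f _ => ?_)
      ring
    · refine ((hn.K0 (pt (tk F) f)).mul R).congr (fun f _ => ?_)
      ring
    · have h1 := Rp.of_pk (hs := fs ++ ds) (fun _ => 39614081257132168796771975167)
      rw [pk_const, ← hlen] at h1
      exact h1.congr (fun _ _ => by norm_num)
    · exact hst.unlit _ ⟨g, hg, a, ha, rfl⟩
  rw [hR] at hcd
  have e1 : (32767 : ℕ) < 2 ^ 18 := by norm_num
  have e2 : (262143 : ℕ) < 2 ^ 18 := by norm_num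
  exact u8_sound (tD_sound hcd.toCd e1) (tD_sound hcd.toCd e2) (tN_sound hcd.toCd)
    (tG_sound hcd J) hn h3

end Pool.Agent.Lib.MP_5e7226_co.C8.TR
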