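import Pool.Agent.Lib.MP_5e7226_co.C8.TY

/-!
# Trees of certificates for symmetric bodies as terms, without Mathlib

The evaluated functions of the certificates for bodies symmetric about the origin, and the trees.
The files with the certificates import only this file.
-/

set_option autoImplicit false

namespace Pool.Agent.Lib.MP_5e7226_co.C8.SD

open TF

/-- distance of two numbers -/
def dif (P Q : Nat) : Nat := Nat.add (Nat.sub P Q) (Nat.sub Q P)

/-- positive part of the value of the normal of `f` at a point -/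
def vp (f : FD) (p : Nat) : Nat := dps f.A1 f.A2 f.A3 f.B1 f.B2 f.B3 p

/-- negative part -/
def vm (f : FD) (p : Nat) : Nat := dps f.B1 f.B2 f.B3 f.A1 f.A2 f.A3 p

/-- the parallelepiped is contained in the half space of the functional -/
def inF (y e1 e2 e3 : Nat) (f : FD) : Bool :=
  Nat.ble (Nat.add (vp f y) (Nat.add (dif (vp f e1) (vm f e1))
    (Nat.add (dif (vp f e2) (vm f e2)) (dif (vp f e3) (vm f e3))))) (Nat.add f.c (vm f y))

/-- the parallelepiped is contained in all half spaces -/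
def inL (y e1 e2 e3 : Nat) : List FD → Bool
  | [] => true
  | f :: l => inF y e1 e2 e3 f && inL y e1 e2 e3 l

/-- the origin -/
def org : Nat := nat_lit 140739635871744

/-- the absolute value of the determinant -/
def dtm (e1 e2 e3 : Nat) : Nat :=
  (fun f => dif (vp f e1) (vm f e1)) (mkFD (nat_lit 0) org e2 e3)

/-- the values are positive and not too large -/
def okB : List FD → Bool
  | [] => true
  | f :: l => (Nat.blt (nat_lit 0) f.c && Nat.blt f.c (nat_lit 72057594037927936)) && okB l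

/-- 24 bits -/
noncomputable def f24 (S s : Nat) : Nat := Nat.land (Nat.shiftRight S s) (nat_lit 16777215)

/-- three corners are in a shadow -/
noncomputable def shd (Q M1 CS N r1 r2 r3 t1 t2 t3 E1 E2 E3 : Nat) (k : Bool) : Bool :=
  (@Bool.rec (fun _ => Bool) false (@Bool.rec (fun _ => Bool) false k
    (Nat.beq (Nat.land (Nat.land (Nat.land (xh Q CS N r1 t1 E1) (xh Q CS N r2 t2 E2))
      (xh Q CS N r3 t3 E3)) M1) M1))
    (Nat.ble (Nat.lor (Nat.lor (Nat.mul t1 r1) (Nat.mul t2 r2)) (Nat.mul t3 r3))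
      (nat_lit 8796093022207)))

/-- everything beyond the corners is dead by a shadow: 9 bits, three shifts -/
noncomputable def wN (Q nF M1 CS : Nat) (FV : Nat → Nat) (r1 r2 r3 E1 E2 E3 S : Nat) (k : Nat → Bool) :
    Bool :=
  (@Bool.rec (fun _ => Bool) false (shd Q M1 CS (FV (Nat.land S (nat_lit 511))) r1 r2 r3 (f20 S (nat_lit 9))
      (f20 S (nat_lit 29)) (f20 S (nat_lit 49)) E1 E2 E3 (k (Nat.shiftRight S (nat_lit 69))))
    (Nat.ble (Nat.succ (Nat.land S (nat_lit 511))) nF))

/-- subdivision of an edge: the bounds and the packed values of the new corner -/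
noncomputable def sp (b1 b2 E1 E2 al be : Nat) (k : Nat → Nat → Bool) : Bool :=
  (fun b => (@Bool.rec (fun _ => Bool) false (k b (Nat.add (Nat.mul al E1) (Nat.mul be E2))) (Nat.ble b (nat_lit 65536))))
    (Nat.add (Nat.mul al b1) (Nat.mul be b2))

/-- subdivision of the edge `e` (`0`, `1`, other); `ih` is the check of the parts -/
noncomputable def sq (ih : Nat → Nat → Nat → Nat → Nat → Nat → Nat → (Nat → Bool) → Bool) (e : Nat)
    (b1 b2 b3 E1 E2 E3 al be S : Nat) (k : Nat → Bool) : Bool :=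
  @Nat.rec (fun _ => Bool)
    (sp b1 b2 E1 E2 al be (fun b m => ih b1 b b3 E1 m E3 S (fun S' => ih b b2 b3 m E2 E3 S' k)))
    (fun t _ => @Nat.rec (fun _ => Bool)
      (sp b2 b3 E2 E3 al be (fun b m => ih b1 b2 b E1 E2 m S (fun S' => ih b1 b b3 E1 m E3 S' k)))
      (fun _ _ =>
        (sp b3 b1 E3 E1 al be (fun b m => ih b1 b2 b E1 E2 m S
          (fun S' => ih b b2 b3 m E2 E3 S' k)))) t) e

/-- the tree of cones; `TD`, `TX`, `TN` are the checks of the terminal cones -/
noncomputable def gc (TD TX TN : Nat → Nat → Nat → Nat → (Nat → Bool) → Bool) (n : Nat) :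
    Nat → Nat → Nat → Nat → Nat → Nat → Nat → (Nat → Bool) → Bool :=
  @Nat.rec (fun _ => Nat → Nat → Nat → Nat → Nat → Nat → Nat → (Nat → Bool) → Bool)
    (fun _ _ _ _ _ _ _ _ => false)
    (fun _ ih b1 b2 b3 E1 E2 E3 S k =>
      @Nat.rec (fun _ => Bool)
        (TD E1 E2 E3 (Nat.shiftRight S (nat_lit 3)) k)
        (fun t _ => @Nat.rec (fun _ => Bool)
          (TN E1 E2 E3 (Nat.shiftRight S (nat_lit 3)) k)
          (fun t _ => @Nat.rec (fun _ => Bool)
            (@Nat.rec (fun _ => Bool)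
              (TX E1 E2 E3 (Nat.shiftRight S (nat_lit 5)) k)
              (fun e _ => sq ih e b1 b2 b3 E1 E2 E3 (cs S (nat_lit 5) (nat_lit 2047))
                (cs S (nat_lit 16) (nat_lit 2047)) (Nat.shiftRight S (nat_lit 27)) k)
              (Nat.land (Nat.shiftRight S (nat_lit 3)) (nat_lit 3)))
            (fun e _ => sq ih e b1 b2 b3 E1 E2 E3 (cs S (nat_lit 3) (nat_lit 15))
                (cs S (nat_lit 7) (nat_lit 15)) (Nat.shiftRight S (nat_lit 11)) k)
            t) t)
        (Nat.land S (nat_lit 7)))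
    n

/-- one octant -/
noncomputable def oc (TD TX TN : Nat → Nat → Nat → Nat → (Nat → Bool) → Bool) (E1 E2 E3 S : Nat) : Bool :=
  gc TD TX TN (nat_lit 64) (nat_lit 1) (nat_lit 1) (nat_lit 1) E1 E2 E3 S (fun _ => true)

/-- eight octants -/
noncomputable def o8 (TD TX TN : Nat → Nat → Nat → Nat → (Nat → Bool) → Bool)
    (C1 C2 C3 D1 D2 D3 S0 S1 S2 S3 S4 S5 S6 S7 : Nat) : Bool :=
  (@Bool.rec (fun _ => Bool) false (@Bool.rec (fun _ => Bool) false (@Bool.rec (fun _ => Bool) false (@Bool.rec (fun _ => Bool) false (@Bool.rec (fun _ => Bool) false (@Bool.rec (fun _ => Bool) false (@Bool.rec (fun _ => Bool) false (oc TD TX TN D1 D2 D3 S7)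
    (oc TD TX TN C1 D2 D3 S6))
    (oc TD TX TN D1 C2 D3 S5))
    (oc TD TX TN C1 C2 D3 S4))
    (oc TD TX TN D1 D2 C3 S3))
    (oc TD TX TN C1 D2 C3 S2))
    (oc TD TX TN D1 C2 C3 S1))
    (oc TD TX TN C1 C2 C3 S0))

/-- three corners in the box, `MB` has the sign bits of the functionals of the box -/
noncomputable def bx3 (CL MB r1 r2 r3 E1 E2 E3 : Nat) : Bool :=
  Nat.beq (Nat.land (Nat.lor (Nat.lor (Nat.add CL (Nat.mul r1 E1))
    (Nat.add CL (Nat.mul r2 E2))) (Nat.add CL (Nat.mul r3 E3))) MB) (nat_lit 0)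

/-- a terminal cone with the radii `r1 r2 r3` and a triple of 6 bits -/
noncomputable def zE (nf nd MB CL E1 E2 E3 S : Nat) (k : Nat → Bool) (r1 r2 r3 : Nat) : Bool :=
  @Bool.rec (fun _ => Bool) false (@Bool.rec (fun _ => Bool) false
    (wD nf nd CL r1 r2 r3 E1 E2 E3 S k)
    (bx3 CL MB r1 r2 r3 E1 E2 E3))
    (Nat.ble (Nat.lor (Nat.lor r1 r2) r3) (nat_lit 16777215))

/-- a terminal cone with the radii of the functional at the place `H` -/
noncomputable def zH (nf nd MB BI CL E1 E2 E3 S : Nat) (k : Nat → Bool) (H Rc : Nat) : Bool :=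
  zE nf nd MB CL E1 E2 E3 S k (rd BI H Rc E1) (rd BI H Rc E2) (rd BI H Rc E3)

/-- terminal cone, triple: 6 bits -/
noncomputable def zD (nf nd MB BI C0 CL E1 E2 E3 S : Nat) (k : Nat → Bool) : Bool :=
  (fun H => zH nf nd MB BI CL E1 E2 E3 S k H
    (Nat.sub (Nat.mul (nat_lit 4096) (Nat.land (Nat.shiftRight C0 H)
      (nat_lit 79228162514264337593543950335))) (nat_lit 1)))
    (Nat.mul (nat_lit 96) (Nat.add nf (f6 S (nat_lit 0))))

/-- terminal cone, shadow: three radii of 24 bits, 9 bits point, three shifts of 20 bits -/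
noncomputable def zN (nF M1 MB CL CS : Nat) (FV : Nat → Nat) (E1 E2 E3 S : Nat) (k : Nat → Bool) : Bool :=
  (fun r1 r2 r3 =>
    (@Bool.rec (fun _ => Bool) false (@Bool.rec (fun _ => Bool) false
      (@Bool.rec (fun _ => Bool) false (@Bool.rec (fun _ => Bool) false
      (wN (nat_lit 4096) nF M1 CS FV r1 r2 r3 E1 E2 E3 (Nat.shiftRight S (nat_lit 72)) k)
      (bx3 CL MB r1 r2 r3 E1 E2 E3))
      (Nat.ble (nat_lit 1) r1))
      (Nat.ble (nat_lit 1) r2))
      (Nat.ble (nat_lit 1) r3)))
    (f24 S (nat_lit 0)) (f24 S (nat_lit 24)) (f24 S (nat_lit 48))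

/-- the checks with the packed numbers; `nh` is the number of functionals -/
noncomputable def z3 (nK nF nf nd nh FC DC TK TF M1 MB BI C0 C1 C2 C3 D1 D2 D3 S0 S1 S2 S3 S4 S5
    S6 S7 : Nat) : Bool :=
  (fun K0 CC CL CS => (fun VV =>
    (@Bool.rec (fun _ => Bool) false (@Bool.rec (fun _ => Bool) false
      (@Bool.rec (fun _ => Bool) false (@Bool.rec (fun _ => Bool) false
      (@Bool.rec (fun _ => Bool) false
      (o8 (fun E1 E2 E3 => zD nf nd MB BI C0 CL E1 E2 E3)
        (fun _ _ _ _ _ => false)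
        (fun E1 E2 E3 => zN nF M1 MB CL CS
          (fun f => Nat.mul (nat_lit 4096) (VV (pt TF f))) E1 E2 E3)
        C1 C2 C3 D1 D2 D3 S0 S1 S2 S3 S4 S5 S6 S7)
      (Nat.beq (Nat.land CC BI) BI))
      (fc FC nf nK (fun i => Nat.add CC (VV (pt TK i))) nf FC))
      (dc nK nd DC))
      (Nat.ble (nat_lit 1) nf))
      (Nat.ble (nat_lit 1) nK)))
    (fun p => vn D1 D2 D3 K0 p))
    (Nat.mul (nat_lit 32768) (Nat.add (Nat.add C1 C2) C3))
    (Nat.add C0 (Nat.mul (nat_lit 39614081257132168796771975167) (on nh)))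
    (Nat.add BI (Nat.mul (nat_lit 4096)
      (Nat.sub (Nat.shiftLeft (nat_lit 1) (Nat.mul (nat_lit 96) nh)) C0)))
    (Nat.add BI (Nat.mul (Nat.mul (nat_lit 4096) (nat_lit 4096)) C0))

/-- the packed numbers of a list of functionals -/
noncomputable def z2 (nK nF nf nd nh FC DC TK TF : Nat) (hs : List FD)
    (S0 S1 S2 S3 S4 S5 S6 S7 : Nat) : Bool :=
  (fun MM A1 A2 A3 B1 B2 B3 =>
    z3 nK nF nf nd nh FC DC TK TF
      (Nat.mul (nat_lit 39614081257132168796771975168) (on nf))
      (Nat.shiftLeft (Nat.mul (nat_lit 39614081257132168796771975168) (on (nat_lit 6)))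
        (Nat.mul (nat_lit 96) (Nat.add nf nd)))
      (Nat.mul (nat_lit 39614081257132168796771975168) (on nh)) (pf FD.c hs)
      (Nat.add A1 (Nat.sub MM B1)) (Nat.add A2 (Nat.sub MM B2)) (Nat.add A3 (Nat.sub MM B3))
      (Nat.add B1 (Nat.sub MM A1)) (Nat.add B2 (Nat.sub MM A2)) (Nat.add B3 (Nat.sub MM A3))
      S0 S1 S2 S3 S4 S5 S6 S7)
    (Nat.shiftLeft (nat_lit 1) (Nat.mul (nat_lit 96) nh))
    (pf FD.A1 hs) (pf FD.A2 hs) (pf FD.A3 hs) (pf FD.B1 hs) (pf FD.B2 hs) (pf FD.B3 hs)

/-- the checks of the box: it is not degenerate, and the parallelepiped is contained in the hull -/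
noncomputable def z1 (nK nF nf nd FC DC TK TF y e1 e2 e3 T : Nat) (fs ds bs : List FD)
    (S0 S1 S2 S3 S4 S5 S6 S7 : Nat) : Bool :=
  (@Bool.rec (fun _ => Bool) false (@Bool.rec (fun _ => Bool) false
    (@Bool.rec (fun _ => Bool) false
    (z2 nK nF nf nd (Nat.add (Nat.add nf nd) (nat_lit 6)) FC DC TK TF (ap (ap fs ds) bs)
      S0 S1 S2 S3 S4 S5 S6 S7)
    (inL y e1 e2 e3 fs))
    (okB bs))
    (Nat.ble (nat_lit 1) T))

/-- a functional of the box with the normal `q × r` and the value `(25 T) / 20` -/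
def bxf (T q r : Nat) : FD :=
  (fun f => ⟨f.p, f.q, f.r, f.A1, f.A2, f.A3, f.B1, f.B2, f.B3,
    Nat.div (Nat.mul (nat_lit 25) T) (nat_lit 20)⟩) (mkFD (nat_lit 0) org q r)

/-- the functionals of the box -/
def boxL (T e1 e2 e3 : Nat) : List FD :=
  [bxf T e2 e3, bxf T e3 e2, bxf T e3 e1, bxf T e1 e3, bxf T e1 e2, bxf T e2 e1]

/-- the packed points are opposite -/
noncomputable def ng (p r : Nat) : Bool :=
  @Bool.rec (fun _ => Bool) false (@Bool.rec (fun _ => Bool) false
    (Nat.beq (Nat.add (ox p) (ox r)) (nat_lit 65536))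
    (Nat.beq (Nat.add (oy p) (oy r)) (nat_lit 65536)))
    (Nat.beq (Nat.add (oz p) (oz r)) (nat_lit 65536))

/-- the triples of the certificate are pairs -/
noncomputable def sc (TK n : Nat) : Nat → Bool :=
  @Nat.rec (fun _ => Nat → Bool) (fun _ => true)
    (fun _ ih S => @Bool.rec (fun _ => Bool) false (ih (Nat.shiftRight S (nat_lit 21)))
      (ng (pt TK (i7 S (nat_lit 0))) (pt TK (i7 S (nat_lit 14))))) n

/-- the check of the triples of a leaf -/
noncomputable def sl (K : List Nat) (H : Nat) : Bool :=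
  sc (tk K) (Nat.land (Nat.shiftRight H (nat_lit 3)) (nat_lit 63))
    (Nat.shiftRight (Nat.shiftRight H (Nat.add (nat_lit 32) (Nat.mul (nat_lit 2)
      (Nat.land (Nat.shiftRight H (nat_lit 23)) (nat_lit 511)))))
      (Nat.mul (nat_lit 7) (Nat.land (Nat.shiftRight H (nat_lit 15)) (nat_lit 255))))

/-- a leaf -/
noncomputable def lm (n : Nat) (K F : List Nat) (H W V S : Nat) : Bool :=
  @Bool.rec (fun _ => Bool) false (TX.lm n K F H W V S) (sl K H)

/-- the triples of the short form are pairs; an index has `w` bits, the mask is `m` -/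
noncomputable def scy (TK w m n : Nat) : Nat → Bool :=
  @Nat.rec (fun _ => Nat → Bool) (fun _ => true)
    (fun _ ih S => @Bool.rec (fun _ => Bool) false
      (ih (Nat.shiftRight S (Nat.mul (nat_lit 3) w)))
      (ng (pt TK (Nat.land S m)) (pt TK (Nat.land (Nat.shiftRight S
        (Nat.mul (nat_lit 2) w)) m)))) n

/-- the check of the triples of a leaf in the short form -/
noncomputable def sly (K : List Nat) (H : Nat) : Bool :=
  (fun nh kw => scy (tk K) kw (Nat.sub (Nat.shiftLeft (nat_lit 1) kw) (nat_lit 1))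
      (Nat.land (Nat.shiftRight H (nat_lit 3)) (nat_lit 63))
      (Nat.shiftRight (Nat.shiftRight (Nat.shiftRight H (nat_lit 41))
        (Nat.sub (Nat.mul (nat_lit 4) nh) (nat_lit 10))) (Nat.mul kw nh)))
    (Nat.land (Nat.shiftRight H (nat_lit 14)) (nat_lit 63))
    (Nat.land (Nat.shiftRight H (nat_lit 28)) (nat_lit 7))

/-- a leaf in the short form -/
noncomputable def my (n a : Nat) (K F : List Nat) (H : Nat) : Bool :=
  @Bool.rec (fun _ => Bool) false (TY.lm n a K F H) (sly K H)

/-- a leaf near a parallelepiped with the centre `0` and the half edges `e1 e2 e3` -/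
noncomputable def zs : List Nat → List Nat → Nat → Nat → Nat → Nat → Nat → Nat → Nat → Nat → Nat → Nat → Nat → Nat → Bool :=
  fun K F H e1 e2 e3 S0 S1 S2 S3 S4 S5 S6 S7 =>
  (fun nf nd TK T => (fun FC DC =>
    @Bool.rec (fun _ => Bool) false
    (z1 (ln K) (ln F) nf nd FC DC TK (tk F) org e1 e2 e3 T
      (fl TK (nat_lit 0) (nat_lit 45) nf FC)
      (fl TK (nat_lit 17179869184) (nat_lit 21) nd DC)
      (boxL T e1 e2 e3) S0 S1 S2 S3 S4 S5 S6 S7) (sc TK nd DC))
    (Nat.shiftRight H (nat_lit 15))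
    (Nat.shiftRight H (Nat.add (nat_lit 15) (Nat.mul (nat_lit 45) nf))))
    (Nat.land H (nat_lit 255)) (Nat.land (Nat.shiftRight H (nat_lit 8)) (nat_lit 127)) (tk K)
    (dtm e1 e2 e3)

/-- a cover with cones, the triples are pairs -/
noncomputable def cuS (n : Nat) (K F : List Nat) (G : List UG) (J : List KG)
    (H W S0 S1 S2 S3 S4 S5 S6 S7 : Nat) : Bool :=
  @Bool.rec (fun _ => Bool) false (TR.cu n K F G J H W S0 S1 S2 S3 S4 S5 S6 S7)
    (sc (tk K) (Nat.land (Nat.shiftRight H (nat_lit 8)) (nat_lit 127))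
      (Nat.shiftRight H (Nat.add (nat_lit 18) (Nat.mul (nat_lit 45) (Nat.land H (nat_lit 255))))))

/-- a state: the points which belong to the body, the points which do not -/
structure SP where
  K : List Nat
  F : List Nat

/-- the state `s` is weaker -/
noncomputable def rb (K F : List Nat) (s : SP) : Bool :=
  @Bool.rec (fun _ => Bool) false (TR.sb F s.F) (TR.sb K s.K)

/-- two opposite vertices of the octahedron -/
def rt2 : List Nat := [140739635873792, 140739635869696]

/-- two opposite vertices of the octahedron are in the list -/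
def has2 (K : List Nat) : Bool := rt2.all fun p => K.any fun q => Nat.beq p q

/-- the state has a tree of accepted certificates -/
inductive Cs : List Nat → List Nat → Prop
  /-- a query: a pair of opposite points -/
  | nd {K F : List Nat} (y y2 : Nat) (h : ng y y2 = true) (a : Cs (y2 :: y :: K) F)
      (b : Cs K (y2 :: y :: F)) : Cs K F
  /-- a leaf with a surface -/
  | lv {K F : List Nat} (H W V S : Nat) (h : lm 6 K F H W V S = true) : Cs K F
  /-- a leaf with a surface, short form -/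
  | ly {K F : List Nat} (H : Nat) (h : my 6 3 K F H = true) : Cs K F
  /-- a leaf near a parallelepiped -/
  | lz {K F : List Nat} (H e1 e2 e3 S0 S1 S2 S3 S4 S5 S6 S7 : Nat)
      (h : zs K F H e1 e2 e3 S0 S1 S2 S3 S4 S5 S6 S7 = true) : Cs K F
  /-- a leaf with cones -/
  | lu {K F : List Nat} (H W S0 S1 S2 S3 S4 S5 S6 S7 : Nat)
      (h : cuS 6 K F [] [] H W S0 S1 S2 S3 S4 S5 S6 S7 = true) : Cs K F
  /-- a stronger state which is done -/
  | rs {K F : List Nat} (s : SP) (t : Cs s.K s.F) (h2 : has2 s.K = true)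
      (h : rb K F s = true) : Cs K F

/-- the state `s` is done -/
def Ds (s : SP) : Prop := Cs s.K s.F ∧ has2 s.K = true

/-- the end -/
theorem fin {s : SP} (t : Cs s.K s.F) (h : has2 s.K = true) : Ds s := ⟨t, h⟩

/-- a state which is done -/
theorem rf {K F : List Nat} {s : SP} (g : Ds s) (h : rb K F s = true) : Cs K F :=
  Cs.rs s g.1 g.2 h

end Pool.Agent.Lib.MP_5e7226_co.C8.SD
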