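import Pool.Agent.Lib.MP_5e7226_co.C8.SY.DQ0S
import Pool.Agent.Lib.MP_5e7226_co.C8.SY.Terms
import Pool.Agent.Lib.MP_5e7226_co.C8.TYM

/-!
# Trees of certificates for symmetric bodies as terms: soundness
-/

set_option autoImplicit false

open Set

namespace Pool.Agent.Lib.MP_5e7226_co.C8.SD

open GB C8.TF TP TM

/-! ### the evaluated functions agree with those of the library -/

lemma inL_eq (y e1 e2 e3 : ℕ) (l : List FD) : SD.inL y e1 e2 e3 l = T7.inL y e1 e2 e3 l := by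
  induction l with
  | nil => rfl
  | cons f l ih =>
    show (SD.inF y e1 e2 e3 f && SD.inL y e1 e2 e3 l) =
      (T7.inF y e1 e2 e3 f && T7.inL y e1 e2 e3 l)
    rw [ih]
    rfl

lemma okB_eq (l : List FD) : SD.okB l = T7.okB l := by
  induction l with
  | nil => rfl
  | cons f l ih =>
    show ((Nat.blt 0 f.c && Nat.blt f.c 72057594037927936) && SD.okB l) =
      ((Nat.blt 0 f.c && Nat.blt f.c 72057594037927936) && T7.okB l)
    rw [ih]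

lemma sp_eq : SD.sp = C8.TF.sp := rfl

lemma sq_eq : SD.sq = C8.TF.sq := by
  unfold SD.sq C8.TF.sq
  rw [sp_eq]

lemma gc_eq : SD.gc = C8.TF.gc := by
  unfold SD.gc C8.TF.gc
  rw [sq_eq]

lemma oc_eq : SD.oc = C8.TF.oc := by
  unfold SD.oc C8.TF.oc
  rw [gc_eq]

lemma o8_eq : SD.o8 = C8.TF.o8 := by
  unfold SD.o8 C8.TF.o8
  rw [oc_eq]

lemma f24_eq : SD.f24 = C8.TF.f24 := rfl

lemma shd_eq : SD.shd = C8.TF.shd := rfl

lemma wN_eq : SD.wN = C8.TF.wN := rfl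

lemma bx3_eq : SD.bx3 = C8.TF.bx3 := rfl

lemma zE_eq : SD.zE = C8.TF.zE := by
  unfold SD.zE C8.TF.zE
  rw [bx3_eq]

lemma zH_eq : SD.zH = C8.TF.zH := by
  unfold SD.zH C8.TF.zH
  rw [zE_eq]

lemma zD_eq : SD.zD = C8.TF.zD := by
  unfold SD.zD C8.TF.zD
  rw [zH_eq]

lemma zN_eq : SD.zN = C8.TF.zN := by
  unfold SD.zN C8.TF.zN
  rw [wN_eq, bx3_eq, f24_eq]

lemma z3_eq : SD.z3 = C8.TF.z3 := by
  unfold SD.z3 C8.TF.z3
  rw [o8_eq, zD_eq, zN_eq]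

lemma z2_eq : SD.z2 = C8.TF.z2 := by
  unfold SD.z2 C8.TF.z2
  rw [z3_eq]

lemma z1_eq (nK nF nf nd FC DC TK T' y e1 e2 e3 T : ℕ) (fs ds bs : List FD)
    (S0 S1 S2 S3 S4 S5 S6 S7 : ℕ) :
    SD.z1 nK nF nf nd FC DC TK T' y e1 e2 e3 T fs ds bs S0 S1 S2 S3 S4 S5 S6 S7 =
      C8.TF.z1 nK nF nf nd FC DC TK T' y e1 e2 e3 T fs ds bs S0 S1 S2 S3 S4 S5 S6 S7 := by
  unfold SD.z1 C8.TF.z1
  rw [inL_eq, okB_eq, z2_eq]

lemma ng_eq : SD.ng = SY.ng := rfl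

lemma sc_eq : SD.sc = SY.sc := rfl

lemma lm_eq : SD.lm = SY.lm := rfl

lemma cuS_eq : SD.cuS = TR.cuS := rfl

lemma boxL_eq : SD.boxL = SY.boxL := rfl

lemma zs_eq (K F : List ℕ) (H e1 e2 e3 S0 S1 S2 S3 S4 S5 S6 S7 : ℕ) :
    SD.zs K F H e1 e2 e3 S0 S1 S2 S3 S4 S5 S6 S7 = SY.zs K F H e1 e2 e3 S0 S1 S2 S3 S4 S5 S6 S7 := by
  unfold SD.zs SY.zs
  simp only [z1_eq]
  rfl

/-! ### a leaf in the short form -/

/-- the triples -/
theorem dly_sound {K : List ℕ} {w m : ℕ} : ∀ (n S : ℕ) (u : Ac) (k : Ac → Bool),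
    TY.dl (tk K) w m n S u k = true → scy (tk K) w m n S = true →
      ∃ (ds : List FD) (v : Ac), k v = true ∧ ds.length = n ∧
      (∀ hs, Rs hs u → Rs (ds ++ hs) v) ∧ ∀ h ∈ ds, 0 < h.c ∧ FB h ∧
        ∃ p ∈ md K, ∃ q ∈ md K, ∃ r ∈ md K, h = mkFD 17179869184 p q r ∧ SY.ng p r = true := by
  intro n
  induction n with
  | zero =>
    intro S u k h _
    exact ⟨[], u, h, rfl, fun hs h => h, by simp⟩
  | succ n ih =>
    intro S u k h hs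
    obtain ⟨hs, hng⟩ := br hs
    obtain ⟨i, hi⟩ : ∃ i, i = Nat.land S m := ⟨_, rfl⟩
    obtain ⟨j, hj⟩ : ∃ j, j = Nat.land (Nat.shiftRight S w) m := ⟨_, rfl⟩
    obtain ⟨l, hl⟩ : ∃ l, l = Nat.land (Nat.shiftRight S (Nat.mul 2 w)) m := ⟨_, rfl⟩
    obtain ⟨p, hp⟩ : ∃ p, p = pt (tk K) i := ⟨_, rfl⟩
    obtain ⟨q, hq⟩ : ∃ q, q = pt (tk K) j := ⟨_, rfl⟩
    obtain ⟨r, hr⟩ : ∃ r, r = pt (tk K) l := ⟨_, rfl⟩
    have hng' : SY.ng p r = true := by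
      rw [hp, hr, hi, hl]
      exact hng
    obtain ⟨x, hx⟩ : ∃ x, x = Nat.mul (Nat.mul p q) r := ⟨_, rfl⟩
    have h1 : @Nat.rec (fun _ => Bool) false
        (fun _ _ => fn 17179869184 (fA p) (fB p) (fD p) (fA q) (fB r) u
          (fun u => TY.dl (tk K) w m n (Nat.shiftRight S (Nat.mul 3 w)) u k)) x = true := by
      rw [hx, hp, hq, hr, hi, hj, hl]
      exact h
    cases x with
    | zero => exact absurd h1 Bool.false_ne_true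
    | succ x =>
      have hne : p * q * r ≠ 0 := by
        have : p * q * r = x + 1 := hx.symm
        omega
      have hr0 : r ≠ 0 := fun h => hne (by rw [h, Nat.mul_zero])
      have hq0 : q ≠ 0 := fun h => hne (by rw [h, Nat.mul_zero, Nat.zero_mul])
      have hp0 : p ≠ 0 := fun h => hne (by rw [h, Nat.zero_mul, Nat.zero_mul])
      have hp2 := fun h => (pt_ne (K := K) (i := i) h).1
      have hq2 := fun h => (pt_ne (K := K) (i := j) h).1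
      have hr2 := fun h => (pt_ne (K := K) (i := l) h).1
      rw [← hp] at hp2
      rw [← hq] at hq2
      rw [← hr] at hr2
      obtain ⟨hc, w', h2, h3⟩ := fn_sound h1
      obtain ⟨ds, v, h4, h5, h6, h7⟩ := ih _ _ _ h2 hs
      refine ⟨ds ++ [mkFD 17179869184 p q r], v, h4, by rw [List.length_append, h5]; rfl,
        fun hs hh => ?_, fun f hf => ?_⟩
      · rw [List.append_assoc]
        exact h6 _ (h3 _ hh)
      · rcases List.mem_append.1 hf with hf | hf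
        · exact h7 f hf
        · rw [List.mem_singleton] at hf
          subst hf
          exact ⟨hc, mkFD_bd (by norm_num), p, hp2 hp0, q, hq2 hq0, r, hr2 hr0, rfl, hng'⟩

/-- soundness of a leaf in the short form -/
theorem my_sound {n a : ℕ} (hn : 0 < n) {K F : List ℕ} {H : ℕ} (h : my n a K F H = true) :
    ∃ W, ∀ L ∈ SY.symCls 1024, KS K ⊆ L → (∀ x ∈ KS F, x ∉ L) →
      ∀ x ∈ L, Phi (Wf n (Wl n W)) (JQ []) L x := by
  obtain ⟨h, hsc⟩ := br h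
  obtain ⟨nd, hnd⟩ : ∃ nd, nd = Nat.land (Nat.shiftRight H 3) 63 := ⟨_, rfl⟩
  obtain ⟨nu, hnu⟩ : ∃ nu, nu = Nat.land (Nat.shiftRight H 9) 31 := ⟨_, rfl⟩
  obtain ⟨nh, hnh⟩ : ∃ nh, nh = Nat.land (Nat.shiftRight H 14) 63 := ⟨_, rfl⟩
  obtain ⟨nv, hnv⟩ : ∃ nv, nv = Nat.land (Nat.shiftRight H 20) 255 := ⟨_, rfl⟩
  obtain ⟨kw, hkw⟩ : ∃ kw, kw = Nat.land (Nat.shiftRight H 28) 7 := ⟨_, rfl⟩
  obtain ⟨fw, hfw⟩ : ∃ fw, fw = Nat.land (Nat.shiftRight H 31) 15 := ⟨_, rfl⟩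
  obtain ⟨ku, hku⟩ : ∃ ku, ku = Nat.land (Nat.shiftRight H 35) 7 := ⟨_, rfl⟩
  obtain ⟨gw, hgw⟩ : ∃ gw, gw = Nat.land (Nat.shiftRight H 38) 7 := ⟨_, rfl⟩
  obtain ⟨e, he⟩ : ∃ e, e = Nat.land H 7 := ⟨_, rfl⟩
  obtain ⟨mk, hmk⟩ : ∃ mk, mk = Nat.sub (Nat.shiftLeft 1 kw) 1 := ⟨_, rfl⟩
  obtain ⟨mf, hmf⟩ : ∃ mf, mf = Nat.sub (Nat.shiftLeft 1 fw) 1 := ⟨_, rfl⟩
  obtain ⟨ww, hww⟩ : ∃ ww, ww = Nat.sub 16 gw := ⟨_, rfl⟩
  obtain ⟨SO, hSO⟩ : ∃ SO, SO = Nat.shiftRight H 41 := ⟨_, rfl⟩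
  obtain ⟨SH, hSH⟩ : ∃ SH, SH = Nat.shiftRight SO (Nat.sub (Nat.mul 4 nh) 10) := ⟨_, rfl⟩
  obtain ⟨SD, hSD⟩ : ∃ SD, SD = Nat.shiftRight SH (Nat.mul kw nh) := ⟨_, rfl⟩
  obtain ⟨SU, hSU⟩ : ∃ SU, SU = Nat.shiftRight SD (Nat.mul (Nat.mul 3 kw) nd) := ⟨_, rfl⟩
  have h0 : TY.m1 n a e nd nu nh nv kw mk fw mf ku gw ww (tk K) (tk F) SO SH SD SU = true := by
    rw [hSU, hSD, hSH, hSO, hww, hmf, hmk, he, hgw, hku, hfw, hkw, hnv, hnh, hnu, hnd]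
    exact h
  have hsc' : scy (tk K) kw mk nd SD = true := by
    rw [hSD, hSH, hSO, hmk, hkw, hnh, hnd]
    exact hsc
  have he7 : e ≤ 7 := by
    rw [he]
    exact land_le _ _
  clear h hsc hnd hnu hnh hnv hkw hfw hku hgw hmk hmf hww hSO hSH hSD hSU he
  obtain ⟨SW, hSW⟩ : ∃ SW, SW = Nat.shiftRight SU (Nat.mul fw (Nat.succ nu)) := ⟨_, rfl⟩
  obtain ⟨SV, hSV⟩ : ∃ SV, SV = Nat.shiftRight SW (Nat.mul (Nat.mul 3 n) ww) := ⟨_, rfl⟩
  have h1 : TY.dl (tk K) kw mk nd SD (Ac.mk 0 0 0 0 0) (fun u => TY.hv (tk K) kw mk nh SH Fr.e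
      (fun Q => TY.f0 Ac ht (TY.m2 n a e nd nu SU (tk F) fw mf ku gw ww SW SV nv)
        (Nat.sub (Nat.add nh nh) 5) SO Q u)) = true := by
    rw [hSV, hSW]
    exact h0
  clear h0 hSW hSV
  obtain ⟨W, hW⟩ := TY.ex_W n (fun b => TY.pw gw ww (Nat.sub (Nat.shiftLeft 1 ww) 1)
    (SW / 2 ^ (Nat.mul 3 ww * b))) (fun b => TY.pw_lt _ _ _ _)
  refine ⟨W, fun L hL hKL hFL => ?_⟩
  obtain ⟨ds, u1, h2, hdl, hd1, hd2⟩ := dly_sound nd SD _ _ h1 hsc'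
  obtain ⟨Q', h3, hq⟩ := TY.hv_sound nh SH Fr.e _ h2
  obtain ⟨l, hl⟩ := hq ⟨[], AV_e _⟩
  obtain ⟨fs, u2, h4, hfne, hf1, hf2, hmem, hint, hzero⟩ := TY.hull_sound hl h3
  have hr : Rs (fs ++ (ds ++ [])) u2 := hf1 _ (hd1 [] rfl)
  rw [List.append_nil] at hr
  have hbd : ∀ h ∈ fs ++ ds, FB h := by
    intro h hh
    rcases List.mem_append.1 hh with hh | hh
    · exact (hf2 h hh).2
    · exact (hd2 h hh).2.1
  have hsub : KS (md K) ⊆ L := by rw [KS_md]; exact hKL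
  have hfa : Fa (md K) fs := ⟨fun h hh => (hf2 h hh).2, hmem, hint, hzero⟩
  have hdead : ∀ h ∈ ds, Dead L {z | (h.c : ℝ) ≤ nr h ⬝ᵥ z} := by
    intro h hh
    obtain ⟨hp, _, p, h1, q, h2, r, h4, rfl, h5⟩ := hd2 h hh
    exact SY.dead_ng hL (hsub ⟨p, h1, rfl⟩) (hsub ⟨q, h2, rfl⟩) h5 hp
  have hout : ∀ f < F.length, rp (pt (tk F) f) ∉ L := by
    intro f hf
    rw [pt_tk F f hf, rp_mod]
    exact hFL _ ⟨_, List.getElem_mem hf, rfl⟩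
  have hPe : Nat.shiftLeft 1 e = 2 ^ e := by rw [nshl, one_mul]
  have hP2 : Nat.shiftLeft 1 e ≤ 128 := by
    rw [nshl, one_mul]
    calc 2 ^ e ≤ 2 ^ 7 := Nat.pow_le_pow_right (by norm_num) he7
      _ = 128 := by norm_num
  have hnl : Nat.sub (fs ++ ds).length nd = fs.length := by
    rw [List.length_append, hdl, nsub, Nat.add_sub_cancel]
  have hMM : Nat.shiftLeft 1 (Nat.mul 96 (fs ++ ds).length) = 2 ^ (96 * (fs ++ ds).length) := by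
    rw [nshl, nmul, one_mul]
  rw [hr] at h4
  have h5 : TY.m3 n a (Nat.shiftLeft 1 e) e (Nat.sub (fs ++ ds).length nd) nd nu SU (tk F) fw mf ku
      gw ww SW SV nv
      (Nat.mul 39614081257132168796771975168 (on (Nat.sub (fs ++ ds).length nd)))
      (Nat.mul 39614081257132168796771975168 (on (fs ++ ds).length))
      (Nat.shiftLeft 1 (Nat.mul 96 (fs ++ ds).length)) (pk FD.c (fs ++ ds))
      (Nat.add (pk (fun h => h.A1 + 2 ^ 63 - h.B1) (fs ++ ds)) (Nat.sub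
        (Nat.shiftLeft 1 (Nat.mul 96 (fs ++ ds).length))
        (Nat.mul 9223372036854775808 (on (fs ++ ds).length))))
      (Nat.add (pk (fun h => h.A2 + 2 ^ 63 - h.B2) (fs ++ ds)) (Nat.sub
        (Nat.shiftLeft 1 (Nat.mul 96 (fs ++ ds).length))
        (Nat.mul 9223372036854775808 (on (fs ++ ds).length))))
      (Nat.add (pk (fun h => h.A3 + 2 ^ 63 - h.B3) (fs ++ ds)) (Nat.sub
        (Nat.shiftLeft 1 (Nat.mul 96 (fs ++ ds).length))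
        (Nat.mul 9223372036854775808 (on (fs ++ ds).length))))
      (Nat.add (Nat.mul 9223372036854775808 (on (fs ++ ds).length)) (Nat.sub
        (Nat.shiftLeft 1 (Nat.mul 96 (fs ++ ds).length))
        (pk (fun h => h.A1 + 2 ^ 63 - h.B1) (fs ++ ds))))
      (Nat.add (Nat.mul 9223372036854775808 (on (fs ++ ds).length)) (Nat.sub
        (Nat.shiftLeft 1 (Nat.mul 96 (fs ++ ds).length))
        (pk (fun h => h.A2 + 2 ^ 63 - h.B2) (fs ++ ds))))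
      (Nat.add (Nat.mul 9223372036854775808 (on (fs ++ ds).length)) (Nat.sub
        (Nat.shiftLeft 1 (Nat.mul 96 (fs ++ ds).length))
        (pk (fun h => h.A3 + 2 ^ 63 - h.B3) (fs ++ ds)))) = true := h4
  rw [hnl, hMM] at h5
  exact TY.m3_sound hn hPe hP2 rfl hdl.symm rfl hfa hbd ((SY.facts hL).2.1) hsub hdead
    (nu_rs hbd) hout hW h5

/-! ### the trees -/

/-- a state with a tree of accepted certificates -/
theorem Cs.ts {K F : List ℕ} (t : Cs K F) : SY.TS K F := by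
  induction t with
  | nd y y2 h a b iha ihb => exact SY.nds y y2 h iha ihb
  | lv H W V S h => exact SY.lvs H W V S h
  | ly H h =>
    intro _ L hL hK hF
    obtain ⟨W, h1⟩ := my_sound (n := 6) (by norm_num) h
    exact SY.q6_of_phi (h1 L hL hK hF)
  | lz H e1 e2 e3 S0 S1 S2 S3 S4 S5 S6 S7 h =>
    rw [zs_eq] at h
    exact SY.lzs H e1 e2 e3 S0 S1 S2 S3 S4 S5 S6 S7 h
  | lu H W S0 S1 S2 S3 S4 S5 S6 S7 h => exact SY.lus H W S0 S1 S2 S3 S4 S5 S6 S7 h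
  | rs s t h2 h ih =>
    exact SY.rfs (s := ⟨s.K, s.F⟩) (SY.fin (s := ⟨s.K, s.F⟩) ih h2) h

/-- a state which is done -/
theorem Ds.gs {s : SP} (g : Ds s) : SY.GS ⟨s.K, s.F⟩ :=
  SY.fin (s := ⟨s.K, s.F⟩) g.1.ts g.2

end Pool.Agent.Lib.MP_5e7226_co.C8.SD
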