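import Pool.Agent.Lib.MP_5e7226_co.L7.Pol

/-!
# Symmetric bodies: the end theorems

From the illumination theorem for the bodies of the coordinate space which are symmetric about the
origin (six directions, or a parallelepiped) to all symmetric bodies of the three-dimensional
Euclidean space: `sep6_or_cross` (separation of the faces from the centre) and `illum6_or_box`
(illumination).
-/

set_option autoImplicit false

open Set Filter Topology
open scoped InnerProductSpace

namespace Pool.Agent.Lib.MP_5e7226_co.C8.SY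

open GB WL L7

/-- all spaces of dimension three -/
theorem illum6_or_par
    (H : ∀ S : Set E, Convex ℝ S → IsCompact S → (interior S).Nonempty → (∀ x ∈ S, -x ∈ S) →
      Illum S 6 ∨ IsPar S)
    {W : Type*} [NormedAddCommGroup W] [NormedSpace ℝ W] [FiniteDimensional ℝ W]
    (hdim : Module.finrank ℝ W = 3) {L : Set W} (hc : Convex ℝ L) (hk : IsCompact L)
    (hi : (interior L).Nonempty) (hs : ∀ x ∈ L, -x ∈ L) : Illum L 6 ∨ IsParW L := by
  let T : W ≃L[ℝ] E := ContinuousLinearEquiv.ofFinrankEq (by rw [hdim]; simp)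
  have h1 := H (T '' L) (hc.linear_image T.toLinearEquiv.toLinearMap) (hk.image T.continuous) (by
    obtain ⟨x, hx⟩ := hi
    exact ⟨_, T.toHomeomorph.isOpenMap.image_interior_subset L ⟨x, hx, rfl⟩⟩) (by
    rintro _ ⟨x, hx, rfl⟩
    exact ⟨-x, hs x hx, map_neg T x⟩)
  rcases h1 with h1 | h1
  · exact Or.inl (Illum.of_image T h1)
  · right
    have h2 : IsParW (T '' L) := h1
    have h3 := h2.image T.symm.toLinearEquiv 0
    have h4 : (fun y => (0 : W) + T.symm.toLinearEquiv y) '' (T '' L) = L := by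
      rw [← image_comp]
      ext x
      simp
    rwa [h4] at h3

/-- the centre of a parallelepiped which is symmetric about the origin -/
theorem par_center {W : Type*} [AddCommGroup W] [Module ℝ W] {L : Set W} (h : IsParW L)
    (hs : ∀ x ∈ L, -x ∈ L) :
    ∃ e : Fin 3 → W, LinearIndependent ℝ e ∧
      L = {y | ∃ t : Fin 3 → ℝ, (∀ i, |t i| ≤ 1) ∧ y = ∑ i, t i • e i} := by
  obtain ⟨c, e, he, hL⟩ := h
  refine ⟨e, he, ?_⟩
  have m1 : c + ∑ i, (1 : ℝ) • e i ∈ L := by
    rw [hL]
    exact ⟨fun _ => 1, fun _ => by simp, rfl⟩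
  have m2 : c + ∑ i, (-1 : ℝ) • e i ∈ L := by
    rw [hL]
    exact ⟨fun _ => -1, fun _ => by simp, rfl⟩
  have n1 := hs _ m1
  have n2 := hs _ m2
  rw [hL] at n1 n2
  obtain ⟨t, ht, e1⟩ := n1
  obtain ⟨s, hs', e2⟩ := n2
  have k1 : (2 : ℝ) • c = -∑ i, (1 + t i) • e i := by
    have : ∑ i, (1 + t i) • e i = ∑ i, (1 : ℝ) • e i + ∑ i, t i • e i := by
      rw [← Finset.sum_add_distrib]
      exact Finset.sum_congr rfl fun i _ => add_smul _ _ _
    rw [this, two_smul]
    have e3 : c + ∑ i, t i • e i + (c + ∑ i, (1 : ℝ) • e i) = 0 := by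
      rw [← e1]
      abel
    have e4 : c + c = (c + ∑ i, t i • e i + (c + ∑ i, (1 : ℝ) • e i)) -
        (∑ i, (1 : ℝ) • e i + ∑ i, t i • e i) := by abel
    rw [e4, e3, zero_sub]
  have k2 : (2 : ℝ) • c = ∑ i, (1 - s i) • e i := by
    have : ∑ i, (1 - s i) • e i = -(∑ i, (-1 : ℝ) • e i) - ∑ i, s i • e i := by
      rw [← Finset.sum_neg_distrib, ← Finset.sum_sub_distrib]
      refine Finset.sum_congr rfl fun i _ => ?_
      rw [sub_smul, neg_smul, neg_neg]
    rw [this, two_smul]
    have e3 : c + ∑ i, s i • e i + (c + ∑ i, (-1 : ℝ) • e i) = 0 := by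
      rw [← e2]
      abel
    have e4 : c + c = (c + ∑ i, s i • e i + (c + ∑ i, (-1 : ℝ) • e i)) +
        (-(∑ i, (-1 : ℝ) • e i) - ∑ i, s i • e i) := by abel
    rw [e4, e3, zero_add]
  have k3 : ∑ i, ((1 - s i) + (1 + t i)) • e i = 0 := by
    have : ∑ i, ((1 - s i) + (1 + t i)) • e i =
        ∑ i, (1 - s i) • e i + ∑ i, (1 + t i) • e i := by
      rw [← Finset.sum_add_distrib]
      exact Finset.sum_congr rfl fun i _ => add_smul _ _ _
    rw [this, ← k2, k1]
    abel
  have k4 := Fintype.linearIndependent_iff.1 he _ k3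
  have k5 : ∀ i, 1 - s i = 0 := by
    intro i
    have a1 := (abs_le.1 (ht i)).1
    have a2 := (abs_le.1 (hs' i)).2
    have a3 := k4 i
    linarith
  have k6 : (2 : ℝ) • c = 0 := by
    rw [k2]
    exact Finset.sum_eq_zero fun i _ => by rw [k5 i, zero_smul]
  have k7 : c = 0 := (smul_eq_zero.1 k6).resolve_left (by norm_num)
  rw [hL, k7]
  simp only [zero_add]

/-- a cross-body which is symmetric about its centre -/
theorem cross_sym {V : Type*} [AddCommGroup V] [Module ℝ V] (hd : Module.finrank ℝ V = 3)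
    {K : Set V} {v : Fin 3 → V} {t : Fin 3 → ℝ} (hv : LinearIndependent ℝ v) (ht : ∀ k, 0 < t k)
    (hK : K = convexHull ℝ (⋃ k, {v k, -(t k • v k)})) (hs : ∀ x ∈ K, -x ∈ K) (k : Fin 3) :
    t k = 1 := by
  have : FiniteDimensional ℝ V := Module.finite_of_finrank_pos (by rw [hd]; norm_num)
  let b : Module.Basis (Fin 3) ℝ V := basisOfLinearIndependentOfCardEqFinrank hv (by simp [hd])
  have hb : ∀ i, b i = v i := by intro i; simp [b]
  have hcoord : ∀ i j : Fin 3, b.coord i (v j) = if j = i then 1 else 0 := by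
    intro i j
    rw [← hb j, Module.Basis.coord_apply, Module.Basis.repr_self, Finsupp.single_apply]
  have hmem : ∀ j, v j ∈ K := by
    intro j
    rw [hK]
    exact subset_convexHull ℝ _ (mem_iUnion.2 ⟨j, by simp⟩)
  have hmem' : ∀ j, -(t j • v j) ∈ K := by
    intro j
    rw [hK]
    exact subset_convexHull ℝ _ (mem_iUnion.2 ⟨j, by simp⟩)
  have hle : ∀ x ∈ K, b.coord k x ≤ 1 := by
    intro x hx
    rw [hK] at hx
    have hsub : (⋃ j, {v j, -(t j • v j)} : Set V) ⊆ {y | b.coord k y ≤ 1} := by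
      intro y hy
      obtain ⟨j, hj⟩ := mem_iUnion.1 hy
      rcases hj with rfl | hj
      · show b.coord k (v j) ≤ 1
        rw [hcoord]
        split_ifs <;> norm_num
      · rw [mem_singleton_iff] at hj
        subst hj
        show b.coord k (-(t j • v j)) ≤ 1
        rw [map_neg, map_smul, hcoord, smul_eq_mul]
        have := ht j
        split_ifs
        · linarith
        · norm_num
    exact convexHull_min hsub (convex_halfSpace_le (b.coord k).isLinear 1) hx
  have hge : ∀ x ∈ K, -t k ≤ b.coord k x := by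
    intro x hx
    rw [hK] at hx
    have hsub : (⋃ j, {v j, -(t j • v j)} : Set V) ⊆ {y | -t k ≤ b.coord k y} := by
      intro y hy
      obtain ⟨j, hj⟩ := mem_iUnion.1 hy
      have h2 := ht k
      rcases hj with rfl | hj
      · show -t k ≤ b.coord k (v j)
        rw [hcoord]
        split_ifs <;> linarith
      · rw [mem_singleton_iff] at hj
        subst hj
        show -t k ≤ b.coord k (-(t j • v j))
        rw [map_neg, map_smul, hcoord, smul_eq_mul]
        split_ifs with hjk
        · rw [hjk, mul_one]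
        · rw [mul_zero]
          linarith
    exact convexHull_min hsub (convex_halfSpace_ge (b.coord k).isLinear (-t k)) hx
  have h1 := hge _ (hs _ (hmem k))
  have h2 := hle _ (hs _ (hmem' k))
  rw [map_neg, hcoord, if_pos rfl] at h1
  rw [neg_neg, map_smul, hcoord, if_pos rfl, smul_eq_mul, mul_one] at h2
  linarith

/-- the translate of a symmetric body to the origin -/
lemma sym_sub {V : Type*} [AddCommGroup V] [Module ℝ V] {K : Set V} {o : V}
    (hs : ∀ x ∈ K, (2 : ℝ) • o - x ∈ K) : ∀ x ∈ (fun x => x - o) '' K, -x ∈ (fun x => x - o) '' K := by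
  rintro _ ⟨x, hx, rfl⟩
  refine ⟨(2 : ℝ) • o - x, hs x hx, ?_⟩
  show (2 : ℝ) • o - x - o = -(x - o)
  rw [two_smul]
  abel

lemma conv_sub {V : Type*} [AddCommGroup V] [Module ℝ V] {K : Set V} (hconv : Convex ℝ K) (o : V) :
    Convex ℝ ((fun x => x - o) '' K) := by
  rintro _ ⟨x, hx, rfl⟩ _ ⟨y, hy, rfl⟩ a b ha hb hab
  refine ⟨a • x + b • y, hconv hx hy ha hb hab, ?_⟩
  have h1 : o = a • o + b • o := by rw [← add_smul, hab, one_smul]
  show a • x + b • y - o = a • (x - o) + b • (y - o)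
  calc a • x + b • y - o = a • x + b • y - (a • o + b • o) := by rw [← h1]
    _ = a • (x - o) + b • (y - o) := by
      rw [smul_sub, smul_sub]
      abel

/-- Separation: six planes, or the convex hull of three segments with the midpoint `o`. -/
theorem sep6_or_cross
    (H : ∀ S : Set E, Convex ℝ S → IsCompact S → (interior S).Nonempty → (∀ x ∈ S, -x ∈ S) →
      Illum S 6 ∨ IsPar S)
    (K : Set (EuclideanSpace ℝ (Fin 3))) (hconv : Convex ℝ K) (hK : IsCompact K)
    (o : EuclideanSpace ℝ (Fin 3)) (ho : o ∈ interior K) (hs : ∀ x ∈ K, (2 : ℝ) • o - x ∈ K) :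
    (∃ w : Fin 6 → EuclideanSpace ℝ (Fin 3), ∃ b : Fin 6 → ℝ,
      ∀ u x₀ : EuclideanSpace ℝ (Fin 3), u ≠ 0 → x₀ ∈ K →
        (∀ y ∈ K, ⟪u, y⟫_ℝ ≤ ⟪u, x₀⟫_ℝ) →
          ∃ i, ⟪w i, o⟫_ℝ < b i ∧
            ∀ x ∈ K, ⟪u, x⟫_ℝ = ⟪u, x₀⟫_ℝ → b i < ⟪w i, x⟫_ℝ) ∨
    ∃ v : Fin 3 → EuclideanSpace ℝ (Fin 3), LinearIndependent ℝ v ∧
      K = convexHull ℝ (⋃ i, ({o + v i, o - v i} : Set (EuclideanSpace ℝ (Fin 3)))) := by
  set K' : Set (EuclideanSpace ℝ (Fin 3)) := (fun x => x - o) '' K with hK'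
  have hKc : IsCompact K' := hK.image (continuous_id.sub continuous_const)
  have hKv : Convex ℝ K' := conv_sub hconv o
  have hKs : ∀ x ∈ K', -x ∈ K' := sym_sub hs
  have h0 : (0 : EuclideanSpace ℝ (Fin 3)) ∈ interior K' :=
    (Homeomorph.subRight o).isOpenMap.image_interior_subset K ⟨o, ho, by simp⟩
  have hdim : Module.finrank ℝ (EuclideanSpace ℝ (Fin 3)) = 3 := by simp
  have hdual : Module.finrank ℝ (EuclideanSpace ℝ (Fin 3) →L[ℝ] ℝ) = 3 := by
    have h1 := (LinearMap.toContinuousLinearMap (𝕜 := ℝ) (E := EuclideanSpace ℝ (Fin 3))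
      (F' := ℝ)).symm.finrank_eq
    have h2 := Subspace.dual_finrank_eq (K := ℝ) (V := EuclideanSpace ℝ (Fin 3))
    exact h1.trans (h2.trans hdim)
  rcases illum6_or_par H hdual (polarBody_convex K')
    (Metric.isCompact_of_isClosed_isBounded (polarBody_closed K') (polarBody_bounded h0))
    ⟨0, polarBody_zero_mem_interior hKc⟩ (fun f hf x hx => by
      have h1 := hf (-x) (hKs x hx)
      rw [map_neg] at h1
      exact h1) with h | h
  · left
    exact sep_to_hyperplanes hK o (Sep.of_illum_polar hKc h0 h)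
  · right
    have h2 := h.image (InnerProductSpace.toDual ℝ (EuclideanSpace ℝ (Fin 3))).symm.toLinearEquiv 0
    have h3 : (fun y => (0 : EuclideanSpace ℝ (Fin 3)) +
        (InnerProductSpace.toDual ℝ (EuclideanSpace ℝ (Fin 3))).symm.toLinearEquiv y) ''
          polarBody K' = pol K' := by
      ext g
      constructor
      · rintro ⟨f, hf, rfl⟩
        intro x hx
        have := hf x hx
        simpa using this
      · intro hg
        refine ⟨InnerProductSpace.toDual ℝ _ g, ?_, by simp⟩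
        intro x hx
        simpa using hg x hx
    rw [h3] at h2
    obtain ⟨v, t, hv, ht, hKe⟩ := cross_of_par hdim hKc hKv h0 h2
    have ht1 : ∀ k, t k = 1 := cross_sym hdim hv ht hKe hKs
    refine ⟨v, hv, ?_⟩
    have h4 : K = (fun x => o + x) '' K' := by
      rw [hK', Set.image_image]
      simp
    have h5 : (fun x => o + x) '' (convexHull ℝ (⋃ k, {v k, -(t k • v k)})) =
        convexHull ℝ ((fun x => o + x) '' (⋃ k, {v k, -(t k • v k)})) :=
      (AffineEquiv.constVAdd ℝ (EuclideanSpace ℝ (Fin 3)) o).toAffineMap.image_convexHull _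
    have h6 : (fun x => o + x) '' (⋃ k, {v k, -(t k • v k)}) =
        ⋃ k, {o + v k, o - v k} := by
      rw [Set.image_iUnion]
      refine Set.iUnion_congr fun k => ?_
      rw [Set.image_pair, ht1 k, one_smul, ← sub_eq_add_neg]
    rw [h4, hKe, h5, h6]

/-- Illumination: six directions, or a parallelepiped with the centre `c`. -/
theorem illum6_or_box
    (H : ∀ S : Set E, Convex ℝ S → IsCompact S → (interior S).Nonempty → (∀ x ∈ S, -x ∈ S) →
      Illum S 6 ∨ IsPar S)
    (S : Set (EuclideanSpace ℝ (Fin 3))) (hconv : Convex ℝ S) (hS : IsCompact S)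
    (hi : (interior S).Nonempty) (c : EuclideanSpace ℝ (Fin 3))
    (hs : ∀ x ∈ S, (2 : ℝ) • c - x ∈ S) :
    (∃ d : Fin 6 → EuclideanSpace ℝ (Fin 3), ∀ y ∈ S, ∃ i, ∃ t : ℝ, 0 < t ∧
      y + t • d i ∈ interior S) ∨
    ∃ v : Fin 3 → EuclideanSpace ℝ (Fin 3), LinearIndependent ℝ v ∧
      S = {y | ∃ t : Fin 3 → ℝ, (∀ i, |t i| ≤ 1) ∧ y = c + ∑ i, t i • v i} := by
  have hdim : Module.finrank ℝ (EuclideanSpace ℝ (Fin 3)) = 3 := by simp
  have hi' : (interior ((fun x => x - c) '' S)).Nonempty := by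
    obtain ⟨x, hx⟩ := hi
    exact ⟨x - c, (Homeomorph.subRight c).isOpenMap.image_interior_subset S ⟨x, hx, rfl⟩⟩
  rcases illum6_or_par H hdim (conv_sub hconv c) (hS.image (continuous_id.sub continuous_const)) hi'
    (sym_sub hs) with h | h
  · left
    obtain ⟨d, hd⟩ := h
    refine ⟨d, fun y hy => ?_⟩
    obtain ⟨i, t, ht, hit⟩ := hd (y - c) ⟨y, hy, rfl⟩
    refine ⟨i, t, ht, ?_⟩
    have h1 := (Homeomorph.addRight c).isOpenMap.image_interior_subset ((fun x => x - c) '' S)
      ⟨_, hit, rfl⟩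
    have h2 : (Homeomorph.addRight c) '' ((fun x => x - c) '' S) = S := by
      rw [Set.image_image]
      simp
    rw [h2] at h1
    have h3 : (Homeomorph.addRight c) (y - c + t • d i) = y + t • d i := by
      simp only [Homeomorph.coe_addRight]
      abel
    rwa [h3] at h1
  · right
    obtain ⟨e, he, hL⟩ := par_center h (sym_sub hs)
    refine ⟨e, he, ?_⟩
    ext y
    constructor
    · intro hy
      have h1 : y - c ∈ (fun x => x - c) '' S := ⟨y, hy, rfl⟩
      rw [hL] at h1
      obtain ⟨t, ht, e1⟩ := h1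
      exact ⟨t, ht, by rw [← e1]; abel⟩
    · rintro ⟨t, ht, rfl⟩
      have h1 : ∑ i, t i • e i ∈ (fun x => x - c) '' S := by
        rw [hL]
        exact ⟨t, ht, rfl⟩
      obtain ⟨z, hz, e1⟩ := h1
      have e2 : c + ∑ i, t i • e i = z := by
        rw [← e1]
        show c + (z - c) = z
        abel
      rw [e2]
      exact hz

end Pool.Agent.Lib.MP_5e7226_co.C8.SY
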