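import Pool.Agent.Lib.MP_5e7226_co.L7.Final

/-!
# Symmetric bodies near a parallelepiped: merging two pairs of adjacent corners

`C ⊆ L ⊆ (5/4) C` for the cube `C`, `L` symmetric. If some corner has no dark point then six
directions illuminate `L`. If one direction serves the dark points of two adjacent corners, then six
directions illuminate `L`.
-/

set_option autoImplicit false

open Set Filter Topology

namespace Pool.Agent.Lib.MP_5e7226_co.C8.SY

open GB L7

/-- `C ⊆ L ⊆ (5/4) C` for the cube `C = [-1,1]^3`, `L` symmetric -/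
structure Sd (L : Set E) : Prop where
  conv : Convex ℝ L
  cpt : IsCompact L
  inn : ∀ y : E, (∀ i, |y i| ≤ 1) → y ∈ L
  out : ∀ y ∈ L, ∀ i, |y i| ≤ 5/4
  sym : ∀ y ∈ L, -y ∈ L

lemma Sd.sand {L : Set E} (h : Sd L) : Sand L :=
  ⟨h.conv, h.cpt, h.inn, fun y hy i => (h.out y hy i).trans (by norm_num)⟩

/-! ### real arithmetic -/

lemma parts (m : ℝ) : ∃ p q : ℝ, 0 ≤ p ∧ 0 ≤ q ∧ m = p - q ∧ |m| = p + q := by
  rcases le_total 0 m with h | h
  · exact ⟨m, 0, h, le_rfl, by ring, by rw [abs_of_nonneg h]; ring⟩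
  · exact ⟨0, -m, le_rfl, by linarith, by ring, by rw [abs_of_nonpos h]; ring⟩

lemma term {m x p q lo hi : ℝ} (hp : 0 ≤ p) (hq : 0 ≤ q) (h1 : m = p - q)
    (hx : lo ≤ x) (hx' : x ≤ hi) : m * x ≤ hi * p - lo * q := by
  rw [h1]
  nlinarith [mul_nonneg hp (sub_nonneg.2 hx'), mul_nonneg hq (sub_nonneg.2 hx)]

/-- a normal of the first kind: the coordinate `i` is large -/
lemma tilt1 {a b c x y z : ℝ} (h1 : |a| + |b| + |c| = 1) (h2 : 1 ≤ a * x + b * y + c * z)
    (hx : 0 ≤ x) (hy : 0 ≤ y) (hz : 0 ≤ z) (hy' : y ≤ 5/4) (hz' : z ≤ 5/4)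
    (ht : b + c ≤ a) : 37/50 ≤ x := by
  by_contra hcon
  rw [not_le] at hcon
  obtain ⟨p1, q1, hp1, hq1, e1, f1⟩ := parts a
  obtain ⟨p2, q2, hp2, hq2, e2, f2⟩ := parts b
  obtain ⟨p3, q3, hp3, hq3, e3, f3⟩ := parts c
  have t1 := term hp1 hq1 e1 hx hcon.le
  have t2 := term hp2 hq2 e2 hy hy'
  have t3 := term hp3 hq3 e3 hz hz'
  linarith

/-- the normal of the merging direction -/
lemma tilt3 {a b c x y z u v w : ℝ} (h1 : |a| + |b| + |c| = 1) (h2 : 1 ≤ a * x + b * y + c * z)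
    (hx : 37/50 ≤ x) (hx' : x ≤ 5/4) (hy : 37/50 ≤ y) (hy' : y ≤ 5/4) (hz : 0 ≤ z)
    (hz' : z ≤ 5/4) (hu : 799/1000 ≤ u) (hu' : u ≤ 1401/1000) (hv : 799/1000 ≤ v)
    (hv' : v ≤ 1401/1000) (hw : |w| ≤ 301/1000) (ht : u * a + v * b + w * c ≤ 0) :
    47/100 ≤ c ∧ 9/10 ≤ z := by
  obtain ⟨p1, q1, hp1, hq1, e1, f1⟩ := parts a
  obtain ⟨p2, q2, hp2, hq2, e2, f2⟩ := parts b
  have t1 := term hp1 hq1 e1 hx hx'
  have t2 := term hp2 hq2 e2 hy hy'
  have l1 : 799/1000 * p1 - 1401/1000 * q1 ≤ u * a := by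
    rw [e1]
    nlinarith [mul_nonneg hp1 (sub_nonneg.2 hu), mul_nonneg hq1 (sub_nonneg.2 hu')]
  have l2 : 799/1000 * p2 - 1401/1000 * q2 ≤ v * b := by
    rw [e2]
    nlinarith [mul_nonneg hp2 (sub_nonneg.2 hv), mul_nonneg hq2 (sub_nonneg.2 hv')]
  have l3 : -(301/1000 * |c|) ≤ w * c := by
    have h3 : |w * c| ≤ 301/1000 * |c| := by
      rw [abs_mul]
      exact mul_le_mul_of_nonneg_right hw (abs_nonneg _)
    have := neg_abs_le (w * c)
    linarith
  have hc : 0 ≤ c := by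
    by_contra hneg
    rw [not_le] at hneg
    have t3 : c * z ≤ 0 := mul_nonpos_of_nonpos_of_nonneg hneg.le hz
    rw [abs_of_neg hneg] at h1 l3
    linarith
  rw [abs_of_nonneg hc] at h1 l3
  rw [f1, f2] at h1
  have t3 : c * z ≤ 5/4 * c := by nlinarith
  have s1 : 799/1000 * (p1 + p2) - 1401/1000 * (q1 + q2) ≤ 301/1000 * c := by linarith
  have s2 : 1 ≤ 5/4 * (p1 + p2) - 37/50 * (q1 + q2) + c * z := by linarith
  obtain ⟨P, hP⟩ : ∃ P, P = p1 + p2 := ⟨_, rfl⟩
  obtain ⟨Q, hQ⟩ : ∃ Q, Q = q1 + q2 := ⟨_, rfl⟩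
  rw [← hP, ← hQ] at s1 s2
  have hQ0 : 0 ≤ Q := by rw [hQ]; exact add_nonneg hq1 hq2
  have h1' : P + Q + c = 1 := by rw [hP, hQ]; linarith
  clear hP hQ t1 t2 l1 l2 l3 ht h1 h2 hu hu' hv hv' hw
  refine ⟨by linarith, ?_⟩
  by_contra hcon
  rw [not_le] at hcon
  have t4 : c * z ≤ 9/10 * c := by nlinarith
  linarith

/-- a normal at a dark point -/
lemma tiltD {a b c x y z : ℝ} (h1 : |a| + |b| + |c| = 1) (h2 : 1 ≤ a * x + b * y + c * z)
    (hx : 9/10 ≤ x) (hx' : x ≤ 5/4) (hy : 9/10 ≤ y) (hy' : y ≤ 5/4) (hz : 9/10 ≤ z)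
    (hz' : z ≤ 5/4) (ht : b + c - 61/200 * a ≤ 0) :
    147/250 ≤ a ∧ |b| + b + (|c| + c) ≤ 51/50 * a := by
  obtain ⟨p1, q1, hp1, hq1, e1, f1⟩ := parts a
  obtain ⟨p2, q2, hp2, hq2, e2, f2⟩ := parts b
  obtain ⟨p3, q3, hp3, hq3, e3, f3⟩ := parts c
  have t1 := term hp1 hq1 e1 hx hx'
  have t2 := term hp2 hq2 e2 hy hy'
  have t3 := term hp3 hq3 e3 hz hz'
  have ha : 0 ≤ a := by
    by_contra hneg
    rw [not_le] at hneg
    linarith
  have f1' := f1
  rw [abs_of_nonneg ha] at f1'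
  have hq0 : q1 = 0 := by linarith
  rw [f1, f2, f3] at h1
  have ha2 : 147/250 ≤ a := by linarith
  refine ⟨ha2, ?_⟩
  rw [f2, f3]
  linarith

/-- the displacement is not very positive in a coordinate with a strong normal -/
lemma disp {a b c x y z M : ℝ} (h1 : |a| + |b| + |c| = 1) (ha : 147/250 ≤ a)
    (hM : 0 ≤ M) (hy : |y| ≤ M) (hz : |z| ≤ M) (h : a * x + b * y + c * z ≤ 0) :
    x ≤ 71/100 * M := by
  by_contra hcon
  rw [not_le] at hcon
  have h2 : -(|b| * M) ≤ b * y := by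
    have h3 : |b * y| ≤ |b| * M := by
      rw [abs_mul]
      exact mul_le_mul_of_nonneg_left hy (abs_nonneg _)
    have := neg_abs_le (b * y)
    linarith
  have h3 : -(|c| * M) ≤ c * z := by
    have h3 : |c * z| ≤ |c| * M := by
      rw [abs_mul]
      exact mul_le_mul_of_nonneg_left hz (abs_nonneg _)
    have := neg_abs_le (c * z)
    linarith
  rw [abs_of_nonneg (by linarith : 0 ≤ a)] at h1
  have h4 : |b| * M + |c| * M = (1 - a) * M := by
    rw [← h1]
    ring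
  have h5 : a * x ≤ (1 - a) * M := by linarith
  have h6 : (1 - a) * M ≤ 103/250 * M := mul_le_mul_of_nonneg_right (by linarith) hM
  have h7 : 147/250 * x ≤ a * x := mul_le_mul_of_nonneg_right ha
    (by linarith [mul_nonneg (by norm_num : (0:ℝ) ≤ 71/100) hM])
  linarith

lemma half_neg {b y M : ℝ} (hy : -M ≤ y) (hy0 : y ≤ 0) : -((|b| + b) * M) ≤ 2 * (b * y) := by
  rcases le_total 0 b with h | h
  · rw [abs_of_nonneg h]
    nlinarith [mul_nonneg h (by linarith : (0:ℝ) ≤ y + M)]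
  · rw [abs_of_nonpos h]
    have : 0 ≤ b * y := mul_nonneg_of_nonpos_of_nonpos h hy0
    linarith

/-- the same when the two other displacements are not positive -/
lemma dispB {a b c x y z M : ℝ} (ha : 147/250 ≤ a) (hs : |b| + b + (|c| + c) ≤ 51/50 * a)
    (hM : 0 ≤ M) (hy : -M ≤ y) (hy0 : y ≤ 0) (hz : -M ≤ z) (hz0 : z ≤ 0)
    (h : a * x + b * y + c * z ≤ 0) : x ≤ 51/100 * M := by
  have h1 := half_neg (b := b) hy hy0
  have h2 := half_neg (b := c) hz hz0
  have h3 : (|b| + b + (|c| + c)) * M ≤ 51/50 * a * M := mul_le_mul_of_nonneg_right hs hM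
  have h4 : 2 * (a * x) ≤ 51/50 * a * M := by
    have e : (|b| + b + (|c| + c)) * M = (|b| + b) * M + (|c| + c) * M := by ring
    linarith
  have h5 : a * (x - 51/100 * M) ≤ 0 := by linarith
  have h6 := nonpos_of_mul_nonpos_right h5 (by linarith : (0:ℝ) < a)
  linarith

lemma termZ {b y M p q : ℝ} (hp : 0 ≤ p) (hq : 0 ≤ q) (e : b = p - q) (hy : y ≤ 71/100 * M)
    (hy' : |y| ≤ M) : b * y ≤ M * (71/100 * p + q) := by
  have h1 := neg_le_of_abs_le hy'
  rw [e]
  nlinarith [mul_nonneg hp (sub_nonneg.2 hy), mul_nonneg hq (by linarith : (0:ℝ) ≤ y + M)]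

/-- first kind of normals, one negative coordinate `-r` -/
lemma noI2 {a b r X Y Z y z M : ℝ} (hb : 0 ≤ b) (hr : 0 ≤ r) (h1 : |a| + b + r = 1)
    (h2 : 1 ≤ a * X + b * Y - r * Z) (hX : 0 ≤ X) (hX' : X ≤ 5/4 - M) (hY' : Y ≤ 5/4)
    (hZ0 : 0 ≤ Z) (hZ : 9/10 + z ≤ Z) (ht : b - r ≤ a) (hM : 0 < M) (hy : y ≤ 71/100 * M)
    (hy' : z ≤ 0 → y ≤ 51/100 * M) (hz : -M ≤ z) (h : 0 ≤ -(a * M) + b * y - r * z) :
    False := by
  have bY : b * Y ≤ 5/4 * b := by nlinarith
  have rZ : 0 ≤ r * Z := mul_nonneg hr hZ0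
  have ha : 0 < a := by
    by_contra hcon
    rw [not_lt] at hcon
    rw [abs_of_nonpos hcon] at h1
    have aX : a * X ≤ 0 := mul_nonpos_of_nonpos_of_nonneg hcon hX
    linarith
  rw [abs_of_pos ha] at h1
  have aX : a * X ≤ 5/4 * a - a * M := by nlinarith
  have aM : 0 < a * M := mul_pos ha hM
  rcases le_total z 0 with hz0 | hz0
  · have hy2 := hy' hz0
    have e1 : b * y ≤ 51/100 * b * M := by nlinarith
    have e2 : -(r * z) ≤ r * M := by nlinarith
    have e3 : 0 ≤ (51/100 * b + r - a) * M := by linarith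
    have e4 : 0 ≤ 51/100 * b + r - a := nonneg_of_mul_nonneg_left e3 hM
    rcases le_total r a with hra | hra
    · have e5 : 9/10 * r - r * M ≤ r * Z := by nlinarith
      have e6 : 0 ≤ (a - r) * M := mul_nonneg (by linarith) hM.le
      have e7 : (a - r) * M = a * M - r * M := by ring
      linarith
    · linarith
  · have e1 : b * y ≤ 71/100 * b * M := by nlinarith
    have e2 : 0 ≤ r * z := mul_nonneg hr hz0
    have e3 : 0 ≤ (71/100 * b - a) * M := by linarith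
    have e4 : 0 ≤ 71/100 * b - a := nonneg_of_mul_nonneg_left e3 hM
    have e5 : 9/10 * r ≤ r * Z := by nlinarith
    linarith

/-- the displacement is zero, first kind of normals -/
lemma noI {a b c x y z X Y Z M : ℝ} (h1 : |a| + |b| + |c| = 1)
    (h2 : 1 ≤ a * X + b * Y + c * Z) (hX : 0 ≤ X) (hX' : X ≤ 5/4 - M)
    (hY0 : 0 ≤ Y) (hY : 9/10 + y ≤ Y) (hY' : Y ≤ 5/4)
    (hZ0 : 0 ≤ Z) (hZ : 9/10 + z ≤ Z) (hZ' : Z ≤ 5/4) (ht : b + c ≤ a) (hM : 0 < M)
    (hx : x = -M) (hy : y ≤ 71/100 * M) (hyB : z ≤ 0 → y ≤ 51/100 * M) (hy' : |y| ≤ M)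
    (hz : z ≤ 71/100 * M) (hzB : y ≤ 0 → z ≤ 51/100 * M) (hz' : |z| ≤ M)
    (h : 0 ≤ a * x + b * y + c * z) : False := by
  have hyl := neg_le_of_abs_le hy'
  have hzl := neg_le_of_abs_le hz'
  have hyu := le_of_abs_le hy'
  have hzu := le_of_abs_le hz'
  rw [hx] at h
  rcases le_total 0 b with hb | hb <;> rcases le_total 0 c with hc | hc
  · rw [abs_of_nonneg hb, abs_of_nonneg hc] at h1
    have ha : 0 ≤ a := by linarith
    rw [abs_of_nonneg ha] at h1
    have e1 : b * y ≤ 71/100 * b * M := by nlinarith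
    have e2 : c * z ≤ 71/100 * c * M := by nlinarith
    have e3 : 0 ≤ (71/100 * b + 71/100 * c - a) * M := by linarith
    have e4 : 0 ≤ 71/100 * b + 71/100 * c - a := nonneg_of_mul_nonneg_left e3 hM
    linarith
  · rw [abs_of_nonneg hb, abs_of_nonpos hc] at h1
    exact noI2 (a := a) (b := b) (r := -c) (X := X) (Y := Y) (Z := Z) (y := y) (z := z) (M := M)
      hb (by linarith) h1 (by linarith) hX hX' hY' hZ0 hZ (by linarith) hM hy hyB hzl
      (by linarith)
  · rw [abs_of_nonpos hb, abs_of_nonneg hc] at h1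
    exact noI2 (a := a) (b := c) (r := -b) (X := X) (Y := Z) (Z := Y) (y := z) (z := y) (M := M)
      hc (by linarith) (by linarith) (by linarith) hX hX' hZ' hY0 hY (by linarith) hM hz hzB hyl
      (by linarith)
  · rw [abs_of_nonpos hb, abs_of_nonpos hc] at h1
    have bY : b * Y ≤ 0 := mul_nonpos_of_nonpos_of_nonneg hb hY0
    have cZ : c * Z ≤ 0 := mul_nonpos_of_nonpos_of_nonneg hc hZ0
    have e1 : b * y ≤ -b * M := by nlinarith
    have e2 : c * z ≤ -c * M := by nlinarith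
    have e3 : 0 ≤ (-b + -c - a) * M := by linarith
    have e4 : 0 ≤ -b + -c - a := nonneg_of_mul_nonneg_left e3 hM
    rcases le_total 0 a with ha | ha
    · rw [abs_of_nonneg ha] at h1
      have aX : a * X ≤ 5/4 * a := by nlinarith
      linarith
    · have aX : a * X ≤ 0 := mul_nonpos_of_nonpos_of_nonneg ha hX
      linarith

/-- the displacement is zero, merging direction -/
lemma noK {a b c x y z X Y Z M : ℝ} (h1 : |a| + |b| + |c| = 1)
    (h2 : 1 ≤ a * X + b * Y + c * Z) (hX : 37/50 ≤ X) (hX' : X ≤ 5/4) (hY : 37/50 ≤ Y)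
    (hY' : Y ≤ 5/4) (hZ' : Z ≤ 5/4) (hc : 47/100 ≤ c) (hM : 0 < M)
    (hz : z = -M) (hx : x ≤ 71/100 * M) (hx' : |x| ≤ M) (hy : y ≤ 71/100 * M) (hy' : |y| ≤ M)
    (h : 0 ≤ a * x + b * y + c * z) : False := by
  obtain ⟨p1, q1, hp1, hq1, e1, f1⟩ := parts a
  obtain ⟨p2, q2, hp2, hq2, e2, f2⟩ := parts b
  have t1 := term hp1 hq1 e1 hX hX'
  have t2 := term hp2 hq2 e2 hY hY'
  have t3 : c * Z ≤ 5/4 * c := by nlinarith
  have s1 := termZ hp1 hq1 e1 hx hx'
  have s2 := termZ hp2 hq2 e2 hy hy'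
  rw [abs_of_nonneg (by linarith : 0 ≤ c), f1, f2] at h1
  rw [hz] at h
  have h3 : 0 ≤ M * ((71/100 * p1 + q1) + (71/100 * p2 + q2) - c) := by
    have : M * ((71/100 * p1 + q1) + (71/100 * p2 + q2) - c) =
      M * (71/100 * p1 + q1) + M * (71/100 * p2 + q2) + c * -M := by ring
    rw [this]
    linarith
  have h4 := nonneg_of_mul_nonneg_right h3 hM
  linarith

/-! ### reduced inequalities -/

lemma red {L : Set E} (hS : Sd L) {y m : E} (hy : y ∈ L) (hm : Nrm L y m) (u : Fin 8)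
    (hu : ∀ l, 0 ≤ sg u l * y l) {i j k : Fin 3} (hij : i ≠ j) (hik : i ≠ k) (hjk : j ≠ k) :
    |(- sg u i * m i)| + |(- sg u j * m j)| + |(- sg u k * m k)| = 1 ∧
    1 ≤ (- sg u i * m i) * (sg u i * y i) + (- sg u j * m j) * (sg u j * y j) +
      (- sg u k * m k) * (sg u k * y k) := by
  have h := cor_of_nrm hS.sand hy hm u hu
  have h1 := h.one
  have h2 := h.sum
  rw [sum3 hij hik hjk] at h1 h2
  exact ⟨h1, by linarith⟩

lemma le_out {L : Set E} (hS : Sd L) {y : E} (hy : y ∈ L) (u : Fin 8) (l : Fin 3) :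
    sg u l * y l ≤ 5/4 := by
  refine (le_abs_self _).trans ?_
  rw [abs_mul, show |sg u l| = 1 from abs_sb _, one_mul]
  exact hS.out y hy l

/-- the inequality of a normal at `y` for a point `x` -/
lemma nrm_disp {L : Set E} {y m x : E} (hm : Nrm L y m) (hx : x ∈ L) (u : Fin 8)
    {i j k : Fin 3} (hij : i ≠ j) (hik : i ≠ k) (hjk : j ≠ k) :
    0 ≤ (- sg u i * m i) * (sg u i * y i - sg u i * x i) +
      (- sg u j * m j) * (sg u j * y j - sg u j * x j) +
      (- sg u k * m k) * (sg u k * y k - sg u k * x k) := by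
  have h1 := hm.2 x hx
  unfold dt at h1
  rw [sum3 hij hik hjk, sum3 hij hik hjk] at h1
  have hsq : ∀ l, sg u l * sg u l = 1 := fun l => sb_sq _
  have e : ∀ l, (- sg u l * m l) * (sg u l * y l - sg u l * x l) = m l * x l - m l * y l := by
    intro l
    have : (- sg u l * m l) * (sg u l * y l - sg u l * x l) =
      (sg u l * sg u l) * (m l * x l - m l * y l) := by ring
    rw [this, hsq, one_mul]
  rw [e, e, e]
  linarith

/-- the normals at a dark point -/
lemma dark_nrm {L : Set E} (hS : Sd L) {u : Fin 8} {x : E} (hd : Dark L u x) {i j k : Fin 3}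
    (hij : i ≠ j) (hik : i ≠ k) (hjk : j ≠ k) :
    ∃ m, Nrm L x m ∧ 147/250 ≤ - sg u i * m i ∧
      |(- sg u j * m j)| + (- sg u j * m j) + (|(- sg u k * m k)| + (- sg u k * m k)) ≤
        51/50 * (- sg u i * m i) := by
  obtain ⟨m, hm, ht⟩ := not_serve_dv hS.sand hd.mem u hij.symm hjk hik (hd.dark i)
  refine ⟨m, hm, ?_⟩
  obtain ⟨h1, h2⟩ := red hS hd.mem hm u hd.oct hij hik hjk
  have h9 := (dark_strong hS.sand hd).2
  exact tiltD h1 h2 (h9 i) (le_out hS hd.mem u i) (h9 j) (le_out hS hd.mem u j) (h9 k)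
    (le_out hS hd.mem u k) (by linarith)

/-- the direction of the corner `flip u i` at a point of the octant `u` -/
lemma not_serve_fl {L : Set E} (hS : Sd L) {y : E} (hy : y ∈ L) (u : Fin 8) {i j k : Fin 3}
    (hij : i ≠ j) (hik : i ≠ k) (hjk : j ≠ k) (h : ¬ Serve L y (fun l => - sg (flip u i) l)) :
    ∃ m, Nrm L y m ∧ (- sg u j * m j) + (- sg u k * m k) ≤ - sg u i * m i := by
  obtain ⟨m, hm, ht⟩ := exists_nrm hS.sand hy h
  refine ⟨m, hm, ?_⟩
  unfold dt at ht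
  rw [sum3 hij hik hjk] at ht
  beta_reduce at ht
  rw [sg_flip_self, sg_flip_ne u hij.symm, sg_flip_ne u hik.symm] at ht
  linarith

/-- the octants of the merged corners -/
theorem corner6 {L : Set E} (hS : Sd L) (u : Fin 8) {i j k : Fin 3} (hij : i ≠ j)
    (hik : i ≠ k) (hjk : j ≠ k) {x w : E} (hd : Dark L u x) (hk : |w k| ≤ 301/1000)
    (hw : ∀ l, l ≠ k → 799/1000 ≤ - sg u l * w l ∧ - sg u l * w l ≤ 1401/1000)
    (hs : Serve L x w) {y : E} (hy : y ∈ L) (ho : ∀ l, 0 ≤ sg u l * y l) :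
    Serve L y (fun l => - sg (flip u i) l) ∨ Serve L y (fun l => - sg (flip u j) l) ∨
      Serve L y w := by
  by_contra hcon
  have h1 : ¬ Serve L y (fun l => - sg (flip u i) l) := fun h => hcon (Or.inl h)
  have h2 : ¬ Serve L y (fun l => - sg (flip u j) l) := fun h => hcon (Or.inr (Or.inl h))
  have h3 : ¬ Serve L y w := fun h => hcon (Or.inr (Or.inr h))
  obtain ⟨m1, hm1, ht1⟩ := not_serve_fl hS hy u hij hik hjk h1
  obtain ⟨m2, hm2, ht2⟩ := not_serve_fl hS hy u hij.symm hjk hik h2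
  obtain ⟨m3, hm3, ht3⟩ := exists_nrm hS.sand hy h3
  obtain ⟨a1, a2⟩ := red hS hy hm1 u ho hij hik hjk
  obtain ⟨b1, b2⟩ := red hS hy hm2 u ho hij.symm hjk hik
  obtain ⟨c1, c2⟩ := red hS hy hm3 u ho hij hik hjk
  have li := le_out hS hy u i
  have lj := le_out hS hy u j
  have lk := le_out hS hy u k
  have hYi : 37/50 ≤ sg u i * y i := tilt1 a1 a2 (ho i) (ho j) (ho k) lj lk ht1
  have hYj : 37/50 ≤ sg u j * y j := tilt1 b1 b2 (ho j) (ho i) (ho k) li lk ht2
  have hsq : ∀ l, sg u l * sg u l = 1 := fun l => sb_sq _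
  have hω : |(- sg u k * w k)| ≤ 301/1000 := by
    rw [abs_mul, abs_neg, show |sg u k| = 1 from abs_sb _, one_mul]
    exact hk
  have hsum : (- sg u i * w i) * (- sg u i * m3 i) + (- sg u j * w j) * (- sg u j * m3 j) +
      (- sg u k * w k) * (- sg u k * m3 k) ≤ 0 := by
    have e : (- sg u i * w i) * (- sg u i * m3 i) + (- sg u j * w j) * (- sg u j * m3 j) +
      (- sg u k * w k) * (- sg u k * m3 k) = (sg u i * sg u i) * (m3 i * w i) +
        (sg u j * sg u j) * (m3 j * w j) + (sg u k * sg u k) * (m3 k * w k) := by ring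
    rw [e, hsq, hsq, hsq]
    have e2 : dt m3 w = m3 i * w i + m3 j * w j + m3 k * w k := by
      unfold dt
      exact sum3 hij hik hjk _
    rw [e2] at ht3
    linarith
  obtain ⟨hck, hYk⟩ := tilt3 c1 c2 hYi li hYj lj (ho k) lk (hw i hik).1 (hw i hik).2 (hw j hjk).1
    (hw j hjk).2 hω hsum
  -- the normals at the dark point
  obtain ⟨n1, hn1, d1, g1⟩ := dark_nrm hS hd hij hik hjk
  obtain ⟨n2, hn2, d2, g2⟩ := dark_nrm hS hd hij.symm hjk hik
  obtain ⟨n3, hn3, d3, g3⟩ := dark_nrm hS hd hik.symm hjk.symm hij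
  have x9 := (dark_strong hS.sand hd).2
  have xi := le_out hS hd.mem u i
  have xj := le_out hS hd.mem u j
  have xk := le_out hS hd.mem u k
  obtain ⟨o1, -⟩ := red hS hd.mem hn1 u hd.oct hij hik hjk
  obtain ⟨o2, -⟩ := red hS hd.mem hn2 u hd.oct hij.symm hjk hik
  obtain ⟨o3, -⟩ := red hS hd.mem hn3 u hd.oct hik.symm hjk.symm hij
  have z1 := nrm_disp hn1 hy u hij hik hjk
  have z2 := nrm_disp hn2 hy u hij.symm hjk hik
  have z3 := nrm_disp hn3 hy u hik.symm hjk.symm hij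
  have y1 := nrm_disp hm1 hd.mem u hij hik hjk
  have y2 := nrm_disp hm2 hd.mem u hij.symm hjk hik
  have y3 := nrm_disp hm3 hd.mem u hij hik hjk
  obtain ⟨zi, hzi⟩ : ∃ zi, zi = sg u i * y i - sg u i * x i := ⟨_, rfl⟩
  obtain ⟨zj, hzj⟩ : ∃ zj, zj = sg u j * y j - sg u j * x j := ⟨_, rfl⟩
  obtain ⟨zk, hzk⟩ : ∃ zk, zk = sg u k * y k - sg u k * x k := ⟨_, rfl⟩
  rw [← hzi, ← hzj, ← hzk] at y1 y2 y3
  have ei : sg u i * x i - sg u i * y i = -zi := by rw [hzi]; ring
  have ej : sg u j * x j - sg u j * y j = -zj := by rw [hzj]; ring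
  have ek : sg u k * x k - sg u k * y k = -zk := by rw [hzk]; ring
  rw [ei, ej, ek] at z1 z2 z3
  obtain ⟨M, hM⟩ : ∃ M, M = max |zi| (max |zj| |zk|) := ⟨_, rfl⟩
  have mi : |zi| ≤ M := by rw [hM]; exact le_max_left _ _
  have mj : |zj| ≤ M := by rw [hM]; exact (le_max_left _ _).trans (le_max_right _ _)
  have mk : |zk| ≤ M := by rw [hM]; exact (le_max_right _ _).trans (le_max_right _ _)
  have hM0 : 0 ≤ M := (abs_nonneg _).trans mi
  have bi := neg_le_of_abs_le mi
  have bj := neg_le_of_abs_le mj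
  have bk := neg_le_of_abs_le mk
  rcases hM0.lt_or_eq with hpos | h0
  · have w1 : (- sg u i * n1 i) * zi + (- sg u j * n1 j) * zj + (- sg u k * n1 k) * zk ≤ 0 := by
      linarith
    have w2 : (- sg u j * n2 j) * zj + (- sg u i * n2 i) * zi + (- sg u k * n2 k) * zk ≤ 0 := by
      linarith
    have w3 : (- sg u k * n3 k) * zk + (- sg u i * n3 i) * zi + (- sg u j * n3 j) * zj ≤ 0 := by
      linarith
    have si := disp o1 d1 hM0 mj mk w1
    have sj := disp o2 d2 hM0 mi mk w2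
    have sk := disp o3 d3 hM0 mi mj w3
    have neg_of : ∀ z : ℝ, z ≤ 71/100 * M → |z| = M → z = -M := by
      intro z hz hz'
      rcases abs_choice z with h | h
      · rw [h] at hz'
        linarith
      · rw [h] at hz'
        linarith
    rcases max_choice |zi| (max |zj| |zk|) with h | h
    · have hzi' := neg_of zi si (by rw [hM, h])
      have i0 : zi ≤ 0 := by linarith
      exact noI a1 a2 (ho i) (by linarith) (ho j) (by linarith [x9 j]) lj (ho k)
        (by linarith [x9 k]) lk ht1 hpos hzi' sj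
        (fun hz0 => dispB d2 g2 hM0 bi i0 bk hz0 w2) mj sk
        (fun hz0 => dispB d3 g3 hM0 bi i0 bj hz0 w3) mk y1
    · rcases max_choice |zj| |zk| with h' | h'
      · have hzj' := neg_of zj sj (by rw [hM, h, h'])
        have j0 : zj ≤ 0 := by linarith
        exact noI b1 b2 (ho j) (by linarith) (ho i) (by linarith [x9 i]) li (ho k)
          (by linarith [x9 k]) lk ht2 hpos hzj' si
          (fun hz0 => dispB d1 g1 hM0 bj j0 bk hz0 w1) mi sk
          (fun hz0 => dispB (b := - sg u j * n3 j) (c := - sg u i * n3 i) d3 (by linarith) hM0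
            bj j0 bi hz0 (by linarith)) mk y2
      · have hzk' := neg_of zk sk (by rw [hM, h, h'])
        exact noK c1 c2 hYi li hYj lj lk hck hpos hzk' si mi sj mj y3
  · have e : ∀ l, sg u l * y l - sg u l * x l = 0 := by
      intro l
      rcases third hij hik hjk l with rfl | rfl | rfl
      · rw [← hzi]; exact abs_nonpos_iff.1 (by rw [h0]; exact mi)
      · rw [← hzj]; exact abs_nonpos_iff.1 (by rw [h0]; exact mj)
      · rw [← hzk]; exact abs_nonpos_iff.1 (by rw [h0]; exact mk)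
    have hyx : y = x := by
      funext l
      have h4 := e l
      have h5 : sg u l * (sg u l * y l - sg u l * x l) = 0 := by rw [h4, mul_zero]
      have h6 : sg u l * (sg u l * y l - sg u l * x l) = (sg u l * sg u l) * (y l - x l) := by
        ring
      rw [h6, hsq, one_mul] at h5
      linarith
    rw [hyx] at h3
    exact h3 hs

end Pool.Agent.Lib.MP_5e7226_co.C8.SY
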