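import Pool.Agent.Lib.MP_5e7226_co.C8.SY.Loc1

/-!
# Symmetric bodies near a parallelepiped: six directions

`no_dark6`: some corner has no dark point. `merge6`: one direction serves the dark points of two
adjacent corners.
-/

set_option autoImplicit false

open Set Filter Topology

namespace Pool.Agent.Lib.MP_5e7226_co.C8.SY

open GB L7

theorem illum_of6 {L : Set E} (D : Finset E) (hD : D.card ≤ 6)
    (h : ∀ x ∈ L, ∃ d ∈ D, Serve L x d) : Illum L 6 := by
  refine ⟨fun i => if hi : (i : ℕ) < D.card then ((D.equivFin.symm ⟨i, hi⟩ : D) : E) else 0, ?_⟩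
  intro x hx
  obtain ⟨d, hd, t, ht, hs⟩ := h x hx
  refine ⟨⟨(D.equivFin ⟨d, hd⟩ : ℕ), lt_of_lt_of_le (D.equivFin ⟨d, hd⟩).2 hD⟩, t, ht, ?_⟩
  have h1 : ((D.equivFin ⟨d, hd⟩ : ℕ)) < D.card := (D.equivFin ⟨d, hd⟩).2
  have h2 : (⟨(D.equivFin ⟨d, hd⟩ : ℕ), h1⟩ : Fin D.card) = D.equivFin ⟨d, hd⟩ := rfl
  simp only [h1, dite_true, h2, Equiv.symm_apply_apply]
  exact hs

lemma neg_interior {L : Set E} (hs : ∀ y ∈ L, -y ∈ L) {x : E} (hx : x ∈ interior L) :
    -x ∈ interior L := by
  have h1 : (fun y : E => -y) '' interior L = interior ((fun y : E => -y) '' L) :=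
    (Homeomorph.neg E).image_interior L
  have h2 : (fun y : E => -y) '' L ⊆ L := by
    rintro _ ⟨y, hy, rfl⟩
    exact hs y hy
  exact interior_mono h2 (h1 ▸ ⟨x, hx, rfl⟩)

lemma serve_neg {L : Set E} (hs : ∀ y ∈ L, -y ∈ L) {x d : E} (h : Serve L (-x) d) :
    Serve L x (-d) := by
  obtain ⟨t, ht, hi⟩ := h
  refine ⟨t, ht, ?_⟩
  have h1 := neg_interior hs hi
  have e : -(-x + t • d) = x + t • (-d) := by
    rw [neg_add, neg_neg, smul_neg]
  rwa [e] at h1

private theorem M_cases (u v : Fin 8) {i j k : Fin 3} (hij : i ≠ j) (hik : i ≠ k) (hjk : j ≠ k) :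
    u = v ∨ u = flip v k ∨ u = flip v i ∨ u = flip v j ∨ u = flip (flip v k) i ∨
      u = flip (flip v k) j ∨ u = flip (flip v i) j ∨ u = flip (flip (flip v k) i) j := by
  have key : ∀ w : Fin 8, bit u i = bit w i → bit u j = bit w j → bit u k = bit w k → u = w := by
    intro w h1 h2 h3
    refine bit_ext fun l => ?_
    rcases third hij hik hjk l with rfl | rfl | rfl <;> assumption
  have nb : ∀ a b : Bool, a ≠ b → a = !b := by decide
  by_cases h1 : bit u i = bit v i
  · by_cases h2 : bit u j = bit v j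
    · by_cases h3 : bit u k = bit v k
      · exact Or.inl (key _ h1 h2 h3)
      · exact Or.inr (Or.inl (key _ (by rw [bit_flip_ne _ hik, h1]) (by rw [bit_flip_ne _ hjk, h2])
          (by rw [bit_flip_self, nb _ _ h3])))
    · by_cases h3 : bit u k = bit v k
      · exact Or.inr (Or.inr (Or.inr (Or.inl (key _ (by rw [bit_flip_ne _ hij, h1])
          (by rw [bit_flip_self, nb _ _ h2]) (by rw [bit_flip_ne _ hjk.symm, h3])))))
      · exact Or.inr (Or.inr (Or.inr (Or.inr (Or.inr (Or.inl (key _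
          (by rw [bit_flip_ne _ hij, bit_flip_ne _ hik, h1])
          (by rw [bit_flip_self, bit_flip_ne _ hjk, nb _ _ h2])
          (by rw [bit_flip_ne _ hjk.symm, bit_flip_self, nb _ _ h3])))))))
  · by_cases h2 : bit u j = bit v j
    · by_cases h3 : bit u k = bit v k
      · exact Or.inr (Or.inr (Or.inl (key _ (by rw [bit_flip_self, nb _ _ h1])
          (by rw [bit_flip_ne _ hij.symm, h2]) (by rw [bit_flip_ne _ hik.symm, h3]))))
      · exact Or.inr (Or.inr (Or.inr (Or.inr (Or.inl (key _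
          (by rw [bit_flip_self, bit_flip_ne _ hik, nb _ _ h1])
          (by rw [bit_flip_ne _ hij.symm, bit_flip_ne _ hjk, h2])
          (by rw [bit_flip_ne _ hik.symm, bit_flip_self, nb _ _ h3]))))))
    · by_cases h3 : bit u k = bit v k
      · exact Or.inr (Or.inr (Or.inr (Or.inr (Or.inr (Or.inr (Or.inl (key _
          (by rw [bit_flip_ne _ hij, bit_flip_self, nb _ _ h1])
          (by rw [bit_flip_self, bit_flip_ne _ hij.symm, nb _ _ h2])
          (by rw [bit_flip_ne _ hjk.symm, bit_flip_ne _ hik.symm, h3]))))))))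
      · exact Or.inr (Or.inr (Or.inr (Or.inr (Or.inr (Or.inr (Or.inr (key _
          (by rw [bit_flip_ne _ hij, bit_flip_self, bit_flip_ne _ hik, nb _ _ h1])
          (by rw [bit_flip_self, bit_flip_ne _ hij.symm, bit_flip_ne _ hjk, nb _ _ h2])
          (by rw [bit_flip_ne _ hjk.symm, bit_flip_ne _ hik.symm, bit_flip_self, nb _ _ h3]))))))))

private theorem M_one {L : Set E} (hS : Sand L) (s : Fin 8) (i : Fin 3) {y : E} (hy : y ∈ L)
    (hu : ∀ l, 0 ≤ sg (flip s i) l * y l) : Serve L y (dv s i) := by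
  have h1 : dv s i = fun l => -(sg (flip s i) l * (fun l => if l = i then (61/200 : ℝ) else 1) l) := by
    funext l
    by_cases h : l = i
    · subst h
      simp only [dv, if_true, sg_flip_self]
      ring
    · simp only [dv, if_neg h, sg_flip_ne _ h]
      ring
  rw [h1]
  refine serve_oct hS hy _ hu _ ?_
  intro l
  by_cases h : l = i
  · simp only [if_pos h]
    norm_num
  · simp only [if_neg h]
    norm_num

private theorem M_all {L : Set E} (hS : Sand L) (u : Fin 8) {y : E} (hy : y ∈ L)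
    (hu : ∀ l, 0 ≤ sg u l * y l) : Serve L y (fun l => - sg u l) := by
  have h1 : (fun l => - sg u l) = fun l => -(sg u l * (fun _ : Fin 3 => (1 : ℝ)) l) := by
    funext l
    simp
  rw [h1]
  refine serve_oct hS hy _ hu _ ?_
  intro l
  norm_num

/-- the sign vector of the opposite corner -/
lemma sg_opp {u v : Fin 8} {i j k : Fin 3} (hij : i ≠ j) (hik : i ≠ k) (hjk : j ≠ k)
    (h1 : sg u i = -sg v i) (h2 : sg u j = -sg v j) (h3 : sg u k = -sg v k) :
    ∀ l, sg u l = -sg v l := by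
  intro l
  rcases third hij hik hjk l with rfl | rfl | rfl <;> assumption

/-- octant of the opposite point -/
lemma oct_neg {u v : Fin 8} (h : ∀ l, sg u l = -sg v l) {y : E} (hu : ∀ l, 0 ≤ sg u l * y l) :
    ∀ l, 0 ≤ sg v l * (-y) l := by
  intro l
  have h1 := hu l
  rw [h l] at h1
  show 0 ≤ sg v l * (-y l)
  linarith

theorem no_dark6 {L : Set E} (hS : Sd L) (v : Fin 8) (h : ∀ x, ¬ Dark L v x) : Illum L 6 := by
  classical
  have hij : (0 : Fin 3) ≠ 1 := by decide
  have hik : (0 : Fin 3) ≠ 2 := by decide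
  have hjk : (1 : Fin 3) ≠ 2 := by decide
  refine illum_of6 ((Finset.univ.image fun j : Fin 3 => dv v j) ∪
    (Finset.univ.image fun j : Fin 3 => -dv v j)) ?_ ?_
  · refine (Finset.card_union_le _ _).trans ?_
    have h1 : (Finset.univ.image fun j : Fin 3 => dv v j).card ≤ 3 :=
      Finset.card_image_le.trans (by simp)
    have h2 : (Finset.univ.image fun j : Fin 3 => -dv v j).card ≤ 3 :=
      Finset.card_image_le.trans (by simp)
    omega
  · have pos : ∀ y ∈ L, (∃ j, Serve L y (dv v j)) → ∃ d ∈ ((Finset.univ.image fun j : Fin 3 =>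
        dv v j) ∪ (Finset.univ.image fun j : Fin 3 => -dv v j)), Serve L y d := by
      rintro y _ ⟨j, hj⟩
      exact ⟨_, Finset.mem_union_left _ (Finset.mem_image_of_mem _ (Finset.mem_univ j)), hj⟩
    have neg : ∀ y ∈ L, (∃ j, Serve L (-y) (dv v j)) → ∃ d ∈ ((Finset.univ.image fun j : Fin 3 =>
        dv v j) ∪ (Finset.univ.image fun j : Fin 3 => -dv v j)), Serve L y d := by
      rintro y _ ⟨j, hj⟩
      exact ⟨_, Finset.mem_union_right _ (Finset.mem_image_of_mem _ (Finset.mem_univ j)),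
        serve_neg hS.sym hj⟩
    have hv : ∀ y ∈ L, (∀ l, 0 ≤ sg v l * y l) → ∃ j, Serve L y (dv v j) := by
      intro y hy hu
      by_contra hcon
      push Not at hcon
      exact h y ⟨hy, hu, hcon⟩
    intro y hy
    have hny := hS.sym y hy
    obtain ⟨u, hu⟩ := exists_oct y
    rcases M_cases u v hij hik hjk with rfl | rfl | rfl | rfl | rfl | rfl | rfl | rfl
    · exact pos y hy (hv y hy hu)
    · exact pos y hy ⟨2, M_one hS.sand _ _ hy hu⟩
    · exact pos y hy ⟨0, M_one hS.sand _ _ hy hu⟩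
    · exact pos y hy ⟨1, M_one hS.sand _ _ hy hu⟩
    · refine neg y hy ⟨1, M_one hS.sand _ _ hny (oct_neg (sg_opp hij hik hjk ?_ ?_ ?_) hu)⟩
      · rw [sg_flip_self, sg_flip_ne _ hik, sg_flip_ne _ hij]
      · rw [sg_flip_ne _ hij.symm, sg_flip_ne _ hjk, sg_flip_self, neg_neg]
      · rw [sg_flip_ne _ hik.symm, sg_flip_self, sg_flip_ne _ hjk.symm]
    · refine neg y hy ⟨0, M_one hS.sand _ _ hny (oct_neg (sg_opp hij hik hjk ?_ ?_ ?_) hu)⟩
      · rw [sg_flip_ne _ hij, sg_flip_ne _ hik, sg_flip_self, neg_neg]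
      · rw [sg_flip_self, sg_flip_ne _ hjk, sg_flip_ne _ hij.symm]
      · rw [sg_flip_ne _ hjk.symm, sg_flip_self, sg_flip_ne _ hik.symm]
    · refine neg y hy ⟨2, M_one hS.sand _ _ hny (oct_neg (sg_opp hij hik hjk ?_ ?_ ?_) hu)⟩
      · rw [sg_flip_ne _ hij, sg_flip_self, sg_flip_ne _ hik]
      · rw [sg_flip_self, sg_flip_ne _ hij.symm, sg_flip_ne _ hjk]
      · rw [sg_flip_ne _ hjk.symm, sg_flip_ne _ hik.symm, sg_flip_self, neg_neg]
    · refine neg y hy (hv _ hny (oct_neg (sg_opp hij hik hjk ?_ ?_ ?_) hu))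
      · rw [sg_flip_ne _ hij, sg_flip_self, sg_flip_ne _ hik]
      · rw [sg_flip_self, sg_flip_ne _ hij.symm, sg_flip_ne _ hjk]
      · rw [sg_flip_ne _ hjk.symm, sg_flip_ne _ hik.symm, sg_flip_self]

theorem merge6 {L : Set E} (hS : Sd L) (v : Fin 8) (k : Fin 3) {x x' w : E}
    (hd : Dark L v x) (hd' : Dark L (flip v k) x') (hk : |w k| ≤ 301/1000)
    (hw : ∀ l, l ≠ k → 799/1000 ≤ - sg v l * w l ∧ - sg v l * w l ≤ 1401/1000)
    (h1 : Serve L x w) (h2 : Serve L x' w) : Illum L 6 := by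
  classical
  have hex : ∀ k : Fin 3, ∃ i j : Fin 3, i ≠ j ∧ i ≠ k ∧ j ≠ k := by decide
  obtain ⟨i, j, hij, hik, hjk⟩ := hex k
  obtain ⟨D, hD⟩ : ∃ D : List E, D = [w, -w, (fun l => - sg (flip v i) l),
    (fun l => - sg (flip v j) l), (fun l => - sg (flip (flip v k) i) l),
    (fun l => - sg (flip (flip v k) j) l)] := ⟨_, rfl⟩
  have fin : ∀ y d : E, d ∈ D → Serve L y d → ∃ d ∈ D.toFinset, Serve L y d :=
    fun y d hd hs => ⟨d, List.mem_toFinset.2 hd, hs⟩
  have hw' : ∀ l, l ≠ k → 799/1000 ≤ - sg (flip v k) l * w l ∧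
      - sg (flip v k) l * w l ≤ 1401/1000 := by
    intro l hl
    rw [sg_flip_ne v hl]
    exact hw l hl
  -- the opposite corners of the four corners
  have o1 : ∀ l, sg (flip (flip v k) j) l = -sg (flip v i) l := sg_opp hij hik hjk
    (by rw [sg_flip_ne _ hij, sg_flip_ne _ hik, sg_flip_self, neg_neg])
    (by rw [sg_flip_self, sg_flip_ne _ hjk, sg_flip_ne _ hij.symm])
    (by rw [sg_flip_ne _ hjk.symm, sg_flip_self, sg_flip_ne _ hik.symm])
  have o2 : ∀ l, sg (flip (flip v k) i) l = -sg (flip v j) l := sg_opp hij hik hjk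
    (by rw [sg_flip_self, sg_flip_ne _ hik, sg_flip_ne _ hij])
    (by rw [sg_flip_ne _ hij.symm, sg_flip_ne _ hjk, sg_flip_self, neg_neg])
    (by rw [sg_flip_ne _ hik.symm, sg_flip_self, sg_flip_ne _ hjk.symm])
  have n1 : -(fun l => - sg (flip v i) l) = fun l => - sg (flip (flip v k) j) l := by
    funext l
    show -(- sg (flip v i) l) = - sg (flip (flip v k) j) l
    rw [o1]
  have n2 : -(fun l => - sg (flip v j) l) = fun l => - sg (flip (flip v k) i) l := by
    funext l
    show -(- sg (flip v j) l) = - sg (flip (flip v k) i) l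
    rw [o2]
  have n3 : -(fun l => - sg (flip (flip v k) i) l) = fun l => - sg (flip v j) l := by
    rw [← n2, neg_neg]
  have n4 : -(fun l => - sg (flip (flip v k) j) l) = fun l => - sg (flip v i) l := by
    rw [← n1, neg_neg]
  -- the octants `v` and `flip v k`
  have cv : ∀ y ∈ L, (∀ l, 0 ≤ sg v l * y l) → Serve L y (fun l => - sg (flip v i) l) ∨
      Serve L y (fun l => - sg (flip v j) l) ∨ Serve L y w :=
    fun y hy hu => corner6 hS _ hij hik hjk hd hk hw h1 hy hu
  have cv' : ∀ y ∈ L, (∀ l, 0 ≤ sg (flip v k) l * y l) →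
      Serve L y (fun l => - sg (flip (flip v k) i) l) ∨
      Serve L y (fun l => - sg (flip (flip v k) j) l) ∨ Serve L y w :=
    fun y hy hu => corner6 hS _ hij hik hjk hd' hk hw' h2 hy hu
  refine illum_of6 D.toFinset (by rw [hD]; exact List.toFinset_card_le _) ?_
  intro y hy
  have hny := hS.sym y hy
  obtain ⟨u, hu⟩ := exists_oct y
  rcases M_cases u v hij hik hjk with rfl | rfl | rfl | rfl | rfl | rfl | rfl | rfl
  · rcases cv y hy hu with h | h | h
    · exact fin y _ (by rw [hD]; simp) h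
    · exact fin y _ (by rw [hD]; simp) h
    · exact fin y _ (by rw [hD]; simp) h
  · rcases cv' y hy hu with h | h | h
    · exact fin y _ (by rw [hD]; simp) h
    · exact fin y _ (by rw [hD]; simp) h
    · exact fin y _ (by rw [hD]; simp) h
  · exact fin y _ (by rw [hD]; simp) (M_all hS.sand _ hy hu)
  · exact fin y _ (by rw [hD]; simp) (M_all hS.sand _ hy hu)
  · exact fin y _ (by rw [hD]; simp) (M_all hS.sand _ hy hu)
  · exact fin y _ (by rw [hD]; simp) (M_all hS.sand _ hy hu)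
  · have ho := oct_neg (v := flip v k) (sg_opp hij hik hjk
      (by rw [sg_flip_ne _ hij, sg_flip_self, sg_flip_ne _ hik])
      (by rw [sg_flip_self, sg_flip_ne _ hij.symm, sg_flip_ne _ hjk])
      (by rw [sg_flip_ne _ hjk.symm, sg_flip_ne _ hik.symm, sg_flip_self, neg_neg])) hu
    rcases cv' _ hny ho with h | h | h
    · exact fin y _ (by rw [hD]; simp) (n3 ▸ serve_neg hS.sym h)
    · exact fin y _ (by rw [hD]; simp) (n4 ▸ serve_neg hS.sym h)
    · exact fin y (-w) (by rw [hD]; simp) (serve_neg hS.sym h)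
  · have ho := oct_neg (v := v) (sg_opp hij hik hjk
      (by rw [sg_flip_ne _ hij, sg_flip_self, sg_flip_ne _ hik])
      (by rw [sg_flip_self, sg_flip_ne _ hij.symm, sg_flip_ne _ hjk])
      (by rw [sg_flip_ne _ hjk.symm, sg_flip_ne _ hik.symm, sg_flip_self])) hu
    rcases cv _ hny ho with h | h | h
    · exact fin y _ (by rw [hD]; simp) (n1 ▸ serve_neg hS.sym h)
    · exact fin y _ (by rw [hD]; simp) (n2 ▸ serve_neg hS.sym h)
    · exact fin y (-w) (by rw [hD]; simp) (serve_neg hS.sym h)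

end Pool.Agent.Lib.MP_5e7226_co.C8.SY
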