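import Pool.Agent.Lib.MP_5e7226_co.C8.SY.Loc2

/-!
# The local theorem for symmetric bodies

`C ⊆ L ⊆ (5/4) C`, `L` symmetric: six directions illuminate `L`, or `L` is a parallelepiped. As in
`L7`, with the hypothesis `NM`: no direction serves the dark points of two adjacent corners.
-/

set_option autoImplicit false

open Set Filter Topology

namespace Pool.Agent.Lib.MP_5e7226_co.C8.SY

open GB L7

/-- no direction of a certain kind serves the dark points of two adjacent corners -/
def NM (L : Set E) : Prop := ∀ (v : Fin 8) (k : Fin 3) {x x' w : E},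
  Dark L v x → Dark L (flip v k) x' → |w k| ≤ 301/1000 →
    (∀ l, l ≠ k → 799/1000 ≤ - sg v l * w l ∧ - sg v l * w l ≤ 1401/1000) →
      Serve L x w → Serve L x' w → False


private theorem N_zero {L : Set E} (hS : Sand L) : (0 : E) ∈ interior L := by
  rw [mem_interior]
  refine ⟨Metric.ball 0 1, ?_, Metric.isOpen_ball, Metric.mem_ball_self one_pos⟩
  intro y hy
  apply hS.inn
  intro i
  rw [mem_ball_zero_iff] at hy
  have h := norm_le_pi_norm y i
  rw [Real.norm_eq_abs] at h
  linarith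

private theorem N_delta (f : Fin 3 → ℝ) (hf : ∀ i, 0 < f i) : ∃ δ : ℝ, 0 < δ ∧ ∀ i, δ ≤ f i := by
  refine ⟨min (f 0) (min (f 1) (f 2)), lt_min (hf 0) (lt_min (hf 1) (hf 2)), ?_⟩
  intro i
  fin_cases i
  · exact min_le_left _ _
  · exact (min_le_right _ _).trans (min_le_left _ _)
  · exact (min_le_right _ _).trans (min_le_right _ _)

theorem no_merge {L : Set E} (hS : Sand L) (hn : NM L) (v : Fin 8) (k : Fin 3)
    {x x' p p' : E} (hd : Dark L v x) (hd' : Dark L (flip v k) x') (hp : p ∈ L) (hp' : p' ∈ L)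
    {lam : ℝ} (hl : 1 < lam) (h : p' - p = lam • (x' - x))
    (hk : |(1/2) * (p k + p' k - x k - x' k)| < 301/1000)
    (hw : ∀ i, i ≠ k → 799/1000 < - sg v i * ((1/2) * (p i + p' i - x i - x' i)) ∧
      - sg v i * ((1/2) * (p i + p' i - x i - x' i)) < 1401/1000) : False := by
  classical
  obtain ⟨δ, hδ, hδf⟩ := N_delta
    (fun i => if i = k then 301/1000 - |(1/2) * (p k + p' k - x k - x' k)| else
      min (- sg v i * ((1/2) * (p i + p' i - x i - x' i)) - 799/1000)
        (1401/1000 - - sg v i * ((1/2) * (p i + p' i - x i - x' i))))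
    (fun i => by
      by_cases hik : i = k
      · rw [if_pos hik]
        linarith
      · rw [if_neg hik]
        obtain ⟨h1, h2⟩ := hw i hik
        exact lt_min (by linarith) (by linarith))
  obtain ⟨w, hw1, h1, h2⟩ := serve_chord hS.conv (N_zero hS) hd.mem hd'.mem hp hp' hl h hδ
  refine hn v k hd hd' (w := w) ?_ ?_ h1 h2
  · have h3 := hδf k
    rw [if_pos rfl] at h3
    have h4 := hw1 k
    have h5 : |w k| ≤ |w k - (1/2) * (p k + p' k - x k - x' k)| + |(1/2) * (p k + p' k - x k - x' k)| := by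
      have h6 := abs_add_le (w k - (1/2) * (p k + p' k - x k - x' k)) ((1/2) * (p k + p' k - x k - x' k))
      rw [sub_add_cancel] at h6
      exact h6
    linarith
  · intro l hl'
    have h3 := hδf l
    rw [if_neg hl'] at h3
    have h4 := h3.trans (min_le_left _ _)
    have h5 := h3.trans (min_le_right _ _)
    have h6 : |- sg v l * (w l - (1/2) * (p l + p' l - x l - x' l))| < δ := by
      rw [abs_mul, abs_neg]
      have h7 : |sg v l| = 1 := abs_sb _
      rw [h7, one_mul]
      exact hw1 l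
    rw [abs_lt] at h6
    have h8 : - sg v l * w l = - sg v l * (w l - (1/2) * (p l + p' l - x l - x' l)) +
        - sg v l * ((1/2) * (p l + p' l - x l - x' l)) := by ring
    constructor
    · rw [h8]; linarith [h6.1]
    · rw [h8]; linarith [h6.2]

theorem star {L : Set E} (hS : Sand L) (hn : NM L) {x : Fin 8 → E}
    (hd : ∀ v, Dark L v (x v)) {φ : E →ₗ[ℝ] E} (hφ : Dual x φ) {v : Fin 8} {i j k : Fin 3}
    (hij : i ≠ j) (hik : i ≠ k) (hjk : j ≠ k) (hv : sg v k = -1) {θ : ℝ} (hθ : |θ| ≤ 1/100) :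
    1 ≤ φ (x (flip v k) - x v) k - 2 * θ * φ (A2 x i j) k := by
  have hb := bd_of_dark hS hd
  by_contra hlt
  rw [not_le] at hlt
  set e : E := x (flip v k) - x v with he
  set α : E := φ e with hα
  set a : E := φ (A2 x i j) with ha
  have ha5 : ∀ l, |a l| ≤ 1/5 := fun l => dual_bound hb hφ (fun l => A2_le hb hij l) l
  have hθa : ∀ l, |2 * θ * a l| ≤ 1/250 := by
    intro l
    rw [abs_mul, abs_mul, abs_two]
    calc 2 * |θ| * |a l| ≤ 2 * (1/100) * (1/5) := by
          refine mul_le_mul ?_ (ha5 l) (abs_nonneg _) (by norm_num)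
          linarith
      _ = 1/250 := by norm_num
  have hk1 := abs_le.1 (hθa k)
  have hαk : α k ≤ 101/100 := by linarith [hk1.2]
  obtain ⟨h47, hT⟩ := edge_coord hb hφ hij hik hjk hv hαk
  have h47' : 4/7 ≤ α k := h47
  have hT' : |α i| + |α j| ≤ 4/7 + 2/7 * α k := hT
  have hαpos : 0 < α k := by linarith
  set lam : ℝ := min (101/100) ((1 + 2 * θ * a k) / α k) with hlam
  have hl1 : 1 < lam := by
    rw [hlam, lt_min_iff]
    refine ⟨by norm_num, ?_⟩
    rw [lt_div_iff₀ hαpos]
    linarith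
  have hl2 : lam ≤ 101/100 := min_le_left _ _
  have hl3 : lam * α k ≤ 1 + 2 * θ * a k := by
    have := min_le_right (101/100 : ℝ) ((1 + 2 * θ * a k) / α k)
    calc lam * α k ≤ ((1 + 2 * θ * a k) / α k) * α k :=
          mul_le_mul_of_nonneg_right this hαpos.le
      _ = 1 + 2 * θ * a k := div_mul_cancel₀ _ hαpos.ne'
  set κ : ℝ := lam * α k - 2 * θ * a k with hκdef
  set ti : ℝ := lam * α i - 2 * θ * a i with hti
  set tj : ℝ := lam * α j - 2 * θ * a j with htj
  have hκ1 : κ ≤ 1 := by rw [hκdef]; linarith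
  have hκ2 : α k - 1/250 ≤ κ := by
    have : α k ≤ lam * α k := by nlinarith
    rw [hκdef]; linarith [hk1.2]
  have habs : ∀ l, |lam * α l - 2 * θ * a l| ≤ 101/100 * |α l| + 1/250 := by
    intro l
    refine (abs_sub _ _).trans (add_le_add ?_ (hθa l))
    rw [abs_mul, abs_of_pos (by linarith : 0 < lam)]
    exact mul_le_mul_of_nonneg_right hl2 (abs_nonneg _)
  have hsum : |ti| + |tj| + |θ| ≤ (1 + κ)/2 := by
    have h1 := habs i
    have h2 := habs j
    have h3 : |ti| + |tj| ≤ 101/100 * (|α i| + |α j|) + 1/125 := by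
      rw [hti, htj]; linarith
    linarith
  have hsum1 : |ti| + |tj| + |θ| ≤ 1 := by linarith
  have hhull := hull_pts x hij hik hjk hκ1 hsum
  set M : E := ctr x + ti • A2 x k i + tj • A2 x k j + θ • A3 x k i j with hM
  set R : E := κ • eb x k + ti • eb x i + tj • eb x j + (2 * θ) • A2 x i j with hR
  have hL : convexHull ℝ (range x) ⊆ L :=
    convexHull_min (by rintro _ ⟨u, rfl⟩; exact (hd u).mem) hS.conv
  have hp := hL hhull.1
  have hp' := hL hhull.2
  have hRe : R = lam • e := by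
    have e1 : e = α i • eb x i + α j • eb x j + α k • eb x k := by
      have := hφ.expand e
      rwa [sum3 hij hik hjk] at this
    have e2 : A2 x i j = a i • eb x i + a j • eb x j + a k • eb x k := by
      have := hφ.expand (A2 x i j)
      rwa [sum3 hij hik hjk] at this
    funext l
    have e1' := congrFun e1 l
    have e2' := congrFun e2 l
    simp only [Pi.add_apply, Pi.smul_apply, smul_eq_mul] at e1' e2'
    rw [hR]
    simp only [Pi.add_apply, Pi.smul_apply, smul_eq_mul]
    rw [hκdef, hti, htj]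
    linear_combination (2 * θ) * e2' - lam * e1'
  have hdiff : (M + (1/2 : ℝ) • R) - (M - (1/2 : ℝ) • R) = lam • (x (flip v k) - x v) := by
    rw [← he, ← hRe]
    module
  obtain ⟨w1, w2⟩ := range1 hb v hij hik hjk hsum1
    (w := M - (1/2 : ℝ) • (x v + x (flip v k))) rfl
  have hcoord : ∀ l, (1/2 : ℝ) * ((M - (1/2 : ℝ) • R) l + (M + (1/2 : ℝ) • R) l - x v l
      - x (flip v k) l) = (M - (1/2 : ℝ) • (x v + x (flip v k))) l := by
    intro l
    simp only [Pi.add_apply, Pi.sub_apply, Pi.smul_apply, smul_eq_mul]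
    ring
  refine no_merge hS hn v k (hd v) (hd (flip v k)) hp hp' hl1 hdiff ?_ ?_
  · rw [hcoord k]
    linarith
  · intro l hl
    rw [hcoord l]
    have := w2 l hl
    constructor <;> linarith [this.1, this.2]



private theorem Q_edge {x : Fin 8 → E} (hp : ∀ v, x v = ctr x + ∑ l, (1/2 * sg v l) • eb x l)
    {v : Fin 8} {k : Fin 3} (hv : sg v k = -1) : x (flip v k) - x v = eb x k := by
  obtain ⟨i, j, hij, hik, hjk⟩ : ∃ i j : Fin 3, i ≠ j ∧ i ≠ k ∧ j ≠ k := by
    have h : ∀ k : Fin 3, ∃ i j : Fin 3, i ≠ j ∧ i ≠ k ∧ j ≠ k := by decide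
    exact h k
  have h1 := hp v
  have h2 := hp (flip v k)
  rw [sum3 hij hik hjk] at h1 h2
  rw [sg_flip_self, sg_flip_ne v hik, sg_flip_ne v hjk] at h2
  funext n
  have e1 := congrFun h1 n
  have e2 := congrFun h2 n
  simp only [Pi.add_apply, Pi.smul_apply, smul_eq_mul, Pi.sub_apply] at e1 e2 ⊢
  rw [hv] at e1 e2
  linear_combination e2 - e1

private theorem Q_small {x : Fin 8 → E} (hb : Bd x) (k l : Fin 3) : |eb x k l| ≤ 13/5 := by
  by_cases h : l = k
  · subst h
    have := eb_diag hb l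
    rw [abs_le]
    constructor <;> linarith
  · have := eb_off hb (i := l) (j := k) h
    linarith

/-- the two points `p, p'` -/
private theorem Q_main {L : Set E} (hS : Sand L) (hn : NM L) {x : Fin 8 → E} (hb : Bd x)
    (hd : ∀ v, Dark L v (x v)) (hp : ∀ v, x v = ctr x + ∑ l, (1/2 * sg v l) • eb x l)
    {k : Fin 3} {p p' : E} (hpL : p ∈ L) (hpL' : p' ∈ L) {lam μ : ℝ} (hl : 1 < lam)
    (h : p' - p = lam • eb x k) (h' : p + p' = (2 : ℝ) • ctr x + μ • eb x k)
    (hμ : |μ| ≤ 1/10000) : False := by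
  obtain ⟨v, hv⟩ : ∃ v : Fin 8, sg v k = -1 := by
    rcases sb_or (bit 0 k) with h1 | h1
    · exact ⟨flip 0 k, by rw [sg_flip_self]; show -(sb (bit 0 k)) = -1; rw [h1]⟩
    · exact ⟨0, h1⟩
  obtain ⟨i, j, hij, hik, hjk⟩ : ∃ i j : Fin 3, i ≠ j ∧ i ≠ k ∧ j ≠ k := by
    have h : ∀ k : Fin 3, ∃ i j : Fin 3, i ≠ j ∧ i ≠ k ∧ j ≠ k := by decide
    exact h k
  have hedge := Q_edge hp hv
  obtain ⟨hr1, hr2⟩ := range1 hb v hij hik hjk (ti := 0) (tj := 0) (θ := 0) (by norm_num)
    (w := ctr x + (0 : ℝ) • A2 x k i + (0 : ℝ) • A2 x k j + (0 : ℝ) • A3 x k i j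
      - (1/2 : ℝ) • (x v + x (flip v k))) rfl
  have hw : ∀ n, (1/2) * (p n + p' n - x v n - x (flip v k) n)
      = (ctr x + (0 : ℝ) • A2 x k i + (0 : ℝ) • A2 x k j + (0 : ℝ) • A3 x k i j
      - (1/2 : ℝ) • (x v + x (flip v k))) n + (μ / 2) * eb x k n := by
    intro n
    have e := congrFun h' n
    simp only [Pi.add_apply, Pi.smul_apply, smul_eq_mul, Pi.sub_apply] at e ⊢
    linear_combination (1/2) * e
  have hsm : ∀ n, |(μ / 2) * eb x k n| ≤ 1/2000 := by
    intro n
    rw [abs_mul, abs_div]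
    have h1 := Q_small hb k n
    have h2 : |μ| / |(2 : ℝ)| ≤ 1/20000 := by
      rw [abs_of_pos (by norm_num : (0 : ℝ) < 2)]
      linarith
    calc |μ| / |(2 : ℝ)| * |eb x k n| ≤ (1/20000) * (13/5) :=
          mul_le_mul h2 h1 (abs_nonneg _) (by norm_num)
      _ ≤ 1/2000 := by norm_num
  refine no_merge hS hn v k (hd v) (hd (flip v k)) hpL hpL' hl (by rw [h, hedge]) ?_ ?_
  · rw [hw k]
    have h1 := hsm k
    have h2 := abs_add_le ((ctr x + (0 : ℝ) • A2 x k i + (0 : ℝ) • A2 x k j + (0 : ℝ) • A3 x k i j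
      - (1/2 : ℝ) • (x v + x (flip v k))) k) ((μ / 2) * eb x k k)
    linarith
  · intro n hnk
    rw [hw n]
    have h1 := hsm n
    have h2 := hr2 n hnk
    have h3 : |sg v n * ((μ / 2) * eb x k n)| ≤ 1/2000 := by
      rw [abs_mul]
      have : |sg v n| = 1 := abs_sb _
      rw [this, one_mul]
      exact h1
    rw [abs_le] at h3
    constructor
    · rw [mul_add]
      have h4 := h2.1
      have h5 := h3.2
      linarith
    · rw [mul_add]
      have h4 := h2.2
      have h5 := h3.1
      linarith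

theorem last_step {L : Set E} (hS : Sand L) (hn : NM L) {x : Fin 8 → E} (hb : Bd x)
    (hd : ∀ v, Dark L v (x v)) {φ : E →ₗ[ℝ] E} (hφ : Dual x φ)
    (hp : ∀ v, x v = ctr x + ∑ l, (1/2 * sg v l) • eb x l) {y : E} (hy : y ∈ L) (l : Fin 3) :
    |φ (y - ctr x) l| ≤ 1/2 := by
  by_contra hcon
  rw [not_le] at hcon
  set β := φ (y - ctr x) with hβ
  have hexp : y = ctr x + ∑ m, β m • eb x m := by
    rw [← hφ.expand (y - ctr x)]
    abel
  obtain ⟨i, j, hij, hil, hjl⟩ : ∃ i j : Fin 3, i ≠ j ∧ i ≠ l ∧ j ≠ l := by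
    have h : ∀ k : Fin 3, ∃ i j : Fin 3, i ≠ j ∧ i ≠ k ∧ j ≠ k := by decide
    exact h l
  have hxL : ∀ v, x v ∈ L := fun v => (hd v).mem
  obtain ⟨s, hs, hsb⟩ : ∃ s : ℝ, (s = 1 ∨ s = -1) ∧ 1/2 < s * β l := by
    rcases le_total 0 (β l) with h | h
    · refine ⟨1, Or.inl rfl, ?_⟩
      rw [abs_of_nonneg h] at hcon
      linarith
    · refine ⟨-1, Or.inr rfl, ?_⟩
      rw [abs_of_nonpos h] at hcon
      linarith
  have hsabs : |s / 2| ≤ 1/2 := by
    rcases hs with rfl | rfl <;> norm_num [abs_le]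
  set B : ℝ := 1 + ∑ m, |β m| with hB
  have hBm : ∀ m, |β m| ≤ B - 1 := by
    intro m
    have := Finset.single_le_sum (f := fun m => |β m|) (fun m _ => abs_nonneg _)
      (Finset.mem_univ m)
    linarith
  have hB1 : 1 ≤ B := by
    have := hBm l
    have := abs_nonneg (β l)
    linarith
  set η : ℝ := 1 / (10000 * B) with hη
  have hη0 : 0 < η := by positivity
  have hηB : η * B = 1/10000 := by
    rw [hη]
    field_simp
  have hη1 : η ≤ 1/10000 := by nlinarith
  have hηm : ∀ m, η * |β m| ≤ 1/10000 := by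
    intro m
    have h1 := hBm m
    nlinarith
  have h1η : 0 < 1 - η := by linarith
  set t : Fin 3 → ℝ := fun m => if m = l then s / 2 else -(η * β m) / (1 - η) with ht
  have htl : t l = s / 2 := by rw [ht]; simp
  have hto : ∀ m, m ≠ l → (1 - η) * t m = - (η * β m) := by
    intro m hm
    rw [ht]
    simp only [hm, if_false]
    field_simp
  have ht2 : ∀ m, |t m| ≤ 1/2 := by
    intro m
    by_cases hm : m = l
    · rw [hm, htl]
      exact hsabs
    · have h1 : |(1 - η) * t m| ≤ 1/10000 := by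
        rw [hto m hm, abs_neg, abs_mul, abs_of_pos hη0]
        exact hηm m
      rw [abs_mul, abs_of_pos h1η] at h1
      have h2 := abs_nonneg (t m)
      nlinarith
  have hz := box_mem hS.conv hxL hp ht2
  have hq := hS.conv hz hy h1η.le hη0.le (by ring)
  have hq' := box_mem hS.conv hxL hp (t := fun m => if m = l then -(s / 2) else 0) (by
    intro m
    by_cases hm : m = l
    · simp only [hm, if_true]
      rw [abs_neg]
      exact hsabs
    · simp only [hm, if_false, abs_zero]
      norm_num)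
  set q : E := (1 - η) • (ctr x + ∑ l, t l • eb x l) + η • y with hqd
  set q' : E := ctr x + ∑ m, (if m = l then -(s / 2) else 0) • eb x m with hqd'
  have eq1 : q = ctr x + (s / 2 + η * (β l - s / 2)) • eb x l := by
    rw [hqd, hexp, sum3 hij hil hjl, sum3 hij hil hjl]
    funext n
    simp only [Pi.add_apply, Pi.smul_apply, smul_eq_mul]
    linear_combination (eb x i n) * hto i hil + (eb x j n) * hto j hjl
      + ((1 - η) * eb x l n) * htl
  have eq2 : q' = ctr x - (s / 2) • eb x l := by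
    rw [hqd', sum3 hij hil hjl]
    funext n
    simp only [Pi.add_apply, Pi.smul_apply, smul_eq_mul, Pi.sub_apply, hil, hjl, if_false,
      if_true]
    ring
  have hμ : |η * (β l - s / 2)| ≤ 1/10000 := by
    rw [abs_mul, abs_of_pos hη0]
    have h1 : |β l - s / 2| ≤ B := by
      have := abs_sub (β l) (s / 2)
      have := hBm l
      linarith
    calc η * |β l - s / 2| ≤ η * B := mul_le_mul_of_nonneg_left h1 hη0.le
      _ = 1/10000 := hηB
      _ ≤ 1/10000 := le_refl _
  have hsum : q + q' = (2 : ℝ) • ctr x + (η * (β l - s / 2)) • eb x l := by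
    rw [eq1, eq2]
    funext n
    simp only [Pi.add_apply, Pi.smul_apply, smul_eq_mul, Pi.sub_apply]
    ring
  rcases hs with rfl | rfl
  · refine Q_main hS hn hb hd hp hq' hq (lam := 1 + η * (β l - 1 / 2)) ?_ ?_
      (by rw [add_comm]; exact hsum) hμ
    · nlinarith
    · rw [eq1, eq2]
      funext n
      simp only [Pi.add_apply, Pi.smul_apply, smul_eq_mul, Pi.sub_apply]
      ring
  · refine Q_main hS hn hb hd hp hq hq' (lam := 1 - η * (β l + 1 / 2)) ?_ ?_ hsum hμ
    · nlinarith
    · rw [eq1, eq2]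
      funext n
      simp only [Pi.add_apply, Pi.smul_apply, smul_eq_mul, Pi.sub_apply]
      ring

theorem local6 {L : Set E} (hSd : Sd L) : Illum L 6 ∨ IsPar L := by
  by_cases hn6 : Illum L 6
  · exact Or.inl hn6
  right
  have hS := hSd.sand
  have hn : NM L := fun v k _ _ _ hd hd' hk hw h1 h2 => hn6 (merge6 hSd v k hd hd' hk hw h1 h2)
  have hdk : ∀ v, ∃ x, Dark L v x := by
    intro v
    by_contra h
    exact hn6 (no_dark6 hSd v (fun x hx => h ⟨x, hx⟩))
  choose x hd using hdk
  have hb := bd_of_dark hS hd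
  obtain ⟨hli, φ, hφ⟩ := exists_dual hb
  have hp := vertices hφ (fun v i j k hij hik hjk hv θ hθ => star hS hn hd hφ hij hik hjk hv hθ)
  refine ⟨ctr x, fun i => (1/2 : ℝ) • eb x i, ?_, ?_⟩
  · exact hli.units_smul (fun _ => Units.mk0 (1/2 : ℝ) (by norm_num))
  · ext y
    constructor
    · intro hy
      refine ⟨fun i => 2 * φ (y - ctr x) i, fun i => ?_, ?_⟩
      · have := last_step hS hn hb hd hφ hp hy i
        rw [abs_mul, abs_of_pos (by norm_num : (0:ℝ) < 2)]; linarith
      · have h := hφ.expand (y - ctr x)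
        have h2 : y = ctr x + (y - ctr x) := by abel
        conv_lhs => rw [h2, h]
        congr 1
        refine Finset.sum_congr rfl fun i _ => ?_
        rw [smul_smul]; congr 1; ring
    · rintro ⟨t, ht, rfl⟩
      have := box_mem hS.conv (fun v => (hd v).mem) hp (t := fun i => t i / 2) (fun l => by
        rw [abs_div, abs_of_pos (by norm_num : (0:ℝ) < 2)]; linarith [ht l])
      convert this using 2
      refine Finset.sum_congr rfl fun i _ => ?_
      rw [smul_smul]; congr 1; ring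

end Pool.Agent.Lib.MP_5e7226_co.C8.SY
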