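import Pool.Agent.Lib.MP_5e7226_co.C8.SY.Box

/-!
# Leaves near parallelepipeds for symmetric bodies

As `TF.zl`; the centre is the origin, the ratio is `5/4`, and the triples are pairs.
-/

set_option autoImplicit false

open Set

namespace Pool.Agent.Lib.MP_5e7226_co.C8

open GB TF

namespace SY

/-- a leaf near a parallelepiped with the centre `0` and the half edges `e1 e2 e3` -/
noncomputable def zs : List ℕ → List ℕ → ℕ → ℕ → ℕ → ℕ → ℕ → ℕ → ℕ → ℕ → ℕ → ℕ → ℕ → ℕ → Bool :=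
  fun K F H e1 e2 e3 S0 S1 S2 S3 S4 S5 S6 S7 =>
  (fun nf nd TK T => (fun FC DC =>
    @Bool.rec (fun _ => Bool) false
    (z1 (ln K) (ln F) nf nd FC DC TK (tk F) T7.org e1 e2 e3 T
      (fl TK (nat_lit 0) (nat_lit 45) nf FC)
      (fl TK (nat_lit 17179869184) (nat_lit 21) nd DC)
      (boxL T e1 e2 e3) S0 S1 S2 S3 S4 S5 S6 S7) (sc TK nd DC))
    (Nat.shiftRight H (nat_lit 15))
    (Nat.shiftRight H (Nat.add (nat_lit 15) (Nat.mul (nat_lit 45) nf))))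
    (Nat.land H (nat_lit 255)) (Nat.land (Nat.shiftRight H (nat_lit 8)) (nat_lit 127)) (tk K)
    (T7.dtm e1 e2 e3)

lemma rp_org : rp T7.org = 0 := by
  obtain ⟨h1, h2, h3⟩ := T7.org_c
  unfold rp
  rw [h1, h2, h3]
  funext i
  fin_cases i <;> simp [rv]

lemma sc_sound {TK : ℕ} : ∀ (n S : ℕ), sc TK n S = true → ∀ j < n,
    ng (pt TK (i7 (S / 2 ^ (21 * j)) 0)) (pt TK (i7 (S / 2 ^ (21 * j)) 14)) = true := by
  intro n
  induction n with
  | zero => intro S _ j hj; omega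
  | succ n ih =>
    intro S h j hj
    obtain ⟨h1, h2⟩ := br h
    cases j with
    | zero =>
      simp only [mul_zero, pow_zero, Nat.div_one]
      exact h2
    | succ j =>
      have h3 := ih _ h1 j (by omega)
      rw [nshr, Nat.div_div_eq_div_mul, ← pow_add, show 21 + 21 * j = 21 * (j + 1) by ring] at h3
      exact h3

/-- the three points are in the list, and the triple is a pair -/
lemma fl_in2 {K : List ℕ} {k n S : ℕ} {h : FD} (hh : h ∈ fl (tk K) k 21 n S)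
    (hi : ∀ j < n, i3 (ln K) (S / 2 ^ (21 * j)) = true) (hs : sc (tk K) n S = true) :
    ∃ p ∈ md K, ∃ q ∈ md K, ∃ r ∈ md K, h = mkFD k p q r ∧ ng p r = true := by
  obtain ⟨j, hj, e⟩ := fl_mem hh
  obtain ⟨h1, h2, h3⟩ := i3_true (hi j hj)
  rw [ln_eq] at h1 h2 h3
  exact ⟨_, pt_md K _ h1, _, pt_md K _ h2, _, pt_md K _ h3, e, sc_sound n S hs j hj⟩

/-- soundness of a leaf near a parallelepiped -/
theorem zs_sound {K F : List ℕ} (h0 : (0 : E) ∈ convexHull ℝ (KS K))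
    {H e1 e2 e3 S0 S1 S2 S3 S4 S5 S6 S7 : ℕ}
    (h : zs K F H e1 e2 e3 S0 S1 S2 S3 S4 S5 S6 S7 = true) :
    ∀ L ∈ symCls 1024, KS K ⊆ L → (∀ x ∈ KS F, x ∉ L) → Q6 L := by
  intro L hL hpts hF0
  obtain ⟨nf, hnf⟩ : ∃ nf, nf = Nat.land H 255 := ⟨_, rfl⟩
  obtain ⟨nd, hnd⟩ : ∃ nd, nd = Nat.land (Nat.shiftRight H 8) 127 := ⟨_, rfl⟩
  obtain ⟨FC, hFC⟩ : ∃ FC, FC = Nat.shiftRight H 15 := ⟨_, rfl⟩
  obtain ⟨DC, hDC⟩ : ∃ DC, DC = Nat.shiftRight H (Nat.add 15 (Nat.mul 45 nf)) := ⟨_, rfl⟩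
  have h' : @Bool.rec (fun _ => Bool) false
      (z1 (ln K) (ln F) nf nd FC DC (tk K) (tk F) T7.org e1 e2 e3 (T7.dtm e1 e2 e3)
      (fl (tk K) 0 45 nf FC) (fl (tk K) 17179869184 21 nd DC)
      (boxL (T7.dtm e1 e2 e3) e1 e2 e3) S0 S1 S2 S3 S4 S5 S6 S7) (sc (tk K) nd DC) = true := by
    rw [hDC, hFC, hnf, hnd]
    exact h
  clear h hDC hFC hnf hnd
  obtain ⟨h', hsc⟩ := br h'
  set fs := fl (tk K) 0 45 nf FC with hfs
  set ds := fl (tk K) 17179869184 21 nd DC with hds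
  set bs := boxL (T7.dtm e1 e2 e3) e1 e2 e3 with hbs
  obtain ⟨h', kT⟩ := br h'
  obtain ⟨h', kok⟩ := br h'
  obtain ⟨h', kin⟩ := br h'
  rw [ap_eq, ap_eq] at h'
  have lenf : fs.length = nf := fl_len _ _ _ _ _
  have lend : ds.length = nd := fl_len _ _ _ _ _
  have lenfd : (fs ++ ds).length = nf + nd := by rw [List.length_append, lenf, lend]
  have hlen : Nat.add (Nat.add nf nd) 6 = ((fs ++ ds) ++ bs).length := by
    rw [List.length_append, lenfd]; rfl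
  have hbd0 : ∀ h ∈ fs ++ ds, FB h := by
    intro h hh
    rcases List.mem_append.1 hh with hh | hh
    · obtain ⟨j, _, rfl⟩ := fl_mem hh
      exact mkFD_bd (by norm_num)
    · obtain ⟨j, _, rfl⟩ := fl_mem hh
      exact mkFD_bd (by norm_num)
  have hbd : ∀ h ∈ (fs ++ ds) ++ bs, FB h := by
    intro h hh
    rcases List.mem_append.1 hh with hh | hh
    · exact hbd0 h hh
    · exact boxL_fb kok h hh
  have hn := nu_of hbd hlen
  obtain ⟨nh, hnh⟩ : ∃ X, X = Nat.add (Nat.add nf nd) 6 := ⟨_, rfl⟩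
  rw [← hnh] at hn hlen
  obtain ⟨BI, hBI⟩ : ∃ X, X = Nat.mul 39614081257132168796771975168 (on nh) := ⟨_, rfl⟩
  obtain ⟨C0, hC0⟩ : ∃ X, X = pf FD.c ((fs ++ ds) ++ bs) := ⟨_, rfl⟩
  obtain ⟨C1, hC1⟩ : ∃ X, X = Nat.add (pf FD.A1 ((fs ++ ds) ++ bs)) (Nat.sub
    (Nat.shiftLeft 1 (Nat.mul 96 nh)) (pf FD.B1 ((fs ++ ds) ++ bs))) := ⟨_, rfl⟩
  obtain ⟨C2, hC2⟩ : ∃ X, X = Nat.add (pf FD.A2 ((fs ++ ds) ++ bs)) (Nat.sub
    (Nat.shiftLeft 1 (Nat.mul 96 nh)) (pf FD.B2 ((fs ++ ds) ++ bs))) := ⟨_, rfl⟩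
  obtain ⟨C3, hC3⟩ : ∃ X, X = Nat.add (pf FD.A3 ((fs ++ ds) ++ bs)) (Nat.sub
    (Nat.shiftLeft 1 (Nat.mul 96 nh)) (pf FD.B3 ((fs ++ ds) ++ bs))) := ⟨_, rfl⟩
  obtain ⟨D1, hD1⟩ : ∃ X, X = Nat.add (pf FD.B1 ((fs ++ ds) ++ bs)) (Nat.sub
    (Nat.shiftLeft 1 (Nat.mul 96 nh)) (pf FD.A1 ((fs ++ ds) ++ bs))) := ⟨_, rfl⟩
  obtain ⟨D2, hD2⟩ : ∃ X, X = Nat.add (pf FD.B2 ((fs ++ ds) ++ bs)) (Nat.sub
    (Nat.shiftLeft 1 (Nat.mul 96 nh)) (pf FD.A2 ((fs ++ ds) ++ bs))) := ⟨_, rfl⟩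
  obtain ⟨D3, hD3⟩ : ∃ X, X = Nat.add (pf FD.B3 ((fs ++ ds) ++ bs)) (Nat.sub
    (Nat.shiftLeft 1 (Nat.mul 96 nh)) (pf FD.A3 ((fs ++ ds) ++ bs))) := ⟨_, rfl⟩
  rw [← hBI, ← hC0, ← hC1, ← hC2, ← hC3, ← hD1, ← hD2, ← hD3] at hn
  have h3 : z3 (ln K) (ln F) nf nd nh FC DC (tk K) (tk F)
      (Nat.mul 39614081257132168796771975168 (on nf))
      (Nat.shiftLeft (Nat.mul 39614081257132168796771975168 (on 6)) (Nat.mul 96 (Nat.add nf nd)))
      BI C0 C1 C2 C3 D1 D2 D3 S0 S1 S2 S3 S4 S5 S6 S7 = true := by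
    rw [hBI, hC0, hC1, hC2, hC3, hD1, hD2, hD3, hnh]
    exact h'
  clear h' hC0 hC1 hC2 hC3 hD1 hD2 hD3
  obtain ⟨h3, k1⟩ := br h3
  obtain ⟨h3, k2⟩ := br h3
  obtain ⟨h3, k3⟩ := br h3
  obtain ⟨h3, k4⟩ := br h3
  obtain ⟨h3, k5⟩ := br h3
  have k2' : 1 ≤ nf := Nat.le_of_ble_eq_true k2
  -- the offsets are positive
  have hCC := hn.CC hlen
  have hpos : ∀ h ∈ (fs ++ ds) ++ bs, 0 < h.c := by
    have e1 : BI = pk (fun _ => 39614081257132168796771975168) ((fs ++ ds) ++ bs) := by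
      rw [pk_const, hBI, hlen]; rfl
    rw [e1] at k5
    have k5' := set_of_mask ((beq_iff _ _).1 k5)
    have hs1 := sign_set hCC (fun f hf => by
      have a2 : (f.c : ℤ) < 2 ^ 56 := by exact_mod_cast (hbd f hf).c
      have a3 : (0 : ℤ) ≤ f.c := Nat.cast_nonneg _
      constructor
      · norm_num; linarith
      · norm_num at a2 ⊢; linarith) k5'
    intro f hf
    have := hs1 f hf
    omega
  -- the facets
  have hfc := fc_true k4
  have hdc := dc_true k3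
  have hV : ∀ k, Rp (fs ++ ds) (Nat.add (Nat.add C0 (Nat.mul 39614081257132168796771975167
      (on nh))) (vn D1 D2 D3 (Nat.mul 32768 (Nat.add (Nat.add C1 C2) C3))
      (pt (tk K) k))) (fun h => 2 ^ 95 + ((h.c : ℤ) - 1 -
      dz h (ix (pt (tk K) k)) (iy (pt (tk K) k)) (iz (pt (tk K) k)))) := by
    intro k
    refine ((hCC.add (hn.K0 (pt (tk K) k))).pre).congr (fun f _ => ?_)
    ring
  have hgood : ∀ h ∈ fs, FGood fs h := by
    intro h hh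
    have hp := hpos h (List.mem_append_left _ (List.mem_append_left _ hh))
    obtain ⟨j, hj, rfl⟩ := fl_mem hh
    obtain ⟨_, n1, n2, n3⟩ := hfc j hj
    exact ⟨hp, nb_facet hfs hbd0 hV n1, nb_facet hfs hbd0 hV n2, nb_facet hfs hbd0 hV n3⟩
  have hok : FctOk (fs.map toF) := by
    refine fctOk_of ?_ hgood ?_
    · intro he
      rw [he] at lenf
      simp at lenf
      omega
    · intro h hh
      obtain ⟨j, _, rfl⟩ := fl_mem hh
      exact ⟨_, _, _, rfl⟩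
  have h0' : (0 : E) ∈ convexHull ℝ (KS (md K)) := by rw [KS_md]; exact h0
  have hfac : Fac (md K) fs := by
    refine ⟨hok, fun h hh => hbd0 h (List.mem_append_left _ hh), fun h hh => ?_, h0'⟩
    obtain ⟨p, hp, q, hq, r, hr, rfl⟩ := fl_in hh (fun j hj => (hfc j hj).1)
    exact ⟨hp, hq, hr⟩
  have hsub : KS (md K) ⊆ L := by rw [KS_md]; exact hpts
  have hout : ∀ f < ln F, rp (pt (tk F) f) ∉ L := by
    intro f hf
    rw [ln_eq] at hf
    rw [pt_tk F f hf, rp_mod]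
    exact hF0 _ ⟨_, List.getElem_mem hf, rfl⟩
  have hdead : ∀ h ∈ ds, Dead L {z | (h.c : ℝ) ≤ nr h ⬝ᵥ z} := by
    intro h hh
    have hp := hpos h (List.mem_append_left _ (List.mem_append_right _ hh))
    obtain ⟨p, h1, q, h2, r, h4, rfl, hng⟩ := fl_in2 hh hdc hsc
    exact dead_ng hL (hsub ⟨p, h1, rfl⟩) (hsub ⟨q, h2, rfl⟩) hng hp
  have hCL := hn.CL hlen
  have hcd : Cd 4096 nf nd (ln F) (Nat.mul 39614081257132168796771975168 (on nf))
      (Nat.add BI (Nat.mul 4096 (Nat.sub (Nat.shiftLeft 1 (Nat.mul 96 nh)) C0)))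
      (Nat.add BI (Nat.mul (Nat.mul 4096 4096) C0))
      (fun a => vn D1 D2 D3 (Nat.mul 32768 (Nat.add (Nat.add C1 C2) C3)) (pt 0 a))
      (fun f => Nat.mul 4096 (vn D1 D2 D3 (Nat.mul 32768 (Nat.add (Nat.add C1 C2) C3))
        (pt (tk F) f))) 0 (tk F) (md K) fs ds L := by
    refine ⟨hfac, hbd0, (facts hL).2.1, hsub, lenf, lend, by norm_num, le_rfl, ?_, hCL.pre, ?_,
      fun a => (hn.K0 _).pre, fun f => ?_, hout, hdead⟩
    · rw [pk_const, lenf, nmul]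
    · refine ((hn.hBI.add (hn.hC0.mul (4096 * 4096))).pre).congr (fun f _ => ?_)
      push_cast
      ring
    · refine (((hn.K0 (pt (tk F) f)).mul 4096).pre).congr (fun f _ => ?_)
      ring
  have hMB : Nat.shiftLeft (Nat.mul 39614081257132168796771975168 (on 6))
      (Nat.mul 96 (Nat.add nf nd)) =
      Nat.shiftLeft (pk (fun _ => 39614081257132168796771975168) bs)
      (Nat.mul 96 (fs ++ ds).length) := by
    rw [pk_const, lenfd]
    rfl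
  have hbox : ∀ x ∈ convexHull ℝ {z : E | ∀ f ∈ bs, nr f ⬝ᵥ z ≤ (f.c : ℝ)},
      x ∈ Bx (rp e1) (rp e2) (rp e3) := by
    intro x hx
    refine convexHull_min ?_ (convex_Bx _ _ _) hx
    exact fun z hz => mem_Bx hz
  have hall : ∀ x ∈ L, x ∈ Bx (rp e1) (rp e2) (rp e3) :=
    o8_sound (zD_sound hcd hbd hCL hMB hbox) no_sound (zN_sound hcd hbd hCL hMB hbox) hn h3
  have hdet : T7.D3 (rp e1) (rp e2) (rp e3) ≠ 0 := by
    intro hz
    have a1 := T7.dtm_eq e1 e2 e3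
    rw [hz, abs_zero] at a1
    have a2 : T7.dtm e1 e2 e3 = 0 := by exact_mod_cast a1
    have a3 : 1 ≤ T7.dtm e1 e2 e3 := Nat.le_of_ble_eq_true kT
    rw [a2] at a3
    exact absurd a3 (by norm_num)
  refine near_box ((facts hL).2.1) ((facts hL).1) ((facts hL).2.2.1) hdet ?_ hall
  intro a b c ha hb hc
  refine convexHull_min hsub ((facts hL).2.1) (hfac.mem ?_)
  intro f hfm
  have := T7.inF_sound (T7.inL_sound kin f hfm) ha hb hc
  rwa [rp_org] at this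


end SY

end Pool.Agent.Lib.MP_5e7226_co.C8
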